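import Pool.Agent.Lib.MP_d439b2_co.W.SpecA

/-!
# MP_d439b2_co, X2: closed bundles with the chains of the rails (a stronger form of `W.S_Bundle`)
-/

set_option autoImplicit false

namespace Pool.Agent.MPd439b2.X2

open Pool.Agent.MPd439b2 Pool.Agent.MPd439b2.W

/-- closed bundles, with the chains of the rails: consecutive rails are in different chains, the first and
the last rail are in the same chain -/
def S_BundleS : Prop := ∀ (n q : ℕ) (f : ℕ → ℕ), ∃ N : ℕ, ∀ (α : Type) [Fintype α] [DecidableEq α]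
  [PartialOrder α] (c : α → Fin n) (U S : Finset α), ChainP c → WL c U S (4 * n) q →
  N ≤ S.card → ∃ (r : ℕ) (v : ℕ → ℕ → α) (χ : ℕ → Fin n), Bun (f r) r v ∧
    (∀ j ≤ r, ∀ k < f r, c (v j k) = χ j) ∧ (∀ j < r, 0 < f r → χ j ≠ χ (j + 1)) ∧
    (0 < f r → χ 0 = χ r) ∧ ∀ k < f r, ∀ l < f r, v 0 k < v r l

private theorem bun_ind_symm {α : Type} (Γ : SimpleGraph α) (x y : α) : ind Γ x y = ind Γ y x := by
  classical
  unfold ind
  simp only [Γ.adj_comm]

private theorem bun_restrict {α : Type} [PartialOrder α] {m m' r : ℕ} {v : ℕ → ℕ → α}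
    (h : Bun m r v) (hm : m' ≤ m) : Bun m' r v := by
  refine ⟨fun i hi k l hkl hl => h.mono i hi k l hkl (by omega), fun i hi => ?_⟩
  rcases h.step i hi with h' | h'
  · exact Or.inl fun k hk l hl => h' k (by omega) l (by omega)
  · exact Or.inr fun k hk l hl => h' k (by omega) l (by omega)

theorem bundleS (h1 : S_Carve) (h2 : S_Reg) (h3 : S_Deg) (h4 : S_BadWL) (h5 : S_LinkA)
    (h6 : S_LinkB) (h7 : S_Reroute) (h8 : S_TrackOf) (h9 : S_Noncross) : S_BundleS := by
  -- the claim with the number of chains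
  have claim : ∀ (j n q : ℕ) (f : ℕ → ℕ), ∃ N : ℕ, ∀ (α : Type) [Fintype α] [DecidableEq α]
      [PartialOrder α] (c : α → Fin n) (U S : Finset α), ChainP c → (U.image c).card ≤ j →
      WL c U S (4 * n) q → N ≤ S.card → ∃ (r : ℕ) (v : ℕ → ℕ → α) (χ : ℕ → Fin n),
        Bun (f r) r v ∧ (∀ j ≤ r, ∀ k < f r, c (v j k) = χ j) ∧
        (∀ j < r, 0 < f r → χ j ≠ χ (j + 1)) ∧ (0 < f r → χ 0 = χ r) ∧
        ∀ k < f r, ∀ l < f r, v 0 k < v r l := by
    intro j
    induction j with
    | zero =>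
      intro n q f
      refine ⟨1, fun α _ _ _ c U S _ hj hwl hN => ?_⟩
      exfalso
      have hU : U = ∅ := by
        rw [← Finset.image_eq_empty (f := c)]
        exact Finset.card_eq_zero.1 (Nat.le_zero.1 hj)
      have hS : S = ∅ := Finset.subset_empty.1 (hU ▸ hwl.1)
      rw [hS, Finset.card_empty] at hN
      omega
    | succ j ih =>
      intro n q f
      rcases Nat.eq_zero_or_pos n with hn | hn
      · subst hn
        refine ⟨1, fun α _ _ _ c U S _ hj hwl hN => ?_⟩
        exfalso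
        obtain ⟨x, _⟩ : S.Nonempty := Finset.card_pos.1 (by omega)
        exact (c x).elim0
      obtain ⟨N', hN'⟩ := ih n (4 * n) f
      obtain ⟨g, hg⟩ : ∃ g, g = 2 * n * (N' + 1) := ⟨_, rfl⟩
      have hg2n : 2 * n ≤ g := by
        rw [hg]
        exact Nat.le_mul_of_pos_right _ (Nat.succ_pos _)
      have hg1 : 1 ≤ g := by omega
      obtain ⟨m, hm⟩ : ∃ m, ∀ r ≤ n + 2 * g + 1, f r ≤ m :=
        ⟨(Finset.range (n + 2 * g + 2)).sup f, fun r hr =>
          Finset.le_sup (f := f) (Finset.mem_range.2 (by omega))⟩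
      obtain ⟨M, hM⟩ := h8 n (2 * g) m
      refine ⟨(4 * n + 2 * n * q) * (4 * g * M + 1 + 1) + 1, ?_⟩
      intro α _ _ _ c U S hc hj hwl hN
      obtain ⟨i, A, B, ν, p, l1, l2, l3, l4, l5⟩ :=
        h5 n q (4 * g * M + 1) α c U S hc hwl (by omega)
      obtain ⟨a, b, Q, b1, b2, b3, b4⟩ :=
        h6 n (4 * g * M + 1) α c U i A B ν p hc l1 l2 l3 l4 l5
      obtain ⟨U', hU'⟩ : ∃ U', U' = U.filter (fun x => c x ≠ i) := ⟨_, rfl⟩
      rw [← hU'] at b4
      have hj' : (U'.image c).card ≤ j := by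
        have hsub : U'.image c ⊆ (U.image c).erase i := by
          intro z hz
          obtain ⟨x, hx, rfl⟩ := Finset.mem_image.1 hz
          rw [hU'] at hx
          have hx' := Finset.mem_filter.1 hx
          exact Finset.mem_erase.2 ⟨hx'.2, Finset.mem_image_of_mem c hx'.1⟩
        have hi : i ∈ U.image c := by
          have h0 := b1 0 (by omega)
          rw [← h0.2.1]
          exact Finset.mem_image_of_mem c h0.1
        have := Finset.card_le_card hsub
        rw [Finset.card_erase_of_mem hi] at this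
        omega
      rcases h1 α (ind (Gam c U')) (2 * n) g (bun_ind_symm _)
        (fun x => h3 n α c U' hc x {x}ᶜ) hg2n with hcarv | ⟨Z, hbad⟩
      · -- the regions
        obtain ⟨jj, R, r1, r2⟩ := h2 α (Gam c U') g M (4 * g * M + 1) Q hg1 hcarv
          (fun k hk => (b4 k hk).2.1) (fun k hk l hl hkl => (b3 k hk l hl hkl).2.2) (by omega)
        have hit : ∀ k, ∃ (s : ℕ) (A' B' : ℕ → α), k < M → 1 ≤ s ∧ s ≤ n + 2 * g ∧
            (Ess c (a (jj k)) (A' 0) ∨ Ess c (A' 0) (a (jj k))) ∧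
            (Ess c (B' (s - 1)) (b (jj k)) ∨ Ess c (b (jj k)) (B' (s - 1))) ∧
            (∀ j < s, Run c U' (R k) (A' j) (B' j)) ∧
            ∀ j, j + 1 < s → Ess c (B' j) (A' (j + 1)) ∨ Ess c (A' (j + 1)) (B' j) := by
          intro k
          by_cases hk : k < M
          · obtain ⟨q1, q2, q3⟩ := r1 k hk
            obtain ⟨p1, p2, ⟨x, hx, hxe⟩, y, hy, hye⟩ := b4 (jj k) q1
            obtain ⟨s, A', B', s1, s2, s3, s4, s5, s6⟩ :=
              h7 n α c U' (R k) (Q (jj k)) (2 * g) x y hc q3 q2 p1 p2 hx hy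
            refine ⟨s, A', B', fun _ => ⟨s1, s2, ?_, ?_, s5, s6⟩⟩
            · rw [s3]
              exact hxe
            · rw [s4]
              exact hye.symm
          · exact ⟨0, a, a, fun h => absurd h hk⟩
        choose s A' B' hs using hit
        obtain ⟨r, κ, A2, B2, χ, dir, t1, t2, t3⟩ := hM α c U' i (fun k => a (jj k))
          (fun k => b (jj k)) R s A' B' hc (fun k hk => (b1 (jj k) (r1 k hk).1).2)
          (fun k hk l hl hkl => by
            obtain ⟨u1, u2⟩ := r2 k hk l hl hkl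
            obtain ⟨w1, w2, _⟩ := b3 (jj k) (r1 k hk).1 (jj l) (r1 l hl).1 u1
            exact ⟨w1, w2, u2⟩)
          (fun k hk => hs k hk)
        obtain ⟨κ', k1, k2⟩ := h9 n m r α c A2 B2 χ dir hc t3
        have hfr : f r ≤ m := hm r (by omega)
        refine ⟨r, fun j k => A2 (κ' k) j, χ, bun_restrict k2 hfr,
          fun j hj k hk => t3.cA (κ' k) (k1 k (by omega)) j hj, ?_, ?_, fun k hk l hl => ?_⟩
        · intro j hj hf
          have hk0 : κ' 0 < 2 * m := k1 0 (by omega)
          have e1 := t3.cA (κ' 0) hk0 (j + 1) (by omega)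
          have e2 := t3.cB (κ' 0) hk0 j (by omega)
          rw [← e1, ← e2]
          by_cases hd : dir j
          · exact (t3.up (κ' 0) hk0 j hj hd).1
          · exact fun h => (t3.dn (κ' 0) hk0 j hj hd).1 h.symm
        · intro hf
          have hk0 : κ' 0 < 2 * m := k1 0 (by omega)
          have e1 := t3.cA (κ' 0) hk0 0 (by omega)
          have e2 := t3.cA (κ' 0) hk0 r le_rfl
          obtain ⟨e3, e4, e5⟩ := t2 (κ' 0) hk0
          have e6 := (b1 (jj (κ (κ' 0))) (r1 _ e3).1).2
          rw [← e1, ← e2, e4, e5]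
          exact e6.1.trans e6.2.symm
        · obtain ⟨e1, e2, _⟩ := t2 (κ' k) (k1 k (by omega))
          obtain ⟨e3, _, e4⟩ := t2 (κ' l) (k1 l (by omega))
          show A2 (κ' k) 0 < A2 (κ' l) r
          rw [e2, e4]
          exact b2 _ (r1 _ e1).1 _ (r1 _ e3).1
      · -- a bad set
        obtain ⟨S', w1, w2⟩ := h4 n α c U' Z g (4 * n) hc hbad
        have hN2 : N' ≤ S'.card := by
          rw [hg] at w2
          have : N' + 1 < S'.card + 1 := Nat.lt_of_mul_lt_mul_left w2
          omega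
        refine hN' α c (Z ∩ U') S' hc ?_ w1 hN2
        exact (Finset.card_le_card (Finset.image_subset_image Finset.inter_subset_right)).trans hj'
  intro n q f
  obtain ⟨N, hN⟩ := claim n n q f
  refine ⟨N, fun α _ _ _ c U S hc hwl hcard => hN α c U S hc ?_ hwl hcard⟩
  calc (U.image c).card ≤ (Finset.univ : Finset (Fin n)).card :=
        Finset.card_le_card (Finset.subset_univ _)
    _ = n := by rw [Finset.card_univ, Fintype.card_fin]

end Pool.Agent.MPd439b2.X2
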