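import Pool.Agent.Lib.MP_d439b2_co.X2.Defs
import Pool.Agent.Lib.MP_d439b2_co.X2.BundleS
import Pool.Agent.Lib.MP_d439b2_co.W.SpecE

/-!
# MP_d439b2_co, X2, Spec A: the bounded width theorem for staircase structures (helper85)

Every `S_...` is a statement to be proved in its own file `X2/<Name>.lean`; the docstring contains the complete
proof.  Basic lemmas are in `X2/Defs.lean`: `Pt.le_def`, `Pt.ch_eq`, `Pt.chainP`, `Pt.sg_sg`, `Pt.sg_le`,
`Pt.ch_sg`, `St.see` and the lemmas on `St.le`, `St.lt`.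
-/

set_option autoImplicit false

namespace Pool.Agent.MPd439b2.X2

open Pool.Agent.MPd439b2 Pool.Agent.MPd439b2.W

section defs

variable {V : Type} {n : ℕ}

/-- the step between the rails `i` and `j` is a rung: same class, same order, interleaved -/
def Rung (S : St V n) (m : ℕ) (x : ℕ → ℕ → V) (κ : ℕ → Fin n) (e : ℕ → Bool) (i j : ℕ) : Prop :=
  κ i = κ j ∧ e i = e j ∧
    ∀ k l, k < l → l < m → S.le (e i) (x i k) (x j l) ∧ S.le (e i) (x j k) (x i l)

/-- a staircase step between the rails `i` and `j`: they form a half graph, and the corners of the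
staircase follow the orders `e i` and `e j` -/
def Stp (S : St V n) (m : ℕ) (x : ℕ → ℕ → V) (κ : ℕ → Fin n) (e : ℕ → Bool) (i j : ℕ) : Prop :=
  κ i ≠ κ j ∧ (e i = S.s (κ i) (κ j) ↔ ¬ e j = S.s (κ j) (κ i)) ∧
    ∀ k < m, ∀ l < m, k ≠ l → (S.G.Adj (x i k) (x j l) ↔ (k < l ↔ e i = S.s (κ i) (κ j)))

/-- **Closed bundles** of size `m` with `r` steps (rungs are allowed): the rail `x j` is in the class `κ j` and
increases in the order `e j`; the rails `0` and `r` are in the same class with the same order, and the rail `0`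
comes completely before the rail `r` -/
structure CB (S : St V n) (m r : ℕ) (x : ℕ → ℕ → V) (κ : ℕ → Fin n) (e : ℕ → Bool) : Prop where
  cls : ∀ j ≤ r, ∀ k < m, S.c (x j k) = κ j
  mono : ∀ j ≤ r, ∀ k l, k < l → l < m → S.lt (e j) (x j k) (x j l)
  step : ∀ j < r, Rung S m x κ e j (j + 1) ∨ Stp S m x κ e j (j + 1)
  k0 : κ 0 = κ r
  e0 : e 0 = e r
  clo : ∀ k < m, ∀ l < m, S.lt (e 0) (x 0 k) (x r l)

/-- **Homogeneous closed bundles** without rungs: for `k < l` the adjacency of `x i k` and `x j l` is `E i j` -/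
structure HB (S : St V n) (m r : ℕ) (x : ℕ → ℕ → V) (κ : ℕ → Fin n) (e : ℕ → Bool)
    (E : ℕ → ℕ → Prop) : Prop where
  cb : CB S m r x κ e
  stp : ∀ j < r, Stp S m x κ e j (j + 1)
  dis : ∀ i ≤ r, ∀ j ≤ r, ∀ k < m, ∀ l < m, k ≠ l → x i k ≠ x j l
  rel : ∀ i ≤ r, ∀ j ≤ r, ∀ k l, k < l → l < m → (S.G.Adj (x i k) (x j l) ↔ E i j)

end defs

/-- the pattern of a minimal closed bundle in a structure with all signs `true`: rails `x 0, .., x r`, `r ≥ 4` even,
`x i k` and `x j l` with `k < l` are adjacent iff `E i j`; consecutive rails form half graphs, all other pairs of rails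
are complete or anticomplete to each other, `x 0` and `x r` have the same type, and everything that sees
something of the rail `r` is complete to the rail `0` -/
structure PB {V : Type} (G : SimpleGraph V) (M r : ℕ) (x : ℕ → ℕ → V) (E : ℕ → ℕ → Prop) : Prop where
  ev : r % 2 = 0
  four : 4 ≤ r
  dis : ∀ i ≤ r, ∀ j ≤ r, ∀ k < M, ∀ l < M, k ≠ l → x i k ≠ x j l
  rel : ∀ i ≤ r, ∀ j ≤ r, ∀ k l, k < l → l < M → (G.Adj (x i k) (x j l) ↔ E i j)
  su : ∀ i < r, i % 2 = 0 → E i (i + 1) ∧ ¬ E (i + 1) i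
  sd : ∀ i < r, i % 2 = 1 → E (i + 1) i ∧ ¬ E i (i + 1)
  non : ∀ i j, i + 2 ≤ j → j ≤ r → (E i j ↔ E j i)
  ends : (E 0 r ↔ E 0 0) ∧ (E r r ↔ E 0 0)
  clo : ∀ j, 0 < j → j < r → E j r ∨ E r j → E j 0 ∧ E 0 j

/-- **A1.** The skeleton of `Pt S` is symmetric.

Proof. Copy `W/SymG.lean` (there for `sg D`).  `Pt.sg_le`: `sg` is antitone; `Pt.sg_sg`; `Pt.ch_sg`:
`a.sg.ch = b.sg.ch ↔ a.ch = b.ch`; `Pt.chainP`.  Hence `Cons ch univ x y` implies
`Cons ch univ y.sg x.sg`, and `Ess ch x y` implies `Ess ch y.sg x.sg` (substitute `z = sg z'`); so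
`Adj x y` implies `Adj x.sg y.sg`; the converse by `Pt.sg_sg`. -/
def S_SymP : Prop := ∀ (V : Type) (n : ℕ) (S : St V n) [Fintype (Pt S)] (x y : Pt S),
  (Gam (Pt.ch (S := S)) Finset.univ).Adj x.sg y.sg ↔ (Gam (Pt.ch (S := S)) Finset.univ).Adj x y

/-- **A2.** Few vertices have copies on both sides.

Proof. Let `a = ⟨v, true, false⟩`, `b = ⟨v, true, true⟩`.  `Ess ch a b`: `ch a ≠ ch b` (`Pt.ch_eq`, `o` differs);
`a ≤ b` (`Pt.le_def`, first alternative, `St.le_refl`); let `ch z = ch a`, `z ≤ b`: `S.c z.v = S.c v`, so the first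
alternative of `Pt.le_def` holds for `z ≤ b`, it gives `S.le z.e z.v v`, and with `z.e = true`, `z.o = false` this is
`z ≤ a`; in the same way `ch z = ch b`, `a ≤ z` give `b ≤ z`.  So `(Gam ch univ).Adj a b`.  For an exceptional `v`
let `p v = (a, b)` if `a ∈ Y` (then `b ∉ Y`) and `p v = (b, a)` otherwise (then `b ∈ Y`, `a ∉ Y`).  `p` is injective
and its values are in `{p ∈ Y ×ˢ Yᶜ | (Gam ch univ).Adj p.1 p.2}`, a set with `wt (ind _) Y Yᶜ` elements
(`Finset.card_filter`, `Finset.sum_product`, as in `W/Cross.lean`). -/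
def S_Exc : Prop := ∀ (V : Type) (n : ℕ) [Finite V] (S : St V n) [Fintype (Pt S)]
  [DecidableEq (Pt S)] (Y : Finset (Pt S)) (N : ℕ),
  wt (ind (Gam (Pt.ch (S := S)) Finset.univ)) Y Yᶜ ≤ N →
  {v : V | ¬ ((⟨v, true, false⟩ : Pt S) ∈ Y ↔ (⟨v, true, true⟩ : Pt S) ∈ Y)}.ncard ≤ N

/-- the bound for the number of types -/
def TB (n N : ℕ) : ℕ := n * (4 * n * (N + 2) ^ (4 * n)) ^ 2 * 2 ^ N + N

/-- **A3.** Few types (uses A2 and `W.S_Trace`).

Proof. `A = {v | ⟨v, true, false⟩ ∈ Y}`, `X` the exceptional set of A2, `|X| ≤ N`.  As `Y` is closed under `sg`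
(and `sg` is an involution) `⟨v, true, false⟩ ∈ Y ↔ ⟨v, false, true⟩ ∈ Y` and
`⟨v, true, true⟩ ∈ Y ↔ ⟨v, false, false⟩ ∈ Y`.  So for `v ∉ X` either all four copies of `v` are in `Y`
(`v ∈ A`) or none (`v ∉ A`).  Let `TT = {T | ∃ a ∈ Y, T = {b | b ∉ Y ∧ a ≤ b}}`; by `W.S_Trace` (for the `4 * n`
chains `Pt.ch`) `TT.ncard ≤ T := 4 * n * (N + 2) ^ (4 * n)`.  For `i : Fin n`, `P, Q : Set (Pt S)`, `R : Set V` let
`Φ i P Q R = {u | u ∉ A ∧ ((u ∈ X ∧ u ∈ R) ∨ (u ∉ X ∧ S.c u = i ∧ S.t i = true) ∨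
  (u ∉ X ∧ S.c u ≠ i ∧ ⟨u, !S.s (S.c u) i, true⟩ ∈ (if S.s i (S.c u) = true then P else Q)))}`.
CLAIM: for `v ∈ A \ X`: `S.G.neighborSet v \ A = Φ (S.c v) P Q R` with `P = {b | b ∉ Y ∧ ⟨v, true, false⟩ ≤ b}`,
`Q = {b | b ∉ Y ∧ ⟨v, false, false⟩ ≤ b}`, `R = S.G.neighborSet v ∩ X`.  Let `u ∉ A` (so `u ≠ v`).  `u ∈ X`: clear.
`u ∉ X`, `S.c u = S.c v`: `S.typ`.  `u ∉ X`, `S.c u ≠ S.c v`: all copies of `u` are outside `Y`, and by
`Pt.le_def` `⟨v, S.s (S.c v) (S.c u), false⟩ ≤ ⟨u, !S.s (S.c u) (S.c v), true⟩ ↔ S.G.Adj v u`.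
So the types of `A` are contained in the union of the image of `Fin n × TT × TT × 𝒫 X` under `Φ` and of the image
of `X` under `v ↦ neighborSet v \ A`: at most `n * T * T * 2 ^ |X| + |X|` sets. -/
def S_TypesZ : Prop := ∀ (V : Type) (n : ℕ) [Finite V] (S : St V n) [Fintype (Pt S)]
  [DecidableEq (Pt S)] (Y : Finset (Pt S)) (N : ℕ), (∀ a ∈ Y, a.sg ∈ Y) →
  wt (ind (Gam (Pt.ch (S := S)) Finset.univ)) Y Yᶜ ≤ N →
  (Types S.G {v : V | (⟨v, true, false⟩ : Pt S) ∈ Y}).encard ≤ (TB n N : ℕ)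

/-- **A4.** From a carving of the blocks to a layout (uses A3 and `W.S_Pre`).

Proof. Compare `W/CarvLay.lean`.  For `Z : Finset (Finset (Pt S))` let
`VZ Z = {v | blk Pt.sg ⟨v, true, false⟩ ∈ Z} = {v | ⟨v, true, false⟩ ∈ pre Pt.sg Z}`.  `pre Pt.sg Z` is closed
under `sg` (`blk sg (sg x) = blk sg x`).  We show `Lay S.G (TB n N + 1) (VZ Z)` by induction on
`Carv (WB Γ sg) N Z`, `Γ = Gam ch univ`.  `Z = ∅`: `VZ Z = ∅`.  `Z = {b}`: `VZ Z` has at most one element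
(`blk sg ⟨v, true, false⟩ = {⟨v, true, false⟩, ⟨v, false, true⟩}` determines `v`): `Lay.empty` or
`Lay.single'`.  `Z = A ∪ B`: `VZ Z = VZ A ∪ VZ B`, disjoint; `wt (WB Γ sg) Z Zᶜ ≤ N`, which is
`wt (ind Γ) (pre sg Z) (pre sg Z)ᶜ` by `W.S_Pre`; A3; `Lay.union`.  For `Z = univ`: `VZ Z = univ`. -/
def S_CarvL : Prop := ∀ (V : Type) (n : ℕ) [Finite V] (S : St V n) [Fintype (Pt S)]
  [DecidableEq (Pt S)] (N : ℕ), Carv (WB (Gam (Pt.ch (S := S)) Finset.univ) Pt.sg) N Finset.univ →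
  Lay S.G (TB n N + 1) Set.univ

/-- **A5.** From closed bundles of `Pt S` to closed bundles of `S`.

Proof. `x j k = (v j k).v`, `κ j = S.c (v j 0).v`, `e j = (v j 0).e`, `o j = (v j 0).o`.  By `Pt.ch_eq` all
`v j k` (`j ≤ r`, `k < m`) have class `κ j`, `(v j k).e = e j`, `(v j k).o = o j`.
`mono`: `v j k < v j l`; by `Pt.le_def` (the classes are equal) `S.le (e j) (x j k) (x j l)`, and
`x j k ≠ x j l` (otherwise `v j k = v j l` by `Pt.ext`); so `S.lt` (`St.lt_iff`, `St.eq_of_le`).  `clo` is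
the same: `χ 0 = χ r` says `κ 0 = κ r`, `e 0 = e r`, `o 0 = o r`.
`step`, the case `Step m (v j) (v (j + 1))`: so `v j 0 ≤ v (j + 1) 1`.
 First alternative of `Pt.le_def`: `κ j = κ (j + 1)`, `e j = e (j + 1)`; as `χ j ≠ χ (j + 1)`, `o j ≠ o (j + 1)`, and
(`o j = false ∨ o (j + 1) = true`) `o j = false`, `o (j + 1) = true`.  Rung: let `k < l < m`.  `v j k ≤ v (j + 1) l`
gives `S.le (e j) (x j k) (x (j + 1) l)`.  Not `v j l ≤ v (j + 1) k`; so not `S.le (e j) (x j l) (x (j + 1) k)`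
(otherwise the first alternative of `Pt.le_def` holds), so `S.le (e j) (x (j + 1) k) (x j l)` by `St.le_total`.
 Second alternative: `κ j ≠ κ (j + 1)`, `o j = false`, `o (j + 1) = true`, `e j = S.s (κ j) (κ (j + 1))`,
`e (j + 1) = !S.s (κ (j + 1)) (κ j)`.  So for all `k, l < m`: `v j k ≤ v (j + 1) l ↔ S.G.Adj (x j k) (x (j + 1) l)`,
and `Step` gives `Adj ↔ k < l` for `k ≠ l`; `Stp`.
The case `Step m (v (j + 1)) (v j)` is symmetric: rung: for `k < l`, `v (j + 1) k ≤ v j l` and not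
`v (j + 1) l ≤ v j k`; staircase: `e (j + 1) = S.s (κ (j + 1)) (κ j)`, `e j = !S.s (κ j) (κ (j + 1))`,
`Adj (x j k) (x (j + 1) l) ↔ v (j + 1) l ≤ v j k ↔ l < k` for `k ≠ l`. -/
def S_Conv : Prop := ∀ (V : Type) (n : ℕ) (S : St V n) (m r : ℕ) (v : ℕ → ℕ → Pt S)
  (χ : ℕ → Fin (4 * n)), 2 ≤ m → Bun m r v → (∀ j ≤ r, ∀ k < m, (v j k).ch = χ j) →
  (∀ j < r, χ j ≠ χ (j + 1)) → χ 0 = χ r → (∀ k < m, ∀ l < m, v 0 k < v r l) →
  ∃ (x : ℕ → ℕ → V) (κ : ℕ → Fin n) (e : ℕ → Bool), CB S m r x κ e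

/-- **A6.** Carvings or closed bundles (uses A1, A5, `S_BundleS`, and `W.S_Carve`, `W.S_Deg`, `W.S_Pre`,
`W.S_Bad2`).

Proof. Compare `W/BW.lean` (proof of `W.S_BW`), part (II).  `n' = 4 * n`; `N₁` the number of `S_BundleS` for
`n'`, `q = 64 * n'`, `f`; `N = 4 * n' + 8 * n' * N₁`.  `V` finite, so `Pt S` is finite.  `Γ = Gam ch univ`,
`σ = Pt.sg`.  `W.S_Carve` for `WB Γ σ`, `Δ = 4 * n'`, `N`: symmetry is clear;
`wt (WB Γ σ) {b} {b}ᶜ = wt (ind Γ) (pre σ {b}) (pre σ {b})ᶜ ≤ 4 * n'` by `W.S_Pre` and `W.S_Deg`, as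
`pre σ {b}` has at most two elements (`b = {x, σ x}` if `x ∈ pre σ {b}`).  Either a carving, or
`Bad (WB Γ σ) (4 * n') N Z`: `W.S_Bad2` with `d = 2 * n'` (`W.S_Deg`), `b = 4 * n'` (A1 for the symmetry) gives
`U, S₁` with `4 * n' + 8 * n' * N₁ = N < 4 * n' + 8 * n' * |S₁|`, so `N₁ ≤ |S₁|`, and
`WL ch U S₁ (4 * n') (64 * n')`: for `Y ⊆ U` `wt (ind Γ) Y (U \ Y) ≤ wt (ind (Gam ch U)) Y (U \ Y)`, because
`Γ.Adj x y` with `x, y ∈ U` implies `(Gam ch U).Adj x y`.  `S_BundleS` and A5. -/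
def S_CBOr : Prop := ∀ (n : ℕ) (f : ℕ → ℕ), (∀ r, 2 ≤ f r) → ∃ N : ℕ, ∀ (V : Type) [Finite V]
  (S : St V n) [Fintype (Pt S)] [DecidableEq (Pt S)],
  Carv (WB (Gam (Pt.ch (S := S)) Finset.univ) Pt.sg) N Finset.univ ∨
    ∃ (r : ℕ) (x : ℕ → ℕ → V) (κ : ℕ → Fin n) (e : ℕ → Bool), CB S (f r) r x κ e

/-- **A7.** Composition of a rung with a step.

Proof. Write `a = x i`, `b = x j`, `d = x l`, `ε = e i = e j`, `x' p k = x p (3 * k + 1)`.  `Rung i j` gives, for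
`k < k' < 3 * m`, `a k ≤ b k'` and `b k ≤ a k'` (in the order `ε`).
(1) `Rung j l`: for `k < k' < m`: `a (3k+1) ≤ b (3k+2) ≤ d (3k'+1)` and `d (3k+1) ≤ b (3k+2) ≤ a (3k'+1)`, as
`3k + 2 < 3k' + 1 < 3 * m`.  So `Rung i l` for `x'`.
(2) `Stp j l`: `κ i = κ j`, so the first two conditions are clear.  Let `k, k' < m`, `k ≠ k'`,
`s = S.s (κ j) (κ l)`.  Suppose `ε = s`.  `k < k'`: `b (3k+2)` is adjacent to `d (3k'+1)`, `a (3k+1) ≤ b (3k+2)`,
so by `St.see` `a (3k+1)` is adjacent to `d (3k'+1)`.  `k' < k`: if `a (3k+1)` is adjacent to `d (3k'+1)` then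
so is `b (3k) ≤ a (3k+1)`, but `3k > 3k' + 1`: contradiction to `Stp j l`.  Suppose `ε ≠ s`, so `s = !ε`, and
`St.le_not`: `k' < k`: `b (3k)` is adjacent to `d (3k'+1)` and `a (3k+1)` comes before `b (3k)` in the order
`s`: adjacent by `St.see`.  `k < k'`: if `a (3k+1)` is adjacent to `d (3k'+1)` then so is `b (3k+2)` (it comes
before `a (3k+1)` in the order `s`), contradiction. -/
def S_Comp : Prop := ∀ (V : Type) (n : ℕ) (S : St V n) (m : ℕ) (x : ℕ → ℕ → V) (κ : ℕ → Fin n)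
  (e : ℕ → Bool) (i j l : ℕ), (∀ k < 3 * m, S.c (x i k) = κ i ∧ S.c (x j k) = κ j ∧ S.c (x l k) = κ l) →
  Rung S (3 * m) x κ e i j → Rung S (3 * m) x κ e j l ∨ Stp S (3 * m) x κ e j l →
  Rung S m (fun p k => x p (3 * k + 1)) κ e i l ∨ Stp S m (fun p k => x p (3 * k + 1)) κ e i l

/-- **A8.** Removing the rungs (uses A7).

Proof. First: `Rung` and `Stp` are symmetric in `i, j` (for `Stp`: `Adj (x j l) (x i k) ↔ Adj (x i k) (x j l)`, and
by the second condition `e i = S.s (κ i) (κ j)` and `e j = S.s (κ j) (κ i)` have different truth values), and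
preserved when `x` is replaced by `x' p k = x p (φ k)` with `φ` strictly increasing and `φ k < 3 * m` for `k < m`.
(R) One rung: let `CB S (3 * m) (r + 1) x κ e`, `1 ≤ m`, `Rung S (3 * m) x κ e j (j + 1)`, `j ≤ r`.  Then there is
`CB S m r x' κ' e'`.  Case `j < r`: delete the rail `j + 1`: `g i = i` for `i ≤ j`, `g i = i + 1` for `i > j`;
`x' i k = x (g i) (3 * k + 1)`, `κ' i = κ (g i)`, `e' i = e (g i)`.  The steps `i ≠ j` are old steps, the step `j`
is A7 for the rails `j, j + 1, j + 2`.  `g 0 = 0`, `g r = r + 1`.  Case `j = r ≥ 1`: delete the rail `r`: `g i = i` for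
`i < r`, `g r = r + 1`; the step `r - 1` is A7 for the rails `r + 1, r, r - 1` (symmetry).  Case `j = r = 0`: `clo` says
`S.lt (e 0) (x 0 1) (x 1 0)`, the rung says `S.le (e 0) (x 1 0) (x 0 1)` (`0 < 1 < 3 * m`): contradiction
(`St.lt_iff`).
Induction on `r` for the claim: `r = 0`: nothing to do (`3 ^ 0 * m = m`, no steps).  `r + 1`: if no step is a
rung, all steps are `Stp`; restrict to the size `m ≤ 3 ^ (r + 1) * m`.  Otherwise (R) with `3 ^ r * m` in the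
place of `m`, and induction. -/
def S_NoRung : Prop := ∀ (V : Type) (n : ℕ) (S : St V n) (m r : ℕ) (x : ℕ → ℕ → V)
  (κ : ℕ → Fin n) (e : ℕ → Bool), 1 ≤ m → CB S (3 ^ r * m) r x κ e →
  ∃ r' ≤ r, ∃ (x' : ℕ → ℕ → V) (κ' : ℕ → Fin n) (e' : ℕ → Bool), CB S m r' x' κ' e' ∧
    ∀ j < r', Stp S m x' κ' e' j (j + 1)

/-- **A9.** Homogeneous bundles (uses Ramsey's theorem `W.S_RamC`).

Proof. `m = max M 4`, `M'` the number of `W.S_RamC` for `m` and the colours
`Fin (r + 1) × Fin (r + 1) → Prop × Prop` (a finite type; or `Bool × Bool`); the colour of `(k, l)` is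
`(i, j) ↦ (S.G.Adj (x i k) (x j l), x i k = x j l)`.  We get `s : ℕ → ℕ`, strictly increasing on `{0, .., m - 1}`,
values `< M'`; `x' i k = x i (s k)`.  `E i j` is the first component of the common colour.  The second component
is false: otherwise `x i (s 0) = x j (s 1) = ..`: `x i (s 0) = x j (s 2)` as well, so `x j (s 1) = x j (s 2)`,
contradicting `mono` (`St.ne_of_lt`).  `dis` for `k < l` follows, for `l < k` exchange the roles of `i, j`.
`CB` and `Stp` are preserved by the strictly increasing `s`; restrict the size to `M`. -/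
def S_HomB : Prop := ∀ r M : ℕ, ∃ M' : ℕ, ∀ (V : Type) (n : ℕ) (S : St V n) (x : ℕ → ℕ → V)
  (κ : ℕ → Fin n) (e : ℕ → Bool), CB S M' r x κ e → (∀ j < r, Stp S M' x κ e j (j + 1)) →
  ∃ (x' : ℕ → ℕ → V) (E : ℕ → ℕ → Prop), HB S M r x' κ e E

/-- **A10.** Shortcuts.

Proof. `d = j - i - 1 ≥ 1`, `g p = p` for `p ≤ i` and `g p = p + d` for `p > i`; `r' = r - d`;
`x' p = x (g p)`, `κ' p = κ (g p)`, `e' p = e (g p)`, `E' p q = E (g p) (g q)`.  `g (i + 1) = j`.  The step `i` is the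
hypothesis, the other steps are old ones: `g (p + 1) = g p + 1` for `p ≠ i`.  `g 0 = 0`; `g r' = r`: if `r' > i`
clear; `r' ≤ i` would mean `r ≤ i + d = j - 1 < r`, impossible.  All fields of `HB` follow. -/
def S_Cut : Prop := ∀ (V : Type) (n : ℕ) (S : St V n) (M r : ℕ) (x : ℕ → ℕ → V)
  (κ : ℕ → Fin n) (e : ℕ → Bool) (E : ℕ → ℕ → Prop) (i j : ℕ), HB S M r x κ e E → i + 2 ≤ j →
  j ≤ r → Stp S M x κ e i j →
  ∃ r' < r, ∃ (x' : ℕ → ℕ → V) (κ' : ℕ → Fin n) (e' : ℕ → Bool) (E' : ℕ → ℕ → Prop),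
    HB S M r' x' κ' e' E'

/-- **A11. The bounded width theorem for staircase structures** (uses A4, A6, A8, A9, A10).

Proof. Let `h r` be the number of A9 for `(r, M + 2)`, `f r = 3 ^ r * (2 + ∑ r' ∈ range (r + 1), h r')`, so `2 ≤ f r`.
`N₀` the number of A6 for `n, f`; `N = TB n N₀ + 1`.  Given `S` choose (classical) instances `Fintype (Pt S)`,
`DecidableEq (Pt S)`.  A6: a carving gives the layout by A4.  Otherwise `CB S (f r) r x κ e`; A8 with
`m = 2 + ∑ ..` gives `r' ≤ r` and `CB S m r' x' κ' e'` without rungs; restrict it to the size `h r' ≤ m`; A9 gives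
`HB S (M + 2) r' ..`.  So the set of the numbers `r` for which there is `HB S (M + 2) r x κ e E` is not empty; take
the smallest one (`Nat.find`).  By A10 there are no shortcuts `Stp S (M + 2) x κ e i j`, `i + 2 ≤ j ≤ r`.
`r ≠ 0` by `clo` (`St.ne_of_lt` for `x 0 0`, `x 0 0`), `r ≠ 1` as `κ 0 = κ 1` contradicts `Stp`. -/
def S_Main : Prop := ∀ n M : ℕ, ∃ N : ℕ, ∀ (V : Type) [Finite V] (S : St V n),
  Lay S.G N Set.univ ∨ ∃ (r : ℕ) (x : ℕ → ℕ → V) (κ : ℕ → Fin n) (e : ℕ → Bool) (E : ℕ → ℕ → Prop),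
    HB S (M + 2) r x κ e E ∧ 2 ≤ r ∧ ∀ i j, i + 2 ≤ j → j ≤ r → ¬ Stp S (M + 2) x κ e i j

/-- **A12.** Without shortcuts all other pairs of rails are homogeneous.

Proof. `κ i = κ j`: for `k ≠ l` `x i k ≠ x j l` (`dis`), so by `S.typ` both `E i j` and `E j i` are
`S.t (κ i) = true`.  Let `κ i ≠ κ j`, `s = S.s (κ i) (κ j)`, `s' = S.s (κ j) (κ i)`.  By `mono` and `St.see`:
(i) if `e i = s`: for `k < k'`, if `x i k'` sees `y` (in the class `κ j`) then `x i k` sees `y`; if `e i ≠ s` (so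
`s = !e i`, `St.le_not`): if `x i k` sees `y` then `x i k'` sees `y`; the same for `j`.
Case `e i = s`, `e j = s'`: if `E i j`: `x i 1` sees `x j 2`, so `x i 1` sees `x j 0`, so `E j i` (`0 < 1`).
If `E j i`: `x j 1` sees `x i 2`, so `x j 1` sees `x i 0`, so `E i j`.
Case `e i ≠ s`, `e j ≠ s'`: if `E i j`: `x i 0` sees `x j 1`, so `x i 2` sees `x j 1`, so `E j i`.
If `E j i`: `x j 0` sees `x i 1`, so `x j 2` sees `x i 1`: `E i j`.
Case `e i = s`, `e j ≠ s'`: if `E j i`: `x j 0` sees `x i 1`, so `x j 2` sees `x i 1`, so `E i j`.  If `E i j` and not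
`E j i` then `Stp S M x κ e i j`: for `k < l` adjacent by `E i j`, for `l < k` not adjacent by `¬ E j i`:
contradiction.
Case `e i ≠ s`, `e j = s'`: if `E i j`: `x i 0` sees `x j 1`, so `x i 2` sees `x j 1`, so `E j i`.  If `E j i` and not
`E i j`: `Stp S M x κ e i j`: `Adj (x i k) (x j l) ↔ l < k ↔ (k < l ↔ False)` for `k ≠ l`: contradiction. -/
def S_Non : Prop := ∀ (V : Type) (n : ℕ) (S : St V n) (M r : ℕ) (x : ℕ → ℕ → V)
  (κ : ℕ → Fin n) (e : ℕ → Bool) (E : ℕ → ℕ → Prop) (i j : ℕ), 3 ≤ M → HB S M r x κ e E →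
  i ≤ r → j ≤ r → i ≠ j → ¬ Stp S M x κ e i j → (E i j ↔ E j i)

/-- **A13.** The closure.

Proof. (1) As in A12, with `S.typ`.  (2) Let `e 0 = S.s (κ 0) (κ j)`.  By `clo` and `St.see`: if `x r l` sees `y` in
the class `κ j` then every `x 0 k` sees `y` (`κ 0 = κ r`).  `E j r`: `x j 0` sees `x r 1`, so `x j 0` sees all `x 0 k`,
so `E j 0`; `x j 1` sees `x r 2`, so `x j 1` sees `x 0 0`, so `E 0 j`.  `E r j`: `x r 0` sees `x j 1`, so `x 0 0` and
`x 0 2` see `x j 1`: `E 0 j`, `E j 0`.  (3) Let `e 0 ≠ S.s (κ 0) (κ j)`, so it is `!e 0`; now `x r l` comes before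
`x 0 k` in the order `S.s (κ 0) (κ j)`; exchange the roles of `0` and `r`. -/
def S_Clo : Prop := ∀ (V : Type) (n : ℕ) (S : St V n) (M r : ℕ) (x : ℕ → ℕ → V)
  (κ : ℕ → Fin n) (e : ℕ → Bool) (E : ℕ → ℕ → Prop) (j : ℕ), 3 ≤ M → HB S M r x κ e E → j ≤ r →
  (κ j = κ 0 → (E j 0 ↔ S.t (κ 0) = true) ∧ (E 0 j ↔ S.t (κ 0) = true) ∧
    (E j r ↔ S.t (κ 0) = true) ∧ (E r j ↔ S.t (κ 0) = true)) ∧
  (κ j ≠ κ 0 → e 0 = S.s (κ 0) (κ j) → E j r ∨ E r j → E j 0 ∧ E 0 j) ∧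
  (κ j ≠ κ 0 → e 0 ≠ S.s (κ 0) (κ j) → E j 0 ∨ E 0 j → E j r ∧ E r j)

/-- **A14.** The patterns of the structures with all signs `true` (uses A12, A13).

Proof. `Stp` with `s = true` says `e j = true ↔ ¬ e (j + 1) = true`; so `e j` alternates, and `e 0 = e r` shows that
`r` is even.
CASE `e 0 = true`: `e j = true ↔ j % 2 = 0`.  `Stp` for `j` even: `Adj (x j k) (x (j + 1) l) ↔ k < l`, so
`E j (j + 1)` (`k = 0, l = 1`) and `¬ E (j + 1) j` (`Adj (x (j + 1) 0) (x j 1) ↔ Adj (x j 1) (x (j + 1) 0)`);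
for `j` odd: `Adj (x j k) (x (j + 1) l) ↔ l < k`, so `E (j + 1) j`, `¬ E j (j + 1)`.  `non`: A12.  `ends`:
A13 (`j = r`, and `j = 0`; `κ r = κ 0`).  `clo`: A13: if `κ j = κ 0` all are `S.t (κ 0) = true`, otherwise the
second part.  `r ≥ 4`: `r ≥ 2` is even; if `r = 2` then `E 2 1` (`1` odd), so `E 1 0` by `clo`, but `¬ E 1 0`.
CASE `e 0 = false`: the same for `x' j k = x (r - j) (M - 1 - k)`, `E' i j = E (r - j) (r - i)`: `rel`: for
`k < l < M` `M - 1 - l < M - 1 - k`.  `su`: `i` even, `j = r - i - 1` is odd and `e j = true`, so `E j (j + 1)`,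
`¬ E (j + 1) j`, i.e. `E' i (i + 1)`, `¬ E' (i + 1) i`.  `sd`: the same.  `clo`: `E' j r = E 0 (r - j)`,
`E' r j = E (r - j) 0`, `E' j 0 = E r (r - j)`, `E' 0 j = E (r - j) r`: the third part of A13. -/
def S_Plus : Prop := ∀ (V : Type) (n : ℕ) (S : St V n) (M r : ℕ) (x : ℕ → ℕ → V)
  (κ : ℕ → Fin n) (e : ℕ → Bool) (E : ℕ → ℕ → Prop), 3 ≤ M → HB S M r x κ e E → 2 ≤ r →
  (∀ i j, S.s i j = true) → (∀ i j, i + 2 ≤ j → j ≤ r → ¬ Stp S M x κ e i j) →
  ∃ (x' : ℕ → ℕ → V) (E' : ℕ → ℕ → Prop), PB S.G M r x' E'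

/-! ### the vicinal preorder -/

/-- a matching of size `m` between `a` and `b` -/
def MatP {V : Type} (G : SimpleGraph V) (m : ℕ) : Prop := ∃ a b : ℕ → V, ∀ i < m, ∀ j < m,
  a i ≠ b j ∧ (i ≠ j → a i ≠ a j ∧ b i ≠ b j) ∧ (G.Adj (a i) (b j) ↔ i = j)

/-- a co-matching of size `m` between `a` and `b` -/
def ComP {V : Type} (G : SimpleGraph V) (m : ℕ) : Prop := ∃ a b : ℕ → V, ∀ i < m, ∀ j < m,
  a i ≠ b j ∧ (i ≠ j → a i ≠ a j ∧ b i ≠ b j) ∧ (G.Adj (a i) (b j) ↔ i ≠ j)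

/-- two opposite half graphs of size `m` with the same centre `x` -/
def OppP {V : Type} (G : SimpleGraph V) (m : ℕ) : Prop := ∃ x u w : ℕ → V, ∀ i < m, ∀ j < m,
  x i ≠ u j ∧ x i ≠ w j ∧ u i ≠ w j ∧ (i ≠ j → x i ≠ x j ∧ u i ≠ u j ∧ w i ≠ w j) ∧
  (G.Adj (u i) (x j) ↔ j ≤ i) ∧ (G.Adj (w i) (x j) ↔ i ≤ j)

/-- **B1.** Ramsey's theorem for triples (uses `W.S_RamC`).

Proof. (Erdos and Rado.)  Let `q = Nat.card κ`.  CLAIM: for every `t` there is `N t` such that for every `χ` and every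
finite set `A` of natural numbers with at least `N t` elements there are `x 0 < .. < x (t - 1)` in `A` such that
`χ (x i) (x j) (x k)` depends only on `i, j` for `i < j < k < t`.  More generally, we choose the elements
one by one: let `F s` (for `s ≤ t`) be the statement: for every `χ`, every increasing `x 0 < .. < x (s - 1)` and
every finite set `A` of numbers larger than all of these with `|A| ≥ R (t - s)`, where `R 0 = 0`,
`R (d + 1) = q ^ t * R d + 1` (`q ≥ 1`), such that `χ (x i) (x j) a` does not depend on `a ∈ A` for `i < j < s`, there is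
an extension `x s < .. < x (t - 1)` in `A` such that `χ (x i) (x j) (x k)` depends only on `i < j` for `j < k < t`.
`F t` is clear.  `F (s + 1)` implies `F s`: let `x s` be the smallest element of `A`, and by pigeonhole `A'` a
subset of the rest with `|A'| ≥ R (t - s - 1)` on which the function `a ↦ (χ (x i) (x s) a)_(i < s)` is constant
(at most `q ^ s ≤ q ^ t` values).  Then `W.S_RamC` for the colouring `(i, j) ↦` the common value
`χ (x i) (x j) (x k)`, `k > j` (with `t` = number of `W.S_RamC` for `m`, plus one): a subsequence of length `m` on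
which it is constant. -/
def S_Ram3 : Prop := ∀ (κ : Type) [Finite κ] (m : ℕ), ∃ N : ℕ, ∀ χ : ℕ → ℕ → ℕ → κ,
  ∃ (s : ℕ → ℕ) (c : κ), (∀ k l, k < l → l < m → s k < s l) ∧ (∀ k < m, s k < N) ∧
    ∀ i j k, i < j → j < k → k < m → χ (s i) (s j) (s k) = c

/-- **B2.** Large antichains of the vicinal preorder (uses B1).

Proof. Let `M` be the number of B1 for `m₁ = 6 * m + 9` and the colours below.  Let `x 0, .., x (M - 1)` be the given
vertices (different, as `x k = x l` contradicts `¬ N(x k) ⊆ N[x l]`).  For `k ≠ l` there is `y k l` adjacent to `x k`,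
not adjacent to `x l` and `≠ x l`.  For `i < j` let `u i j = y i j` (sees `x i`, misses `x j`) and `w i j = y j i` (sees
`x j`, misses `x i`).  The colour of `i < j < k`: the truth values of
`u i j ~ x k`, `u i k ~ x j`, `u j k ~ x i`, `w i j ~ x k`, `w i k ~ x j`, `w j k ~ x i`, and of the equalities
`u i j = x k`, `u i k = x j`, `u j k = x i` and the same for `w`.  After B1 (rename `x (s i)` to `x i`, etc.) all these
are constant; the equalities are false (`u 0 1 = x 2 = x 3`; `u 0 3 = x 1 = x 2`; `u 2 3 = x 0 = x 1` are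
impossible).  So with `c₃ = (u i j ~ x k)` (after), `c₂ = (u i k ~ x j)` (between), `c₁ = (u j k ~ x i)` (before), and
`d₃, d₂, d₁` for `w`, and `n = 6 * m + 9` vertices:
`c₁ = 0, c₃ = 0`: `a i = x (2 i)`, `b i = u (2 i) (2 i + 1)`: `b i` sees `x (2 j)` iff `i = j`: `MatP`.
`c₁ = 0, c₃ = 1, c₂ = 0`: `J = n - 1`, `a i = x i`, `b i = u i J` (`i < m`): `b i` sees `x i`, not `x k` for `i < k < J`
and not `x k`, `k < i`: `MatP`.
`c₂ = 1, c₃ = 1`: `a i = x (i + 1)`, `b i = u 0 (i + 1)`: sees `x k` for `0 < k`, `k ≠ i + 1`, misses `x (i + 1)`: `ComP`.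
`c₁ = 1, c₂ = 0, c₃ = 1`: `a i = x (2 i + 1)`, `b i = u (2 i) (2 i + 1)`: sees `x k` for `k ≤ 2 i` and for
`k > 2 i + 1`, misses `x (2 i + 1)`: `ComP`.
In all other cases `c₁ = 1` and `c₃ = 0`: `u k (k + 1)` sees `x l` iff `l ≤ k`.
Reversal (`x' i = x (n - 1 - i)`, `u' i j = w (n - 1 - j) (n - 1 - i)`) shows: `MatP`, `ComP`, or `d₃ = 1`, `d₁ = 0`:
`w k (k + 1)` sees `x l` iff `k + 1 ≤ l`.
In the last case let `x' i = x (3 i + 4)`, `u' i = u (3 i + 4) (3 i + 5)`, `w' i = w (3 i + 3) (3 i + 4)`, `i < m`: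
`u' i` sees `x' j` iff `j ≤ i`, `w' i` sees `x' j` iff `i ≤ j`.  `x' i ≠ u' j`: `u' j` misses `x (3 j + 5)`,
sees `x (3 j + 4)` and all earlier ones; the equality `x (3 i + 4) = u (3 j + 4) (3 j + 5)` is excluded by the
colours (if `i ≠ j`) and by `u ~ x (3 j + 4)` (if `i = j`); the same for `w'`.  `u' i ≠ w' j`: `u' i` sees `x 0`, and `w' j`
does not.  `u' i ≠ u' j` for `i < j`: `u' j` sees `x' j`, `u' i` does not; the same for `w'` and `x'`.  So `OppP`.  (In `MatP`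
and `ComP` the vertices `b i` are different because they see different sets of the `a j` if `m ≥ 2`, in the case of
`MatP` also for `m ≤ 1` nothing is to be shown; `a i ≠ b j` by the colours as above: all pairs used consist of
different indices, or of adjacent or separated vertices; for `ComP`: `b i` misses `a i`, and `b i ≠ a i` by the choice
of `y k l`.) -/
def S_Anti : Prop := ∀ m : ℕ, ∃ M : ℕ, ∀ (V : Type) (G : SimpleGraph V) (x : ℕ → V),
  (∀ k < M, ∀ l < M, k ≠ l → ¬ G.neighborSet (x k) ⊆ insert (x l) (G.neighborSet (x l))) →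
  MatP G m ∨ ComP G m ∨ OppP G m

/-- **B3.** Bounded Dilworth number gives a staircase structure (uses `W.S_Dil`).

Proof. Write `x ≼ y` for `N(x) ⊆ N[y]` (`G.neighborSet x ⊆ insert y (G.neighborSet y)`).  It is reflexive and
transitive: `N(x) ⊆ N[y]`, `N(y) ⊆ N[z]`, `a ∈ N(x)`: if `a ≠ y` then `a ∈ N(y) ⊆ N[z]`; if `a = y`: `x ∈ N(y) ⊆ N[z]`; if
`x = z` then `a ∈ N(x) ⊆ N[z]`; otherwise `z ∈ N(x) ⊆ N[y]`, so `z = y` or `y ∈ N(z)`: `a = y ∈ N[z]`.
Choose an injection `ι : V → ℕ`; `x ≤' y` iff `x ≼ y` and (not `y ≼ x`, or `ι x ≤ ι y`): a partial order (on a type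
synonym of `V`); `x`, `y` are incomparable for `≤'` iff neither `x ≼ y` nor `y ≼ x`.  So `WidP` with `w`, and
`W.S_Dil` gives `c₀ : V → Fin w` whose classes are chains of `≤'`.  Let `K = {x | ∃ y, c₀ y = c₀ x ∧ y <' x ∧ Adj x y}`.
(1) `x, x' ∈ K`, `c₀ x = c₀ x'`, `x <' x'`: let `y <' x` be adjacent to `x`; `y ≼ x'`, so `x ∈ N(y) ⊆ N[x']`, and
`x ≠ x'`: adjacent.  (2) `x, x' ∉ K`, `c₀ x = c₀ x'`, `x <' x'`: not adjacent (otherwise `x' ∈ K`).
`S.c x = ⟨2 * c₀ x + (1 if x ∈ K else 0), _⟩ : Fin (2 * w)`, `S.ρ x` = the number of the `z` with `c₀ z = c₀ x`,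
`x <' z`, `S.s = true`, `S.t i = (i.val % 2 = 1)`.  `inj`: in a class of `c₀` with `x <' y` we have `ρ y < ρ x` (`y`
is counted for `x`).  `typ`: (1), (2).  `dn`: `ρ x < ρ x'`, same class, so `x' <' x` (comparable, different, and
`x <' x'` would give `ρ x' < ρ x`), so `N(x') ⊆ N[x]`; `y` in another class is `≠ x`, so `Adj x' y` gives `Adj x y`.
`up`: `s = false` is impossible. -/
def S_VicSt : Prop := ∀ (V : Type) [Finite V] (G : SimpleGraph V) (w : ℕ),
  (∀ A : Finset V, (∀ x ∈ A, ∀ y ∈ A, x ≠ y →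
    ¬ G.neighborSet x ⊆ insert y (G.neighborSet y)) → A.card ≤ w) →
  ∃ S : St V (2 * w), S.G = G ∧ ∀ i j, S.s i j = true

/-- **B4. The bounded width theorem for graphs without large matchings, co-matchings, and opposite half
graphs at a common centre** (uses A11, A14, B2, B3).

Proof. `w` = the number `M` of B2 for `m`; `N` = the number of A11 for `2 * w` and `M + 1` (so bundles have size
`M + 3 ≥ 3`; restrict at the end to the size `M`, or take `M` there as `M + 1` and restrict `PB` to a smaller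
size; `PB` of size `M'` gives `PB` of every smaller size).  If there is a finite set `A` of pairwise incomparable
vertices with more than `w` elements enumerate `w` of them as `x 0, .., x (w - 1)` and apply B2.  Otherwise B3, A11,
A14. -/
def S_Vic : Prop := ∀ m M : ℕ, ∃ N : ℕ, ∀ (V : Type) [Finite V] (G : SimpleGraph V),
  MatP G m ∨ ComP G m ∨ OppP G m ∨ Lay G N Set.univ ∨
    ∃ (r : ℕ) (x : ℕ → ℕ → V) (E : ℕ → ℕ → Prop), PB G M r x E

end Pool.Agent.MPd439b2.X2
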