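import Pool.Agent.Lib.MP_d439b2_co.X2.SpecA

/-!
# MP_d439b2_co, X2: VicSt, bounded Dilworth number gives a staircase structure
-/

set_option autoImplicit false

namespace Pool.Agent.MPd439b2.X2

open Pool.Agent.MPd439b2 Pool.Agent.MPd439b2.W

namespace VicStP

variable {V : Type} (G : SimpleGraph V)

/-- the vicinal preorder -/
def pre (x y : V) : Prop := G.neighborSet x ⊆ insert y (G.neighborSet y)

theorem pre_refl (x : V) : pre G x x := Set.subset_insert _ _

variable {G} in
theorem pre_trans {x y z : V} (h : pre G x y) (h' : pre G y z) : pre G x z := by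
  intro a ha
  rcases h ha with h1 | h1
  · -- `a = y`
    rw [h1] at ha
    have hxy : G.Adj x y := ha
    by_cases hxz : x = z
    · right
      rw [h1, ← hxz]
      exact hxy
    · rcases h' (show x ∈ G.neighborSet y from hxy.symm) with h2 | h2
      · exact absurd h2 hxz
      · have hzx : G.Adj z x := h2
        rcases h (show z ∈ G.neighborSet x from hzx.symm) with h3 | h3
        · left
          rw [h1, h3]
        · right
          rw [h1]
          have h4 : G.Adj y z := h3
          exact h4.symm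
  · exact h' h1

/-- the partial order -/
def le' (ι : V → ℕ) (x y : V) : Prop := pre G x y ∧ (¬ pre G y x ∨ ι x ≤ ι y)

/-- the partial order defined by the vicinal preorder and an injection -/
@[reducible] def po (ι : V → ℕ) (hι : Function.Injective ι) : PartialOrder V where
  le := le' G ι
  le_refl x := ⟨pre_refl G x, Or.inr le_rfl⟩
  le_trans x y z h h' := by
    refine ⟨pre_trans h.1 h'.1, ?_⟩
    by_cases hz : pre G z x
    · right
      have h1 : pre G y x := pre_trans h'.1 hz
      have h2 : pre G z y := pre_trans hz h.1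
      have h3 := h.2.resolve_left (fun h => h h1)
      have h4 := h'.2.resolve_left (fun h => h h2)
      exact h3.trans h4
    · exact Or.inl hz
  le_antisymm x y h h' := by
    have h3 := h.2.resolve_left (fun h => h h'.1)
    have h4 := h'.2.resolve_left (fun h' => h' h.1)
    exact hι (le_antisymm h3 h4)

end VicStP

open VicStP in
theorem vicSt (h : W.S_Dil) : S_VicSt := by
  classical
  intro V _ G w hw
  obtain ⟨N, ⟨f⟩⟩ := Finite.exists_equiv_fin V
  obtain ⟨ι, hι⟩ : ∃ ι : V → ℕ, Function.Injective ι :=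
    ⟨fun x => (f x).val, fun x y hxy => f.injective (Fin.ext hxy)⟩
  let _inst : PartialOrder V := po G ι hι
  have hle : ∀ x y : V, x ≤ y ↔ pre G x y ∧ (¬ pre G y x ∨ ι x ≤ ι y) := fun x y => Iff.rfl
  have hwid : WidP V w := by
    intro A hA
    refine hw A fun x hx y hy hxy hp => ?_
    by_cases hq : pre G y x
    · rcases Nat.le_total (ι x) (ι y) with h1 | h1
      · exact hxy (hA x hx y hy ((hle x y).2 ⟨hp, Or.inr h1⟩))
      · exact hxy (hA y hy x hx ((hle y x).2 ⟨hq, Or.inr h1⟩)).symm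
    · exact hxy (hA x hx y hy ((hle x y).2 ⟨hp, Or.inl hq⟩))
  obtain ⟨c₀, hc₀⟩ := h w V hwid
  obtain ⟨K, hK⟩ : ∃ K : Set V, ∀ x, x ∈ K ↔ ∃ y, c₀ y = c₀ x ∧ y < x ∧ G.Adj x y :=
    ⟨{x | ∃ y, c₀ y = c₀ x ∧ y < x ∧ G.Adj x y}, fun x => Iff.rfl⟩
  obtain ⟨ρ, hρ⟩ : ∃ ρ : V → ℕ, ∀ x, ρ x = {z | c₀ z = c₀ x ∧ x < z}.ncard :=
    ⟨fun x => {z | c₀ z = c₀ x ∧ x < z}.ncard, fun x => rfl⟩
  have hmono : ∀ x y, c₀ x = c₀ y → x < y → ρ y < ρ x := by
    intro x y hxy hlt
    rw [hρ, hρ]
    refine Set.ncard_lt_ncard ?_ (Set.toFinite _)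
    refine ⟨fun z hz => ⟨hz.1.trans hxy.symm, hlt.trans hz.2⟩, fun hsub => ?_⟩
    have h1 : y ∈ {z | c₀ z = c₀ y ∧ y < z} := hsub ⟨hxy.symm, hlt⟩
    exact lt_irrefl _ h1.2
  have hcmp : ∀ x y, c₀ x = c₀ y → x ≠ y → x < y ∨ y < x := by
    intro x y hxy hne
    rcases hc₀ x y hxy with h1 | h1
    · exact Or.inl (lt_of_le_of_ne h1 hne)
    · exact Or.inr (lt_of_le_of_ne h1 hne.symm)
  obtain ⟨c, hc⟩ : ∃ c : V → Fin (2 * w), ∀ x, (c x).val = 2 * (c₀ x).val + if x ∈ K then 1 else 0 :=
    ⟨fun x => ⟨2 * (c₀ x).val + if x ∈ K then 1 else 0, by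
      have := (c₀ x).isLt
      split_ifs <;> omega⟩, fun x => rfl⟩
  have hcc : ∀ x y, c x = c y → c₀ x = c₀ y ∧ (x ∈ K ↔ y ∈ K) := by
    intro x y hxy
    have h1 := congrArg Fin.val hxy
    rw [hc, hc] at h1
    by_cases hx : x ∈ K <;> by_cases hy : y ∈ K
    · rw [if_pos hx, if_pos hy] at h1
      exact ⟨Fin.ext (by omega), iff_of_true hx hy⟩
    · rw [if_pos hx, if_neg hy] at h1
      omega
    · rw [if_neg hx, if_pos hy] at h1
      omega
    · rw [if_neg hx, if_neg hy] at h1
      exact ⟨Fin.ext (by omega), iff_of_false hx hy⟩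
  have hodd : ∀ x, (c x).val % 2 = 1 ↔ x ∈ K := by
    intro x
    rw [hc]
    by_cases hx : x ∈ K
    · rw [if_pos hx]
      exact iff_of_true (by omega) hx
    · rw [if_neg hx]
      exact iff_of_false (by omega) hx
  have htyp : ∀ x y, c x = c y → x < y → (G.Adj x y ↔ x ∈ K) := by
    intro x y hxy hlt
    obtain ⟨h0, hk⟩ := hcc x y hxy
    constructor
    · intro ha
      rw [hk, hK]
      exact ⟨x, h0, hlt, ha.symm⟩
    · intro hx
      obtain ⟨z, hz1, hz2, hz3⟩ := (hK x).1 hx
      have h1 : pre G z y := ((hle z y).1 (hz2.trans hlt).le).1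
      rcases h1 (show x ∈ G.neighborSet z from hz3.symm) with h2 | h2
      · exact absurd h2 hlt.ne
      · have h3 : G.Adj y x := h2
        exact h3.symm
  refine ⟨{
    G := G
    c := c
    ρ := ρ
    s := fun _ _ => true
    t := fun i => decide (i.val % 2 = 1)
    inj := ?_
    typ := ?_
    dn := ?_
    up := ?_ }, rfl, fun _ _ => rfl⟩
  · intro x y hxy hr
    by_contra hne
    rcases hcmp x y (hcc x y hxy).1 hne with h1 | h1
    · have := hmono x y (hcc x y hxy).1 h1
      omega
    · have := hmono y x (hcc x y hxy).1.symm h1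
      omega
  · intro x y hne hxy
    rw [decide_eq_true_iff, hodd]
    rcases hcmp x y (hcc x y hxy).1 hne with h1 | h1
    · exact htyp x y hxy h1
    · rw [(hcc x y hxy).2, G.adj_comm]
      exact htyp y x hxy.symm h1
  · intro x x' y hxx hr hy _ ha
    obtain ⟨h0, _⟩ := hcc x x' hxx
    have hne : x ≠ x' := by
      rintro rfl
      exact lt_irrefl _ hr
    rcases hcmp x x' h0 hne with h1 | h1
    · have := hmono x x' h0 h1
      omega
    · have h2 : pre G x' x := ((hle x' x).1 h1.le).1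
      rcases h2 (show y ∈ G.neighborSet x' from ha) with h3 | h3
      · exact absurd (congrArg c h3) hy
      · exact h3
  · intro x x' y _ _ _ hs _
    exact absurd hs (by decide)

end Pool.Agent.MPd439b2.X2
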