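import Pool.Agent.Lib.MP_d439b2_co.X2.SpecA

/-!
# MP_d439b2_co, X2: carvings or closed bundles
-/

set_option autoImplicit false

namespace Pool.Agent.MPd439b2.X2

open Pool.Agent.MPd439b2 Pool.Agent.MPd439b2.W

private theorem cBOr_wt_symm {α : Type} (Γ : SimpleGraph α) (A B : Finset α) :
    wt (ind Γ) A B = wt (ind Γ) B A := by
  unfold wt
  rw [Finset.sum_comm]
  refine Finset.sum_congr rfl fun x _ => Finset.sum_congr rfl fun y _ => ?_
  unfold ind
  by_cases h : Γ.Adj y x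
  · rw [if_pos h, if_pos h.symm]
  · rw [if_neg h, if_neg fun h' => h h'.symm]

private theorem cBOr_wt_le {α : Type} (Γ Γ' : SimpleGraph α) (A B : Finset α)
    (h : ∀ x ∈ A, ∀ y ∈ B, Γ.Adj x y → Γ'.Adj x y) : wt (ind Γ) A B ≤ wt (ind Γ') A B := by
  unfold wt
  refine Finset.sum_le_sum fun x hx => Finset.sum_le_sum fun y hy => ?_
  unfold ind
  by_cases h1 : Γ.Adj x y
  · rw [if_pos h1, if_pos (h x hx y hy h1)]
  · rw [if_neg h1]
    exact Nat.zero_le _

private theorem cBOr_deg {α : Type} [Fintype α] [DecidableEq α] (h5 : S_Pre) (Γ : SimpleGraph α)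
    (σ : α → α) (d : ℕ) (hd : ∀ x A, wt (ind Γ) {x} A ≤ d) (b : Finset α) :
    wt (WB Γ σ) {b} {b}ᶜ ≤ 2 * d := by
  rw [(h5 α Γ σ {b} {b}ᶜ).1]
  have h1 : wt (ind Γ) (pre σ {b}) (pre σ {b}ᶜ) ≤ (pre σ {b}).card * d := by
    have : wt (ind Γ) (pre σ {b}) (pre σ {b}ᶜ) =
        ∑ x ∈ pre σ {b}, wt (ind Γ) {x} (pre σ {b}ᶜ) := by
      unfold wt
      refine Finset.sum_congr rfl fun x _ => ?_
      rw [Finset.sum_singleton]
    rw [this, ← smul_eq_mul]
    exact Finset.sum_le_card_nsmul _ _ _ fun x _ => hd x _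
  refine h1.trans (Nat.mul_le_mul_right _ ?_)
  rcases (pre σ {b}).eq_empty_or_nonempty with h | ⟨x, hx⟩
  · rw [h]
    simp
  · have hb : blk σ x = b := by
      unfold pre at hx
      simpa using hx
    have hsub : pre σ {b} ⊆ {x, σ x} := by
      intro y hy
      have hy' : blk σ y = b := by
        unfold pre at hy
        simpa using hy
      have : y ∈ blk σ y := by
        unfold blk
        simp
      rw [hy', ← hb] at this
      exact this
    exact (Finset.card_le_card hsub).trans Finset.card_le_two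

theorem cBOr (hSym : S_SymP) (hConv : S_Conv) (hB : S_BundleS) (h1 : S_Carve) (h2 : S_Deg)
    (h5 : S_Pre) (h6 : S_Bad2) : S_CBOr := by
  intro n f hf
  obtain ⟨m, hm⟩ : ∃ m, m = 4 * n := ⟨_, rfl⟩
  obtain ⟨N₁, hN₁⟩ := hB m (64 * m) f
  obtain ⟨N, hN⟩ : ∃ N, N = 4 * m + 8 * m * N₁ := ⟨_, rfl⟩
  refine ⟨N, ?_⟩
  intro V _ S _ _
  subst hm
  have hc : ChainP (Pt.ch (S := S)) := Pt.chainP S
  have hdeg := h2 (4 * n) (Pt S) (Pt.ch (S := S)) Finset.univ hc
  rcases h1 (Finset (Pt S)) (WB (Gam (Pt.ch (S := S)) Finset.univ) Pt.sg) (4 * (4 * n)) N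
    (fun b b' => cBOr_wt_symm _ _ _)
    (fun b => by
      have := cBOr_deg h5 (Gam (Pt.ch (S := S)) Finset.univ) Pt.sg (2 * (4 * n)) hdeg b
      omega)
    (by omega) with hcarv | ⟨Z, hZ⟩
  · exact Or.inl hcarv
  · right
    obtain ⟨U, T, hTU, hNT, hWL⟩ := h6 (Pt S) (Gam (Pt.ch (S := S)) Finset.univ) Pt.sg
      (2 * (4 * n)) (4 * (4 * n)) N (4 * (4 * n)) Z (fun x => Pt.sg_sg x)
      (fun x y => hSym V n S x y) hdeg hZ
    have hWL' : WL (Pt.ch (S := S)) U T (4 * (4 * n)) (64 * (4 * n)) := by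
      refine ⟨hTU, fun Y hY a b => ?_⟩
      refine (hWL Y hY a b).trans ?_
      have e : 16 * (4 * (4 * n)) = 64 * (4 * n) := by ring
      rw [e]
      refine Nat.mul_le_mul_left _ (cBOr_wt_le _ _ _ _ fun x hx y hy hxy => ?_)
      have hxU : x ∈ U := hY hx
      have hyU : y ∈ U := (Finset.mem_sdiff.1 hy).1
      rcases hxy with h | h | h
      · exact Or.inl ⟨hxU, hyU, h.2.2.1, h.2.2.2.1, fun z hz => h.2.2.2.2 z (Finset.mem_univ z)⟩
      · exact Or.inr (Or.inl ⟨hyU, hxU, h.2.2.1, h.2.2.2.1,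
          fun z hz => h.2.2.2.2 z (Finset.mem_univ z)⟩)
      · exact Or.inr (Or.inr ⟨hxU, hyU, h.2.2⟩)
    have hT : N₁ ≤ T.card := by
      rw [hN] at hNT
      have e : 8 * (4 * n) * N₁ < 8 * (4 * n) * T.card := by
        have e1 : 4 * (2 * (4 * n)) * T.card = 8 * (4 * n) * T.card := by ring
        omega
      exact (lt_of_mul_lt_mul_left e (Nat.zero_le _)).le
    obtain ⟨r, v, χ, hBun, hch, hne, h0r, hclo⟩ := hN₁ (Pt S) (Pt.ch (S := S)) U T hc hWL' hT
    have hfr := hf r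
    obtain ⟨x, κ, e, hCB⟩ := hConv V n S (f r) r v χ hfr hBun hch
      (fun j hj => hne j hj (by omega)) (h0r (by omega)) hclo
    exact ⟨r, x, κ, e, hCB⟩

end Pool.Agent.MPd439b2.X2
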