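import Pool.Agent.Lib.MP_d439b2_co.X2.SpecA

/-!
# MP_d439b2_co, X2: from a carving of the blocks of `Pt S` to a layout of `S.G`
-/

set_option autoImplicit false

namespace Pool.Agent.MPd439b2.X2

open Pool.Agent.MPd439b2 Pool.Agent.MPd439b2.W

section

variable {V : Type} {n : ℕ} (S : St V n) [DecidableEq (Pt S)]

/-- the vertices of the blocks in `Z` -/
private def carvVZ (Z : Finset (Finset (Pt S))) : Set V :=
  {v | blk Pt.sg (⟨v, true, false⟩ : Pt S) ∈ Z}

private theorem carv_blk (x : Pt S) : blk Pt.sg x.sg = blk Pt.sg x := by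
  unfold blk
  rw [Pt.sg_sg, Finset.pair_comm]

private theorem carv_mem_pre [Fintype (Pt S)] (Z : Finset (Finset (Pt S))) (x : Pt S) :
    x ∈ pre Pt.sg Z ↔ blk Pt.sg x ∈ Z := by
  unfold pre
  simp

private theorem carv_types [Finite V] [Fintype (Pt S)] (h1 : S_TypesZ) (h2 : S_Pre) (N : ℕ)
    (Z : Finset (Finset (Pt S)))
    (hZ : wt (WB (Gam (Pt.ch (S := S)) Finset.univ) Pt.sg) Z Zᶜ ≤ N) :
    (Types S.G (carvVZ S Z)).encard ≤ (TB n N : ℕ) := by
  have h3 : wt (ind (Gam (Pt.ch (S := S)) Finset.univ)) (pre Pt.sg Z) (pre Pt.sg Z)ᶜ ≤ N := by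
    rw [(h2 (Pt S) (Gam (Pt.ch (S := S)) Finset.univ) Pt.sg Z Zᶜ).1,
      (h2 (Pt S) (Gam (Pt.ch (S := S)) Finset.univ) Pt.sg Z Z).2] at hZ
    exact hZ
  have h4 := h1 V n S (pre Pt.sg Z) N (fun a ha => by
    rw [carv_mem_pre] at ha ⊢
    rw [carv_blk]
    exact ha) h3
  have h5 : {v : V | (⟨v, true, false⟩ : Pt S) ∈ pre Pt.sg Z} = carvVZ S Z := by
    ext v
    exact carv_mem_pre S Z _
  rw [h5] at h4
  exact h4

private theorem carv_sub (b : Finset (Pt S)) : (carvVZ S {b}).Subsingleton := by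
  intro v hv v' hv'
  have h1 : blk Pt.sg (⟨v, true, false⟩ : Pt S) = b := Finset.mem_singleton.1 hv
  have h2 : blk Pt.sg (⟨v', true, false⟩ : Pt S) = b := Finset.mem_singleton.1 hv'
  have h3 : (⟨v, true, false⟩ : Pt S) ∈ blk Pt.sg (⟨v', true, false⟩ : Pt S) := by
    rw [h2, ← h1]
    unfold blk
    exact Finset.mem_insert_self _ _
  unfold blk at h3
  rcases Finset.mem_insert.1 h3 with h | h
  · exact congrArg Pt.v h
  · exact congrArg Pt.v (Finset.mem_singleton.1 h)

end

theorem carvL (h1 : S_TypesZ) (h2 : S_Pre) : S_CarvL := by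
  intro V n _ S _ _ N hcarv
  have key : ∀ Z : Finset (Finset (Pt S)),
      Carv (WB (Gam (Pt.ch (S := S)) Finset.univ) Pt.sg) N Z →
      Lay S.G (TB n N + 1) (carvVZ S Z) := by
    intro Z hZ
    induction hZ with
    | empty =>
      have : carvVZ S ∅ = ∅ := by
        ext v
        constructor
        · intro hx
          exact absurd hx (Finset.notMem_empty _)
        · intro h
          exact absurd h (Set.notMem_empty v)
      rw [this]
      exact Lay.empty
    | single b _ =>
      rcases (carv_sub S b).eq_empty_or_singleton with h | ⟨v, h⟩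
      · rw [h]
        exact Lay.empty
      · rw [h]
        exact Lay.single' (by omega) v
    | @union A B _ _ hd hw ihA ihB =>
      have e : carvVZ S (A ∪ B) = carvVZ S A ∪ carvVZ S B := by
        ext v
        exact Finset.mem_union
      have ht := carv_types S h1 h2 N (A ∪ B) hw
      rw [e] at ht ⊢
      refine Lay.union ihA ihB ?_ (ht.trans ?_)
      · rw [Set.disjoint_left]
        intro v hv hv'
        exact Finset.disjoint_left.1 hd hv hv'
      · exact_mod_cast Nat.le_succ _
  have h3 := key _ hcarv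
  have h4 : carvVZ S Finset.univ = Set.univ := by
    ext v
    exact ⟨fun _ => trivial, fun _ => Finset.mem_univ _⟩
  rw [h4] at h3
  exact h3

end Pool.Agent.MPd439b2.X2
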