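import Pool.Agent.Lib.MP_d439b2_co.X2.SpecA

/-!
# MP_d439b2_co, X2, Clo: the closure
-/

set_option autoImplicit false

namespace Pool.Agent.MPd439b2.X2

open Pool.Agent.MPd439b2 Pool.Agent.MPd439b2.W

theorem clo : S_Clo := by
  intro V n S M r x κ e E j hM H hj
  have hcb := H.cb
  have c0 : ∀ k < M, S.c (x 0 k) = κ 0 := fun k hk => hcb.cls 0 (Nat.zero_le _) k hk
  have cr : ∀ k < M, S.c (x r k) = κ 0 := fun k hk => by rw [hcb.cls r le_rfl k hk, hcb.k0]
  have cj : ∀ k < M, S.c (x j k) = κ j := fun k hk => hcb.cls j hj k hk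
  have rel := H.rel
  refine ⟨fun hκ => ?_, fun hκ hs hE => ?_, fun hκ hs hE => ?_⟩
  · have key : ∀ i ≤ r, ∀ i' ≤ r, (∀ k < M, S.c (x i k) = κ 0) → (∀ k < M, S.c (x i' k) = κ 0) →
        (E i i' ↔ S.t (κ 0) = true) := by
      intro i hi i' hi' h1 h2
      rw [← rel i hi i' hi' 0 1 (by omega) (by omega), S.typ _ _
        (H.dis i hi i' hi' 0 (by omega) 1 (by omega) (by omega))
        (by rw [h1 0 (by omega), h2 1 (by omega)]), h1 0 (by omega)]
    have cj' : ∀ k < M, S.c (x j k) = κ 0 := fun k hk => by rw [cj k hk, hκ]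
    exact ⟨key j hj 0 (Nat.zero_le _) cj' c0, key 0 (Nat.zero_le _) j hj c0 cj',
      key j hj r le_rfl cj' cr, key r le_rfl j hj cr cj'⟩
  · have key : ∀ k < M, ∀ l < M, ∀ w < M, S.G.Adj (x r l) (x j w) → S.G.Adj (x 0 k) (x j w) := by
      intro k hk l hl w hw ha
      refine S.see (x' := x r l) ?_ ?_ ?_ ha
      · rw [c0 k hk, cr l hl]
      · rw [cj w hw, c0 k hk]
        exact hκ
      · rw [c0 k hk, cj w hw, ← hs]
        exact S.le_of_lt (hcb.clo k hk l hl)
    rcases hE with hE | hE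
    · refine ⟨?_, ?_⟩
      · rw [← rel j hj 0 (Nat.zero_le _) 0 1 (by omega) (by omega)]
        exact (key 1 (by omega) 1 (by omega) 0 (by omega)
          ((rel j hj r le_rfl 0 1 (by omega) (by omega)).2 hE).symm).symm
      · rw [← rel 0 (Nat.zero_le _) j hj 0 1 (by omega) (by omega)]
        exact key 0 (by omega) 2 (by omega) 1 (by omega)
          ((rel j hj r le_rfl 1 2 (by omega) (by omega)).2 hE).symm
    · have ha := (rel r le_rfl j hj 0 1 (by omega) (by omega)).2 hE
      refine ⟨?_, ?_⟩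
      · rw [← rel j hj 0 (Nat.zero_le _) 1 2 (by omega) (by omega)]
        exact (key 2 (by omega) 0 (by omega) 1 (by omega) ha).symm
      · rw [← rel 0 (Nat.zero_le _) j hj 0 1 (by omega) (by omega)]
        exact key 0 (by omega) 0 (by omega) 1 (by omega) ha
  · have hs' : S.s (κ 0) (κ j) = !e 0 := by
      cases h1 : e 0 <;> cases h2 : S.s (κ 0) (κ j) <;> simp [h1, h2] at hs ⊢
    have key : ∀ k < M, ∀ l < M, ∀ w < M, S.G.Adj (x 0 k) (x j w) → S.G.Adj (x r l) (x j w) := by
      intro k hk l hl w hw ha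
      refine S.see (x' := x 0 k) ?_ ?_ ?_ ha
      · rw [c0 k hk, cr l hl]
      · rw [cj w hw, cr l hl]
        exact hκ
      · rw [cr l hl, cj w hw, hs', S.le_not]
        exact S.le_of_lt (hcb.clo k hk l hl)
    rcases hE with hE | hE
    · refine ⟨?_, ?_⟩
      · rw [← rel j hj r le_rfl 0 1 (by omega) (by omega)]
        exact (key 1 (by omega) 1 (by omega) 0 (by omega)
          ((rel j hj 0 (Nat.zero_le _) 0 1 (by omega) (by omega)).2 hE).symm).symm
      · rw [← rel r le_rfl j hj 0 1 (by omega) (by omega)]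
        exact key 2 (by omega) 0 (by omega) 1 (by omega)
          ((rel j hj 0 (Nat.zero_le _) 1 2 (by omega) (by omega)).2 hE).symm
    · have ha := (rel 0 (Nat.zero_le _) j hj 0 1 (by omega) (by omega)).2 hE
      refine ⟨?_, ?_⟩
      · rw [← rel j hj r le_rfl 1 2 (by omega) (by omega)]
        exact (key 0 (by omega) 2 (by omega) 1 (by omega) ha).symm
      · rw [← rel r le_rfl j hj 0 1 (by omega) (by omega)]
        exact key 0 (by omega) 0 (by omega) 1 (by omega) ha

end Pool.Agent.MPd439b2.X2
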