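import Pool.Agent.Lib.MP_d439b2_co.X2.SpecA

/-!
# MP_d439b2_co, X2, Comp: composition of a rung with a step
-/

set_option autoImplicit false

namespace Pool.Agent.MPd439b2.X2

open Pool.Agent.MPd439b2 Pool.Agent.MPd439b2.W

theorem comp : S_Comp := by
  intro V n S m x κ e i j l hc hij hjl
  obtain ⟨hκ, he, hr⟩ := hij
  rcases hjl with ⟨hκ', he', hr'⟩ | ⟨hκ', he', hr'⟩
  · left
    refine ⟨hκ.trans hκ', he.trans he', fun k k' hk hk' => ⟨?_, ?_⟩⟩
    · refine S.le_trans (hr (3 * k + 1) (3 * k + 2) (by omega) (by omega)).1 ?_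
      rw [he]
      exact (hr' (3 * k + 2) (3 * k' + 1) (by omega) (by omega)).1
    · refine S.le_trans (y := x j (3 * k + 2)) ?_
        (hr (3 * k + 2) (3 * k' + 1) (by omega) (by omega)).2
      rw [he]
      exact (hr' (3 * k + 1) (3 * k + 2) (by omega) (by omega)).2
  · right
    have hab : ∀ p < 3 * m, ∀ q < 3 * m, ∀ w < 3 * m, S.le (S.s (κ i) (κ l)) (x i p) (x j q) →
        S.G.Adj (x j q) (x l w) → S.G.Adj (x i p) (x l w) := by
      intro p hp q hq w hw hle ha
      refine S.see (x' := x j q) ?_ ?_ ?_ ha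
      · rw [(hc p hp).1, (hc q hq).2.1, hκ]
      · rw [(hc w hw).2.2, (hc p hp).1, hκ]
        exact fun h => hκ' h.symm
      · rw [(hc p hp).1, (hc w hw).2.2]
        exact hle
    have hba : ∀ p < 3 * m, ∀ q < 3 * m, ∀ w < 3 * m, S.le (S.s (κ i) (κ l)) (x j q) (x i p) →
        S.G.Adj (x i p) (x l w) → S.G.Adj (x j q) (x l w) := by
      intro p hp q hq w hw hle ha
      refine S.see (x' := x i p) ?_ ?_ ?_ ha
      · rw [(hc p hp).1, (hc q hq).2.1, hκ]
      · rw [(hc w hw).2.2, (hc q hq).2.1]
        exact fun h => hκ' h.symm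
      · rw [(hc q hq).2.1, (hc w hw).2.2, ← hκ]
        exact hle
    refine ⟨by rw [hκ]; exact hκ', by rw [hκ, he]; exact he', fun k hk k' hk' hkk => ?_⟩
    show S.G.Adj (x i (3 * k + 1)) (x l (3 * k' + 1)) ↔ (k < k' ↔ e i = S.s (κ i) (κ l))
    have hj : ∀ p < 3 * m, ∀ q < 3 * m, p ≠ q →
        (S.G.Adj (x j p) (x l q) ↔ (p < q ↔ e i = S.s (κ i) (κ l))) := by
      intro p hp q hq hpq
      rw [hr' p hp q hq hpq, he, hκ]
    by_cases hs : e i = S.s (κ i) (κ l)
    · rcases lt_or_gt_of_ne hkk with h | h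
      · refine iff_of_true ?_ (iff_of_true h hs)
        refine hab _ (by omega) (3 * k + 2) (by omega) _ (by omega) ?_
          ((hj _ (by omega) _ (by omega) (by omega)).2 (iff_of_true (by omega) hs))
        rw [← hs]
        exact (hr (3 * k + 1) (3 * k + 2) (by omega) (by omega)).1
      · refine iff_of_false (fun ha => ?_) (fun h' => absurd (h'.2 hs) (by omega))
        have h1 := hba (3 * k + 1) (by omega) (3 * k) (by omega) (3 * k' + 1) (by omega) (by
          rw [← hs]
          exact (hr (3 * k) (3 * k + 1) (by omega) (by omega)).2) ha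
        rw [hj _ (by omega) _ (by omega) (by omega)] at h1
        exact absurd (h1.2 hs) (by omega)
    · have hs' : S.s (κ i) (κ l) = !e i := by
        cases h1 : e i <;> cases h2 : S.s (κ i) (κ l) <;> simp [h1, h2] at hs ⊢
      rcases lt_or_gt_of_ne hkk with h | h
      · refine iff_of_false (fun ha => ?_) (fun h' => hs (h'.1 h))
        have h1 := hba (3 * k + 1) (by omega) (3 * k + 2) (by omega) (3 * k' + 1) (by omega) (by
          rw [hs', S.le_not]
          exact (hr (3 * k + 1) (3 * k + 2) (by omega) (by omega)).1) ha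
        rw [hj _ (by omega) _ (by omega) (by omega)] at h1
        exact hs (h1.1 (by omega))
      · refine iff_of_true ?_ (iff_of_false (by omega) hs)
        refine hab _ (by omega) (3 * k) (by omega) _ (by omega) ?_
          ((hj _ (by omega) _ (by omega) (by omega)).2 (iff_of_false (by omega) hs))
        rw [hs', S.le_not]
        exact (hr (3 * k) (3 * k + 1) (by omega) (by omega)).2

end Pool.Agent.MPd439b2.X2
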