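import Pool.Agent.Lib.MP_d439b2_co.X2.SpecA

/-!
# MP_d439b2_co, X2: from closed bundles of `Pt S` to closed bundles of `S`
-/

set_option autoImplicit false

namespace Pool.Agent.MPd439b2.X2

open Pool.Agent.MPd439b2 Pool.Agent.MPd439b2.W

private theorem conv_lt {V : Type} {n : ℕ} {S : St V n} {a b : Pt S} (h : a.ch = b.ch)
    (hab : a < b) : S.lt a.e a.v b.v := by
  obtain ⟨h1, h2, h3⟩ := (Pt.ch_eq a b).1 h
  rw [S.lt_iff]
  intro hle
  have hle2 : S.le a.e a.v b.v := by
    rcases (Pt.le_def a b).1 hab.le with h4 | h4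
    · exact h4.2.2.1
    · exact absurd h1 h4.1
  have hv := S.eq_of_le h1 hle2 hle
  exact hab.ne (Pt.ext hv h2 h3)

private theorem conv_step {V : Type} {n : ℕ} {S : St V n} {m : ℕ} {a b : ℕ → Pt S} (hm : 2 ≤ m)
    (ha : ∀ k < m, S.c (a k).v = S.c (a 0).v ∧ (a k).e = (a 0).e ∧ (a k).o = (a 0).o)
    (hb : ∀ k < m, S.c (b k).v = S.c (b 0).v ∧ (b k).e = (b 0).e ∧ (b k).o = (b 0).o)
    (hne : (a 0).ch ≠ (b 0).ch) (hs : Step m a b) :
    (S.c (a 0).v = S.c (b 0).v ∧ (a 0).e = (b 0).e ∧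
      ∀ k l, k < l → l < m → S.le (a 0).e (a k).v (b l).v ∧ S.le (a 0).e (b k).v (a l).v) ∨
    (S.c (a 0).v ≠ S.c (b 0).v ∧ (a 0).e = S.s (S.c (a 0).v) (S.c (b 0).v) ∧
      (b 0).e = !S.s (S.c (b 0).v) (S.c (a 0).v) ∧
      ∀ k < m, ∀ l < m, k ≠ l → (S.G.Adj (a k).v (b l).v ↔ k < l)) := by
  have h01 := (hs 0 (by omega) 1 (by omega)).1 (by omega)
  obtain ⟨b1, b2, b3⟩ := hb 1 (by omega)
  rcases (Pt.le_def _ _).1 h01 with ⟨h1, h2, h3, h4⟩ | ⟨h1, h2, h3, h4, h5, h6⟩
  · left
    rw [b1] at h1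
    rw [b2] at h2
    rw [b3] at h4
    have ho : (a 0).o ≠ (b 0).o := fun h => hne ((Pt.ch_eq _ _).2 ⟨h1, h2, h⟩)
    have hao : (a 0).o = false := by
      rcases h4 with h4 | h4
      · exact h4
      · cases h : (a 0).o
        · rfl
        · exact absurd (h.trans h4.symm) ho
    refine ⟨h1, h2, fun k l hkl hl => ?_⟩
    obtain ⟨k1, k2, k3⟩ := ha k (by omega)
    obtain ⟨l1, l2, l3⟩ := hb l hl
    obtain ⟨k1', k2', k3'⟩ := hb k (by omega)
    obtain ⟨l1', l2', l3'⟩ := ha l hl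
    constructor
    · rcases (Pt.le_def _ _).1 ((hs k (by omega) l hl).1 hkl) with h5 | h5
      · have := h5.2.2.1
        rw [k2] at this
        exact this
      · exact absurd (by rw [k1, l1, h1]) h5.1
    · have h5 := (hs l hl k (by omega)).2 hkl
      rcases S.le_total (a 0).e (b k).v (a l).v with h6 | h6
      · exact h6
      · exfalso
        apply h5
        rw [Pt.le_def]
        left
        exact ⟨by rw [l1', k1', h1], by rw [l2', k2', h2], by rw [l2']; exact h6,
          Or.inl (by rw [l3', hao])⟩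
  · right
    rw [b1] at h1 h5 h6
    rw [b2] at h6
    refine ⟨h1, h5, h6, fun k hk l hl hkl => ?_⟩
    obtain ⟨k1, k2, k3⟩ := ha k hk
    obtain ⟨l1, l2, l3⟩ := hb l hl
    have hiff : a k ≤ b l ↔ S.G.Adj (a k).v (b l).v := by
      rw [Pt.le_def]
      constructor
      · rintro (h7 | h7)
        · exact absurd (by rw [← k1, ← l1]; exact h7.1) h1
        · exact h7.2.2.2.1
      · intro h7
        right
        refine ⟨by rw [k1, l1]; exact h1, by rw [k3, h2], by rw [l3, ← b3, h3], h7, ?_, ?_⟩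
        · rw [k2, k1, l1, h5]
        · rw [l2, k1, l1, h6]
    rw [← hiff]
    constructor
    · intro h7
      by_contra h8
      exact (hs k hk l hl).2 (by omega) h7
    · intro h7
      exact (hs k hk l hl).1 h7

theorem conv : S_Conv := by
  intro V n S m r v χ hm hB hch hne h0r hclo
  have hcl : ∀ j ≤ r, ∀ k < m, S.c (v j k).v = S.c (v j 0).v ∧ (v j k).e = (v j 0).e ∧
      (v j k).o = (v j 0).o := by
    intro j hj k hk
    have h1 : (v j k).ch = (v j 0).ch := by rw [hch j hj k hk, hch j hj 0 (by omega)]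
    exact (Pt.ch_eq _ _).1 h1
  have h0 : (v 0 0).ch = (v r 0).ch := by
    rw [hch 0 (Nat.zero_le r) 0 (by omega), hch r le_rfl 0 (by omega), h0r]
  obtain ⟨c0, e0, o0⟩ := (Pt.ch_eq _ _).1 h0
  refine ⟨fun j k => (v j k).v, fun j => S.c (v j 0).v, fun j => (v j 0).e, ?_⟩
  refine ⟨fun j hj k hk => (hcl j hj k hk).1, fun j hj k l hkl hl => ?_, fun j hj => ?_, c0, e0,
    fun k hk l hl => ?_⟩
  · have h1 : (v j k).ch = (v j l).ch := by rw [hch j hj k (by omega), hch j hj l hl]
    have h2 := conv_lt h1 (hB.mono j hj k l hkl hl)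
    rw [(hcl j hj k (by omega)).2.1] at h2
    exact h2
  · have hn : (v j 0).ch ≠ (v (j + 1) 0).ch := by
      rw [hch j (by omega) 0 (by omega), hch (j + 1) (by omega) 0 (by omega)]
      exact hne j hj
    rcases hB.step j hj with hs | hs
    · rcases conv_step hm (hcl j (by omega)) (hcl (j + 1) (by omega)) hn hs with h1 | h1
      · exact Or.inl h1
      · right
        obtain ⟨h2, h3, h4, h5⟩ := h1
        refine ⟨h2, ⟨fun _ => ?_, fun _ => h3⟩, fun k hk l hl hkl => ?_⟩
        · show (v (j + 1) 0).e ≠ _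
          rw [h4]
          cases S.s (S.c (v (j + 1) 0).v) (S.c (v j 0).v) <;> simp
        · show S.G.Adj (v j k).v (v (j + 1) l).v ↔ _
          rw [h5 k hk l hl hkl]
          exact ⟨fun h => ⟨fun _ => h3, fun _ => h⟩, fun h => h.2 h3⟩
    · rcases conv_step hm (hcl (j + 1) (by omega)) (hcl j (by omega)) hn.symm hs with h1 | h1
      · left
        obtain ⟨h2, h3, h4⟩ := h1
        refine ⟨h2.symm, h3.symm, fun k l hkl hl => ?_⟩
        obtain ⟨h5, h6⟩ := h4 k l hkl hl
        rw [h3] at h5 h6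
        exact ⟨h6, h5⟩
      · right
        obtain ⟨h2, h3, h4, h5⟩ := h1
        have h6 : ¬ (v j 0).e = S.s (S.c (v j 0).v) (S.c (v (j + 1) 0).v) := by
          rw [h4]
          cases S.s (S.c (v j 0).v) (S.c (v (j + 1) 0).v) <;> simp
        refine ⟨fun h => h2 h.symm, ⟨fun h => absurd h h6, fun h => absurd h3 h⟩,
          fun k hk l hl hkl => ?_⟩
        show S.G.Adj (v j k).v (v (j + 1) l).v ↔ _
        rw [S.G.adj_comm, h5 l hl k hk (Ne.symm hkl)]
        constructor
        · intro h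
          exact ⟨fun h' => by omega, fun h' => absurd h' h6⟩
        · intro h
          by_contra h7
          exact h6 (h.1 (by omega))
  · have h1 : (v 0 k).ch = (v r l).ch := by
      rw [hch 0 (Nat.zero_le r) k hk, hch r le_rfl l hl, h0r]
    have h2 := conv_lt h1 (hclo k hk l hl)
    rw [(hcl 0 (Nat.zero_le r) k hk).2.1] at h2
    exact h2

end Pool.Agent.MPd439b2.X2
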