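import Pool.Agent.Lib.MP_d439b2_co.X2.SpecA

/-!
# MP_d439b2_co, X2: shortcuts (A10)
-/

set_option autoImplicit false

namespace Pool.Agent.MPd439b2.X2

open Pool.Agent.MPd439b2 Pool.Agent.MPd439b2.W

theorem cut : S_Cut := by
  intro V n S M r x κ e E i j hB hij hjr hst
  obtain ⟨cb, stp, dis, rel⟩ := hB
  obtain ⟨cls, mono, step, k0, e0, clo⟩ := cb
  set d := j - i - 1 with hd
  let g : ℕ → ℕ := fun p => if p ≤ i then p else p + d
  have g1 : ∀ p, p ≤ i → g p = p := fun p hp => if_pos hp
  have g2 : ∀ p, i < p → g p = p + d := fun p hp => if_neg (by omega)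
  have gle : ∀ p ≤ r - d, g p ≤ r := by
    intro p hp
    rcases le_or_gt p i with h | h
    · rw [g1 p h]; omega
    · rw [g2 p h]; omega
  have g0 : g 0 = 0 := g1 0 (Nat.zero_le _)
  have gr : g (r - d) = r := by
    rw [g2 (r - d) (by omega)]; omega
  have gstep : ∀ p < r - d, Stp S M (fun q => x (g q)) (fun q => κ (g q)) (fun q => e (g q)) p (p + 1) := by
    intro p hp
    have key : Stp S M x κ e (g p) (g (p + 1)) := by
      rcases lt_trichotomy p i with h | h | h
      · rw [g1 p h.le, g1 (p + 1) (by omega)]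
        exact stp p (by omega)
      · subst h
        rw [g1 p le_rfl, g2 (p + 1) (by omega)]
        have : p + 1 + d = j := by omega
        rw [this]
        exact hst
      · rw [g2 p h, g2 (p + 1) (by omega)]
        have : p + 1 + d = (p + d) + 1 := by omega
        rw [this]
        exact stp (p + d) (by omega)
    exact key
  refine ⟨r - d, by omega, fun q => x (g q), fun q => κ (g q), fun q => e (g q),
    fun p q => E (g p) (g q), ⟨⟨?_, ?_, ?_, ?_, ?_, ?_⟩, gstep, ?_, ?_⟩⟩
  · intro p hp k hk
    exact cls (g p) (gle p hp) k hk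
  · intro p hp k l hkl hl
    exact mono (g p) (gle p hp) k l hkl hl
  · intro p hp
    exact Or.inr (gstep p hp)
  · show κ (g 0) = κ (g (r - d))
    rw [g0, gr]; exact k0
  · show e (g 0) = e (g (r - d))
    rw [g0, gr]; exact e0
  · intro k hk l hl
    show S.lt (e (g 0)) (x (g 0) k) (x (g (r - d)) l)
    rw [g0, gr]; exact clo k hk l hl
  · intro p hp q hq k hk l hl hkl
    exact dis (g p) (gle p hp) (g q) (gle q hq) k hk l hl hkl
  · intro p hp q hq k l hkl hl
    exact rel (g p) (gle p hp) (g q) (gle q hq) k l hkl hl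

end Pool.Agent.MPd439b2.X2
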