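import Pool.Agent.Lib.MP_d439b2_co.X2.SpecA

/-!
# MP_d439b2_co, X2, A2: few vertices have copies on both sides
-/

set_option autoImplicit false

namespace Pool.Agent.MPd439b2.X2

open Pool.Agent.MPd439b2 Pool.Agent.MPd439b2.W

namespace ExcAux

/-- the two copies of `v` of the orientation `true` form an essential pair -/
theorem ess {V : Type} {n : ℕ} (S : St V n) (v : V) :
    Ess (Pt.ch (S := S)) (⟨v, true, false⟩ : Pt S) (⟨v, true, true⟩ : Pt S) := by
  refine ⟨?_, ?_, ?_, ?_⟩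
  · intro h
    have h3 : (false : Bool) = true := ((Pt.ch_eq _ _).1 h).2.2
    exact absurd h3 (by decide)
  · rw [Pt.le_def]
    exact Or.inl ⟨rfl, rfl, S.le_refl _ _, Or.inl rfl⟩
  · intro z hz hzb
    obtain ⟨h1, h2, h3⟩ := (Pt.ch_eq _ _).1 hz
    rw [Pt.le_def] at hzb ⊢
    rcases hzb with ⟨g1, g2, g3, g4⟩ | ⟨g1, _⟩
    · exact Or.inl ⟨h1, h2, g3, Or.inl h3⟩
    · exact absurd h1 g1
  · intro z hz haz
    obtain ⟨h1, h2, h3⟩ := (Pt.ch_eq _ _).1 hz
    rw [Pt.le_def] at haz ⊢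
    rcases haz with ⟨g1, g2, g3, g4⟩ | ⟨g1, _⟩
    · exact Or.inl ⟨h1.symm, h2.symm, g3, Or.inr h3⟩
    · exact absurd h1.symm g1

end ExcAux

theorem exc : S_Exc := by
  classical
  intro V n _ S _ _ Y N hN
  have hwt : wt (ind (Gam (Pt.ch (S := S)) Finset.univ)) Y Yᶜ =
      ((Y ×ˢ Yᶜ).filter (fun p : Pt S × Pt S =>
        (Gam (Pt.ch (S := S)) Finset.univ).Adj p.1 p.2)).card := by
    unfold wt ind
    rw [Finset.card_filter, Finset.sum_product]
  rw [hwt] at hN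
  refine le_trans ?_ hN
  rw [← Set.ncard_coe_finset]
  refine Set.ncard_le_ncard_of_injOn (fun v : V =>
    if (⟨v, true, false⟩ : Pt S) ∈ Y then ((⟨v, true, false⟩ : Pt S), (⟨v, true, true⟩ : Pt S))
    else ((⟨v, true, true⟩ : Pt S), (⟨v, true, false⟩ : Pt S))) ?_ ?_ (Finset.finite_toSet _)
  · intro v hv
    have hadj : (Gam (Pt.ch (S := S)) Finset.univ).Adj (⟨v, true, false⟩ : Pt S)
        (⟨v, true, true⟩ : Pt S) :=
      Or.inr (Or.inr ⟨Finset.mem_univ _, Finset.mem_univ _, Or.inl (ExcAux.ess S v)⟩)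
    have hv' : ¬ ((⟨v, true, false⟩ : Pt S) ∈ Y ↔ (⟨v, true, true⟩ : Pt S) ∈ Y) := hv
    split_ifs with h
    · have h2 : (⟨v, true, true⟩ : Pt S) ∉ Y := fun h' => hv' ⟨fun _ => h', fun _ => h⟩
      refine Finset.mem_coe.2 (Finset.mem_filter.2 ⟨Finset.mem_product.2 ⟨h, ?_⟩, hadj⟩)
      exact Finset.mem_compl.2 h2
    · have h2 : (⟨v, true, true⟩ : Pt S) ∈ Y := by
        by_contra h'
        exact hv' ⟨fun h1 => absurd h1 h, fun h1 => absurd h1 h'⟩
      refine Finset.mem_coe.2 (Finset.mem_filter.2 ⟨Finset.mem_product.2 ⟨h2, ?_⟩, hadj.symm⟩)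
      exact Finset.mem_compl.2 h
  · intro v _ w _ h
    simp only at h
    split_ifs at h
    · exact congrArg Pt.v (congrArg Prod.fst h)
    · exact congrArg Pt.v (congrArg Prod.fst h)
    · exact congrArg Pt.v (congrArg Prod.fst h)
    · exact congrArg Pt.v (congrArg Prod.fst h)

end Pool.Agent.MPd439b2.X2
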