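import Pool.Agent.Lib.MP_d439b2_co.X2.SpecA

/-!
# MP_d439b2_co, X2: homogeneous bundles (A9)
-/

set_option autoImplicit false

namespace Pool.Agent.MPd439b2.X2

open Pool.Agent.MPd439b2 Pool.Agent.MPd439b2.W

namespace HomBAux

variable {V : Type} {n : ℕ}

private theorem stp_sub {S : St V n} {M' m : ℕ} {x : ℕ → ℕ → V} {κ : ℕ → Fin n} {e : ℕ → Bool}
    {i j : ℕ} {s : ℕ → ℕ} (hs1 : ∀ k l, k < l → l < m → s k < s l) (hs2 : ∀ k < m, s k < M')
    (h : Stp S M' x κ e i j) : Stp S m (fun i k => x i (s k)) κ e i j := by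
  obtain ⟨h1, h2, h3⟩ := h
  refine ⟨h1, h2, fun k hk l hl hkl => ?_⟩
  have hlt : ∀ k' l', k' < m → l' < m → (s k' < s l' ↔ k' < l') := by
    intro k' l' hk' hl'
    rcases lt_trichotomy k' l' with h | h | h
    · exact ⟨fun _ => h, fun _ => hs1 _ _ h hl'⟩
    · rw [h]
      exact ⟨fun h' => absurd h' (lt_irrefl _), fun h' => absurd h' (lt_irrefl _)⟩
    · exact ⟨fun h' => absurd (hs1 _ _ h hk') (by omega), fun h' => absurd h (by omega)⟩
  have hne : s k ≠ s l := by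
    rcases lt_or_gt_of_ne hkl with h | h
    · exact (hs1 _ _ h hl).ne
    · exact (hs1 _ _ h hk).ne'
  have h4 := h3 (s k) (hs2 k hk) (s l) (hs2 l hl) hne
  rw [hlt k l hk hl] at h4
  exact h4

end HomBAux

open HomBAux in
/-- **A9.** -/
theorem homB (h : S_RamC) : S_HomB := by
  intro r M
  obtain ⟨M', hM'⟩ := h (Fin (r + 1) × Fin (r + 1) → Prop × Prop) (max M 4)
  refine ⟨M', fun V n S x κ e hCB hStp => ?_⟩
  obtain ⟨s, c, hs1, hs2, hs3⟩ := hM' fun k l q =>
    (S.G.Adj (x q.1.val k) (x q.2.val l), x q.1.val k = x q.2.val l)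
  have hM : M ≤ max M 4 := le_max_left _ _
  have h4 : 4 ≤ max M 4 := le_max_right _ _
  have hs1' : ∀ k l, k < l → l < M → s k < s l := fun k l h1 h2 => hs1 k l h1 (h2.trans_le hM)
  have hs2' : ∀ k < M, s k < M' := fun k h1 => hs2 k (h1.trans_le hM)
  have hne : ∀ i ≤ r, ∀ j ≤ r, ∀ k l, k < l → l < max M 4 → x i (s k) ≠ x j (s l) := by
    intro i hi j hj k l hkl hl heq
    have e1 : ∀ k' l', k' < l' → l' < max M 4 →
        (x i (s k') = x j (s l')) = (c (⟨i, by omega⟩, ⟨j, by omega⟩)).2 := by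
      intro k' l' h1 h2
      exact congrArg Prod.snd (congrFun (hs3 k' l' h1 h2) (⟨i, by omega⟩, ⟨j, by omega⟩))
    have e2 : (c (⟨i, by omega⟩, ⟨j, by omega⟩)).2 := by
      rw [← e1 k l hkl hl]
      exact heq
    have e3 : x i (s 0) = x j (s 1) := by
      rw [e1 0 1 (by omega) (by omega)]
      exact e2
    have e4 : x i (s 0) = x j (s 2) := by
      rw [e1 0 2 (by omega) (by omega)]
      exact e2
    exact S.ne_of_lt (hCB.mono j hj (s 1) (s 2) (hs1 1 2 (by omega) (by omega))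
      (hs2 2 (by omega))) (e3.symm.trans e4)
  refine ⟨fun i k => x i (s k),
    fun i j => ∃ (hi : i < r + 1) (hj : j < r + 1), (c (⟨i, hi⟩, ⟨j, hj⟩)).1, ?_⟩
  refine
    { cb :=
        { cls := fun j hj k hk => hCB.cls j hj (s k) (hs2' k hk)
          mono := fun j hj k l hkl hl => hCB.mono j hj (s k) (s l) (hs1' k l hkl hl) (hs2' l hl)
          step := fun j hj => Or.inr (stp_sub hs1' hs2' (hStp j hj))
          k0 := hCB.k0
          e0 := hCB.e0
          clo := fun k hk l hl => hCB.clo (s k) (hs2' k hk) (s l) (hs2' l hl) }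
      stp := fun j hj => stp_sub hs1' hs2' (hStp j hj)
      dis := ?_
      rel := ?_ }
  · intro i hi j hj k hk l hl hkl
    rcases lt_or_gt_of_ne hkl with h1 | h1
    · exact hne i hi j hj k l h1 (hl.trans_le hM)
    · exact (hne j hj i hi l k h1 (hk.trans_le hM)).symm
  · intro i hi j hj k l hkl hl
    have e1 : (S.G.Adj (x i (s k)) (x j (s l))) = (c (⟨i, by omega⟩, ⟨j, by omega⟩)).1 :=
      congrArg Prod.fst (congrFun (hs3 k l hkl (hl.trans_le hM)) (⟨i, by omega⟩, ⟨j, by omega⟩))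
    show S.G.Adj (x i (s k)) (x j (s l)) ↔ _
    rw [e1]
    exact ⟨fun h1 => ⟨by omega, by omega, h1⟩, fun ⟨_, _, h1⟩ => h1⟩

end Pool.Agent.MPd439b2.X2
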