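import Pool.Agent.Lib.MP_d439b2_co.X2.SpecA

/-!
# MP_d439b2_co, X2: Main, the bounded width theorem for staircase structures
-/

set_option autoImplicit false

namespace Pool.Agent.MPd439b2.X2

open Pool.Agent.MPd439b2 Pool.Agent.MPd439b2.W

namespace MainP

variable {V : Type} {n : ℕ} {S : St V n} {m m' r : ℕ} {x : ℕ → ℕ → V} {κ : ℕ → Fin n}
  {e : ℕ → Bool}

theorem rung_mono {i j : ℕ} (hm : m' ≤ m) (h : Rung S m x κ e i j) : Rung S m' x κ e i j :=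
  ⟨h.1, h.2.1, fun k l hkl hl => h.2.2 k l hkl (hl.trans_le hm)⟩

theorem stp_mono {i j : ℕ} (hm : m' ≤ m) (h : Stp S m x κ e i j) : Stp S m' x κ e i j :=
  ⟨h.1, h.2.1, fun k hk l hl hkl => h.2.2 k (hk.trans_le hm) l (hl.trans_le hm) hkl⟩

theorem cb_mono (hm : m' ≤ m) (h : CB S m r x κ e) : CB S m' r x κ e :=
  ⟨fun j hj k hk => h.cls j hj k (hk.trans_le hm),
    fun j hj k l hkl hl => h.mono j hj k l hkl (hl.trans_le hm),
    fun j hj => (h.step j hj).imp (rung_mono hm) (stp_mono hm), h.k0, h.e0,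
    fun k hk l hl => h.clo k (hk.trans_le hm) l (hl.trans_le hm)⟩

end MainP

theorem mainX (h1 : S_CarvL) (h2 : S_CBOr) (h3 : S_NoRung) (h4 : S_HomB) (h5 : S_Cut) :
    S_Main := by
  classical
  intro n M
  choose H hH using fun r => h4 r (M + 2)
  obtain ⟨N₀, hN₀⟩ := h2 n (fun r => 3 ^ r * (2 + ∑ r' ∈ Finset.range (r + 1), H r')) (by
    intro r
    have h6 : 1 ≤ 3 ^ r := Nat.one_le_pow _ _ (by norm_num)
    calc 2 ≤ 1 * (2 + ∑ r' ∈ Finset.range (r + 1), H r') := by omega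
      _ ≤ 3 ^ r * (2 + ∑ r' ∈ Finset.range (r + 1), H r') := Nat.mul_le_mul_right _ h6)
  refine ⟨TB n N₀ + 1, fun V _ S => ?_⟩
  have : Fintype (Pt S) := Fintype.ofFinite _
  rcases hN₀ V S with hc | ⟨r, x, κ, e, hcb⟩
  · exact Or.inl (h1 V n S N₀ hc)
  · right
    obtain ⟨r', hr', x', κ', e', hcb', hst⟩ :=
      h3 V n S (2 + ∑ r' ∈ Finset.range (r + 1), H r') r x κ e (by omega) hcb
    have hle : H r' ≤ 2 + ∑ r' ∈ Finset.range (r + 1), H r' := by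
      have h6 : H r' ≤ ∑ r' ∈ Finset.range (r + 1), H r' :=
        Finset.single_le_sum (f := H) (fun i _ => Nat.zero_le _) (Finset.mem_range.2 (by omega))
      omega
    obtain ⟨x₁, E₁, hHB₁⟩ := hH r' V n S x' κ' e' (MainP.cb_mono hle hcb')
      (fun j hj => MainP.stp_mono hle (hst j hj))
    have hex : ∃ r : ℕ, ∃ (x : ℕ → ℕ → V) (κ : ℕ → Fin n) (e : ℕ → Bool) (E : ℕ → ℕ → Prop),
        HB S (M + 2) r x κ e E := ⟨r', x₁, κ', e', E₁, hHB₁⟩
    obtain ⟨x₀, κ₀, e₀, E₀, hHB⟩ := Nat.find_spec hex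
    refine ⟨Nat.find hex, x₀, κ₀, e₀, E₀, hHB, ?_, ?_⟩
    · by_contra hcon
      have h01 : Nat.find hex = 0 ∨ Nat.find hex = 1 := by omega
      rcases h01 with h0 | h0
      · have h6 := hHB.cb.clo 0 (by omega) 0 (by omega)
        rw [h0] at h6
        exact S.ne_of_lt h6 rfl
      · have h6 := (hHB.stp 0 (by omega)).1
        have h7 := hHB.cb.k0
        rw [h0] at h7
        exact h6 h7
    · intro i j hij hj hs
      obtain ⟨r₂, hr₂, x₂, κ₂, e₂, E₂, h6⟩ := h5 V n S (M + 2) _ x₀ κ₀ e₀ E₀ i j hHB hij hj hs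
      exact Nat.find_min hex hr₂ ⟨x₂, κ₂, e₂, E₂, h6⟩

end Pool.Agent.MPd439b2.X2
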