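import Pool.Agent.Lib.MP_d439b2_co.X2.SpecA

/-!
# MP_d439b2_co, X2: removing the rungs (A8)
-/

set_option autoImplicit false

namespace Pool.Agent.MPd439b2.X2

open Pool.Agent.MPd439b2 Pool.Agent.MPd439b2.W

private theorem nr_rsymm {V : Type} {n : ℕ} {S : St V n} {m : ℕ} {x : ℕ → ℕ → V} {κ : ℕ → Fin n}
    {e : ℕ → Bool} {i j : ℕ} (h : Rung S m x κ e i j) : Rung S m x κ e j i := by
  refine ⟨h.1.symm, h.2.1.symm, fun k l hkl hl => ?_⟩
  have h' := h.2.2 k l hkl hl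
  rw [h.2.1] at h'
  exact ⟨h'.2, h'.1⟩

private theorem nr_ssymm {V : Type} {n : ℕ} {S : St V n} {m : ℕ} {x : ℕ → ℕ → V} {κ : ℕ → Fin n}
    {e : ℕ → Bool} {i j : ℕ} (h : Stp S m x κ e i j) : Stp S m x κ e j i := by
  obtain ⟨h1, h2, h3⟩ := h
  refine ⟨fun h => h1 h.symm, ?_, fun k hk l hl hkl => ?_⟩
  · constructor
    · intro h h'
      exact h2.1 h' h
    · intro h
      by_contra hc
      exact h (h2.2 hc)
  · have h' := h3 l hl k hk (Ne.symm hkl)
    have h4 : l < k ↔ ¬ k < l := by omega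
    rw [SimpleGraph.adj_comm, h', h2, h4]
    tauto

private theorem nr_symm {V : Type} {n : ℕ} {S : St V n} {m : ℕ} {x : ℕ → ℕ → V} {κ : ℕ → Fin n}
    {e : ℕ → Bool} {i j : ℕ} (h : Rung S m x κ e i j ∨ Stp S m x κ e i j) :
    Rung S m x κ e j i ∨ Stp S m x κ e j i :=
  h.imp nr_rsymm nr_ssymm

private theorem nr_rres {V : Type} {n : ℕ} {S : St V n} {m M : ℕ} {x : ℕ → ℕ → V} {κ : ℕ → Fin n}
    {e : ℕ → Bool} {i j : ℕ} (φ : ℕ → ℕ) (h1 : ∀ k l, k < l → l < m → φ k < φ l)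
    (h2 : ∀ k < m, φ k < M) (h : Rung S M x κ e i j) :
    Rung S m (fun p k => x p (φ k)) κ e i j :=
  ⟨h.1, h.2.1, fun k l hkl hl => h.2.2 (φ k) (φ l) (h1 k l hkl hl) (h2 l hl)⟩

private theorem nr_sres {V : Type} {n : ℕ} {S : St V n} {m M : ℕ} {x : ℕ → ℕ → V} {κ : ℕ → Fin n}
    {e : ℕ → Bool} {i j : ℕ} (φ : ℕ → ℕ) (h1 : ∀ k l, k < l → l < m → φ k < φ l)
    (h2 : ∀ k < m, φ k < M) (h : Stp S M x κ e i j) :
    Stp S m (fun p k => x p (φ k)) κ e i j := by
  refine ⟨h.1, h.2.1, fun k hk l hl hkl => ?_⟩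
  have hne : φ k ≠ φ l := by
    rcases lt_or_gt_of_ne hkl with h' | h'
    · exact ne_of_lt (h1 k l h' hl)
    · exact ne_of_gt (h1 l k h' hk)
  have hiff : φ k < φ l ↔ k < l := by
    constructor
    · intro h'
      by_contra hc
      have h3 := h1 l k (by omega) hk
      omega
    · intro h'
      exact h1 k l h' hl
  have h' := h.2.2 (φ k) (h2 k hk) (φ l) (h2 l hl) hne
  rw [hiff] at h'
  exact h'

private theorem nr_res {V : Type} {n : ℕ} {S : St V n} {m M : ℕ} {x : ℕ → ℕ → V} {κ : ℕ → Fin n}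
    {e : ℕ → Bool} {i j : ℕ} (φ : ℕ → ℕ) (h1 : ∀ k l, k < l → l < m → φ k < φ l)
    (h2 : ∀ k < m, φ k < M) (h : Rung S M x κ e i j ∨ Stp S M x κ e i j) :
    Rung S m (fun p k => x p (φ k)) κ e i j ∨ Stp S m (fun p k => x p (φ k)) κ e i j :=
  h.imp (nr_rres φ h1 h2) (nr_sres φ h1 h2)

/-- deleting the rail `p` -/
private theorem nr_del (hC : S_Comp) {V : Type} {n : ℕ} {S : St V n} {m r : ℕ} {x : ℕ → ℕ → V}
    {κ : ℕ → Fin n} {e : ℕ → Bool} (hcb : CB S (3 * m) (r + 1) x κ e) (p : ℕ) (h1 : 1 ≤ p)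
    (hpr : p ≤ r) (hr : Rung S (3 * m) x κ e (p - 1) p ∨ Rung S (3 * m) x κ e p (p + 1)) :
    ∃ (x' : ℕ → ℕ → V) (κ' : ℕ → Fin n) (e' : ℕ → Bool), CB S m r x' κ' e' := by
  have hφ1 : ∀ k l, k < l → l < m → 3 * k + 1 < 3 * l + 1 := by omega
  have hφ2 : ∀ k < m, 3 * k + 1 < 3 * m := by omega
  let g : ℕ → ℕ := fun i => if i < p then i else i + 1
  have hg1 : ∀ i, i < p → g i = i := fun i hi => if_pos hi
  have hg2 : ∀ i, p ≤ i → g i = i + 1 := fun i hi => if_neg (by omega)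
  have hgle : ∀ i ≤ r, g i ≤ r + 1 := by
    intro i hi
    by_cases h : i < p
    · rw [hg1 i h]
      omega
    · rw [hg2 i (by omega)]
      omega
  have hg0 : g 0 = 0 := hg1 0 (by omega)
  have hgr : g r = r + 1 := hg2 r hpr
  refine ⟨fun i k => x (g i) (3 * k + 1), fun i => κ (g i), fun i => e (g i), ?_, ?_, ?_, ?_, ?_, ?_⟩
  · intro j hj k hk
    exact hcb.cls (g j) (hgle j hj) (3 * k + 1) (hφ2 k hk)
  · intro j hj k l hkl hl
    exact hcb.mono (g j) (hgle j hj) (3 * k + 1) (3 * l + 1) (hφ1 k l hkl hl) (hφ2 l hl)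
  · intro i hi
    change Rung S m (fun p k => x p (3 * k + 1)) κ e (g i) (g (i + 1)) ∨
      Stp S m (fun p k => x p (3 * k + 1)) κ e (g i) (g (i + 1))
    by_cases hip : i + 1 < p
    · rw [hg1 i (by omega), hg1 (i + 1) hip]
      exact nr_res (fun k => 3 * k + 1) hφ1 hφ2 (hcb.step i (by omega))
    · by_cases hip' : p ≤ i
      · rw [hg2 i hip', hg2 (i + 1) (by omega)]
        exact nr_res (fun k => 3 * k + 1) hφ1 hφ2 (hcb.step (i + 1) (by omega))
      · have hi1 : p = i + 1 := by omega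
        rw [hg1 i (by omega), hg2 (i + 1) (by omega)]
        have s1 := hcb.step i (by omega)
        have s2 := hcb.step (i + 1) (by omega)
        rw [hi1] at hr
        rcases hr with hr | hr
        · refine hC V n S m x κ e i (i + 1) (i + 1 + 1) ?_ hr s2
          intro k hk
          exact ⟨hcb.cls i (by omega) k hk, hcb.cls (i + 1) (by omega) k hk,
            hcb.cls (i + 1 + 1) (by omega) k hk⟩
        · apply nr_symm
          refine hC V n S m x κ e (i + 1 + 1) (i + 1) i ?_ (nr_rsymm hr) (nr_symm s1)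
          intro k hk
          exact ⟨hcb.cls (i + 1 + 1) (by omega) k hk, hcb.cls (i + 1) (by omega) k hk,
            hcb.cls i (by omega) k hk⟩
  · change κ (g 0) = κ (g r)
    rw [hg0, hgr]
    exact hcb.k0
  · change e (g 0) = e (g r)
    rw [hg0, hgr]
    exact hcb.e0
  · intro k hk l hl
    change S.lt (e (g 0)) (x (g 0) (3 * k + 1)) (x (g r) (3 * l + 1))
    rw [hg0, hgr]
    exact hcb.clo (3 * k + 1) (hφ2 k hk) (3 * l + 1) (hφ2 l hl)

private theorem nr_one (hC : S_Comp) {V : Type} {n : ℕ} {S : St V n} {m r : ℕ} {x : ℕ → ℕ → V}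
    {κ : ℕ → Fin n} {e : ℕ → Bool} (hm : 1 ≤ m) (hcb : CB S (3 * m) (r + 1) x κ e) (j : ℕ)
    (hj : j ≤ r) (hr : Rung S (3 * m) x κ e j (j + 1)) :
    ∃ (x' : ℕ → ℕ → V) (κ' : ℕ → Fin n) (e' : ℕ → Bool), CB S m r x' κ' e' := by
  by_cases hjr : j < r
  · exact nr_del hC hcb (j + 1) (by omega) hjr (Or.inl hr)
  · have hjr' : j = r := by omega
    subst hjr'
    by_cases hj0 : j = 0
    · exfalso
      subst hj0
      have h1 := hcb.clo 1 (by omega) 0 (by omega)
      have h2 := (hr.2.2 0 1 (by omega) (by omega)).2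
      rw [S.lt_iff] at h1
      exact h1 h2
    · exact nr_del hC hcb j (by omega) le_rfl (Or.inr hr)

theorem noRung (h1 : S_Comp) : S_NoRung := by
  intro V n S m r
  induction r with
  | zero =>
    intro x κ e _ hcb
    rw [pow_zero, one_mul] at hcb
    exact ⟨0, le_rfl, x, κ, e, hcb, fun j hj => absurd hj (by omega)⟩
  | succ r ih =>
    intro x κ e hm hcb
    have hpow : 3 ^ (r + 1) * m = 3 * (3 ^ r * m) := by ring
    have hpos : 1 ≤ 3 ^ r := Nat.one_le_pow _ _ (by omega)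
    have hmm : m ≤ 3 ^ r * m := by nlinarith
    rw [hpow] at hcb
    by_cases hex : ∃ j ≤ r, Rung S (3 * (3 ^ r * m)) x κ e j (j + 1)
    · obtain ⟨j, hj, hr⟩ := hex
      obtain ⟨x', κ', e', hcb'⟩ := nr_one h1 (by omega) hcb j hj hr
      obtain ⟨r', hr', h⟩ := ih x' κ' e' hm hcb'
      exact ⟨r', by omega, h⟩
    · have hst : ∀ j ≤ r, Stp S (3 * (3 ^ r * m)) x κ e j (j + 1) := by
        intro j hj
        rcases hcb.step j (by omega) with h | h
        · exact absurd ⟨j, hj, h⟩ hex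
        · exact h
      have hst' : ∀ j ≤ r, Stp S m x κ e j (j + 1) := fun j hj =>
        nr_sres (fun k => k) (fun k l hkl _ => hkl) (fun k hk => by omega) (hst j hj)
      refine ⟨r + 1, le_rfl, x, κ, e, ⟨?_, ?_, ?_, hcb.k0, hcb.e0, ?_⟩, fun j hj => hst' j (by omega)⟩
      · intro j hj k hk
        exact hcb.cls j hj k (by omega)
      · intro j hj k l hkl hl
        exact hcb.mono j hj k l hkl (by omega)
      · intro j hj
        exact Or.inr (hst' j (by omega))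
      · intro k hk l hl
        exact hcb.clo k (by omega) l (by omega)

end Pool.Agent.MPd439b2.X2
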