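import Pool.Agent.Lib.MP_d439b2_co.X2.SpecA

/-!
# MP_d439b2_co, X2: the patterns of the structures with all signs `true` (A14)
-/

set_option autoImplicit false

namespace Pool.Agent.MPd439b2.X2

open Pool.Agent.MPd439b2 Pool.Agent.MPd439b2.W

/-- the condition `r ≥ 4` follows from the others -/
private theorem pl_mk {V : Type} {G : SimpleGraph V} {M r : ℕ} {x : ℕ → ℕ → V}
    {E : ℕ → ℕ → Prop} (ev : r % 2 = 0) (two : 2 ≤ r)
    (dis : ∀ i ≤ r, ∀ j ≤ r, ∀ k < M, ∀ l < M, k ≠ l → x i k ≠ x j l)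
    (rel : ∀ i ≤ r, ∀ j ≤ r, ∀ k l, k < l → l < M → (G.Adj (x i k) (x j l) ↔ E i j))
    (su : ∀ i < r, i % 2 = 0 → E i (i + 1) ∧ ¬ E (i + 1) i)
    (sd : ∀ i < r, i % 2 = 1 → E (i + 1) i ∧ ¬ E i (i + 1))
    (non : ∀ i j, i + 2 ≤ j → j ≤ r → (E i j ↔ E j i))
    (ends : (E 0 r ↔ E 0 0) ∧ (E r r ↔ E 0 0))
    (clo : ∀ j, 0 < j → j < r → E j r ∨ E r j → E j 0 ∧ E 0 j) : PB G M r x E := by
  refine ⟨ev, ?_, dis, rel, su, sd, non, ends, clo⟩
  by_contra h
  have hr : r = 2 := by omega
  subst hr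
  have h1 := (sd 1 (by omega) (by omega)).1
  have h2 := (su 0 (by omega) (by omega)).2
  exact h2 (clo 1 (by omega) (by omega) (Or.inr h1)).1

theorem plus (h1 : S_Non) (h2 : S_Clo) : S_Plus := by
  intro V n S M r x κ e E hM hb hr hs hno
  have hstp : ∀ j < r, κ j ≠ κ (j + 1) ∧ (e j = true ↔ ¬ e (j + 1) = true) ∧
      ∀ k < M, ∀ l < M, k ≠ l → (S.G.Adj (x j k) (x (j + 1) l) ↔ (k < l ↔ e j = true)) := by
    intro j hj
    have h := hb.stp j hj
    unfold Stp at h
    simp only [hs] at h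
    exact h
  have halt : ∀ j ≤ r, (e j = true ↔ (e 0 = true ↔ j % 2 = 0)) := by
    intro j
    induction j with
    | zero =>
      intro _
      constructor
      · intro h
        exact ⟨fun _ => rfl, fun _ => h⟩
      · intro h
        exact h.2 rfl
    | succ j ih =>
      intro hj
      have h3 := ih (by omega)
      have h4 := (hstp j (by omega)).2.1
      have h5 : (j + 1) % 2 = 0 ↔ ¬ j % 2 = 0 := by omega
      rw [h5]
      rw [h3] at h4
      by_cases a : e 0 = true <;> by_cases b : e (j + 1) = true <;> by_cases c : j % 2 = 0 <;>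
        simp only [a, b, c] at h4 ⊢ <;> simp at h4 ⊢
  have hev : r % 2 = 0 := by
    have h3 := halt r le_rfl
    have h4 := hb.cb.e0
    rw [← h4] at h3
    by_contra hc
    by_cases a : e 0 = true
    · exact hc ((h3.1 a).1 a)
    · exact a (h3.2 ⟨fun h => absurd h a, fun h => absurd h hc⟩)
  have hE1 : ∀ j < r, (E j (j + 1) ↔ e j = true) := by
    intro j hj
    rw [← hb.rel j (by omega) (j + 1) (by omega) 0 1 (by omega) (by omega),
      (hstp j hj).2.2 0 (by omega) 1 (by omega) (by omega)]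
    exact ⟨fun h => h.1 (by omega), fun h => ⟨fun _ => h, fun _ => by omega⟩⟩
  have hE2 : ∀ j < r, (E (j + 1) j ↔ ¬ e j = true) := by
    intro j hj
    rw [← hb.rel (j + 1) (by omega) j (by omega) 0 1 (by omega) (by omega),
      SimpleGraph.adj_comm, (hstp j hj).2.2 1 (by omega) 0 (by omega) (by omega)]
    constructor
    · intro h h'
      have h3 := h.2 h'
      omega
    · intro h
      exact ⟨fun h' => absurd h' (by omega), fun h' => absurd h' h⟩
  have hnon : ∀ i j, i + 2 ≤ j → j ≤ r → (E i j ↔ E j i) := by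
    intro i j hij hj
    exact h1 V n S M r x κ e E i j hM hb (by omega) hj (by omega) (hno i j hij hj)
  have c0 := (h2 V n S M r x κ e E 0 hM hb (by omega)).1 rfl
  have cr := (h2 V n S M r x κ e E r hM hb le_rfl).1 hb.cb.k0.symm
  by_cases he : e 0 = true
  · refine ⟨x, E, pl_mk hev hr hb.dis hb.rel ?_ ?_ hnon ?_ ?_⟩
    · intro i hi hi2
      have h3 : e i = true := (halt i (by omega)).2 ⟨fun _ => hi2, fun _ => he⟩
      rw [hE1 i hi, hE2 i hi]
      exact ⟨h3, fun h => h h3⟩
    · intro i hi hi2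
      have h3 : ¬ e i = true := by
        intro h
        have h4 := ((halt i (by omega)).1 h).1 he
        omega
      rw [hE1 i hi, hE2 i hi]
      exact ⟨h3, h3⟩
    · rw [c0.1, c0.2.2.1, cr.2.2.1]
      exact ⟨Iff.rfl, Iff.rfl⟩
    · intro j hj0 hjr hor
      obtain ⟨g1, g2, -⟩ := h2 V n S M r x κ e E j hM hb (by omega)
      by_cases hκ : κ j = κ 0
      · obtain ⟨k1, k2, k3, k4⟩ := g1 hκ
        rw [k3, k4] at hor
        rw [k1, k2]
        have ht := hor.elim id id
        exact ⟨ht, ht⟩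
      · exact g2 hκ (by rw [hs]; exact he) hor
  · refine ⟨fun j k => x (r - j) (M - 1 - k), fun i j => E (r - j) (r - i),
      pl_mk hev hr ?_ ?_ ?_ ?_ ?_ ?_ ?_⟩
    · intro i _ j _ k hk l hl hkl
      exact hb.dis (r - i) (by omega) (r - j) (by omega) (M - 1 - k) (by omega) (M - 1 - l)
        (by omega) (by omega)
    · intro i _ j _ k l hkl hl
      rw [SimpleGraph.adj_comm]
      exact hb.rel (r - j) (by omega) (r - i) (by omega) (M - 1 - l) (M - 1 - k) (by omega)
        (by omega)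
    · intro i hi hi2
      obtain ⟨j, hj⟩ : ∃ j, r = i + j + 1 := ⟨r - i - 1, by omega⟩
      have e1 : r - (i + 1) = j := by omega
      have e2 : r - i = j + 1 := by omega
      have h3 : e j = true :=
        (halt j (by omega)).2 ⟨fun h => absurd h he, fun h => absurd h (by omega)⟩
      change E (r - (i + 1)) (r - i) ∧ ¬ E (r - i) (r - (i + 1))
      rw [e1, e2, hE1 j (by omega), hE2 j (by omega)]
      exact ⟨h3, fun h => h h3⟩
    · intro i hi hi2
      obtain ⟨j, hj⟩ : ∃ j, r = i + j + 1 := ⟨r - i - 1, by omega⟩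
      have e1 : r - (i + 1) = j := by omega
      have e2 : r - i = j + 1 := by omega
      have h3 : ¬ e j = true := by
        intro h
        exact he (((halt j (by omega)).1 h).2 (by omega))
      change E (r - i) (r - (i + 1)) ∧ ¬ E (r - (i + 1)) (r - i)
      rw [e1, e2, hE1 j (by omega), hE2 j (by omega)]
      exact ⟨h3, h3⟩
    · intro i j hij hj
      exact hnon (r - j) (r - i) (by omega) (by omega)
    · change (E (r - r) (r - 0) ↔ E (r - 0) (r - 0)) ∧ (E (r - r) (r - r) ↔ E (r - 0) (r - 0))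
      rw [Nat.sub_self, Nat.sub_zero, c0.1, c0.2.2.1, cr.2.2.1]
      exact ⟨Iff.rfl, Iff.rfl⟩
    · intro j hj0 hjr hor
      change E (r - r) (r - j) ∨ E (r - j) (r - r) at hor
      change E (r - 0) (r - j) ∧ E (r - j) (r - 0)
      rw [Nat.sub_self] at hor
      rw [Nat.sub_zero]
      obtain ⟨g1, -, g3⟩ := h2 V n S M r x κ e E (r - j) hM hb (by omega)
      by_cases hκ : κ (r - j) = κ 0
      · obtain ⟨k1, k2, k3, k4⟩ := g1 hκ
        rw [k1, k2] at hor
        rw [k3, k4]
        have ht := hor.elim id id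
        exact ⟨ht, ht⟩
      · exact (g3 hκ (by rw [hs]; exact he) hor.symm).symm

end Pool.Agent.MPd439b2.X2
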