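import Pool.Agent.Lib.MP_d439b2_co.X2.SpecA

/-!
# MP_d439b2_co, X2, Ram3: Ramsey theorem for triples
-/

set_option autoImplicit false

namespace Pool.Agent.MPd439b2.X2

open Pool.Agent.MPd439b2 Pool.Agent.MPd439b2.W

private theorem ram3_step (κ : Type) [Finite κ] (d : ℕ) : ∀ p : ℕ, ∃ R : ℕ,
    ∀ (χ : ℕ → ℕ → ℕ → κ) (u : ℕ → ℕ) (A : Finset ℕ), R ≤ A.card →
    ∃ x : ℕ → ℕ, (∀ k l, k < l → l < d → x k < x l) ∧ (∀ k < d, x k ∈ A) ∧
      (∀ h < p, ∀ i j k, i < j → i < k → j < d → k < d →
        χ (u h) (x i) (x j) = χ (u h) (x i) (x k)) ∧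
      ∀ h i j k, h < i → i < j → i < k → j < d → k < d →
        χ (x h) (x i) (x j) = χ (x h) (x i) (x k) := by
  classical
  induction d with
  | zero =>
    intro p
    exact ⟨0, fun χ u A _ => ⟨fun k => k, fun k l _ h => absurd h (by omega),
      fun k h => absurd h (by omega), fun h _ i j k _ _ hj => absurd hj (by omega),
      fun h i j k _ _ _ hj => absurd hj (by omega)⟩⟩
  | succ d ih =>
    intro p
    obtain ⟨R, hR⟩ := ih (p + 1)
    have : Fintype κ := Fintype.ofFinite κ
    refine ⟨Fintype.card (Fin p → κ) * R + 1, fun χ u A hA => ?_⟩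
    have hne : A.Nonempty := Finset.card_pos.1 (by omega)
    set a : ℕ := A.min' hne with ha
    have haA : a ∈ A := Finset.min'_mem A hne
    have hcard : Fintype.card (Fin p → κ) * R ≤ (A.erase a).card := by
      rw [Finset.card_erase_of_mem haA]
      omega
    obtain ⟨y, _, hy⟩ := Finset.exists_le_card_fiber_of_mul_le_card_of_maps_to
      (s := A.erase a) (t := (Finset.univ : Finset (Fin p → κ)))
      (f := fun b => fun h : Fin p => χ (u h) a b) (n := R) (fun _ _ => Finset.mem_univ _)
      ⟨fun _ => χ 0 0 0, Finset.mem_univ _⟩ (by rw [Finset.card_univ]; exact hcard)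
    obtain ⟨x, hx1, hx2, hx3, hx4⟩ := hR χ (fun h => if h < p then u h else a) _ hy
    have hB : ∀ k < d, x k ∈ A ∧ a < x k ∧ ∀ h : Fin p, χ (u h) a (x k) = y h := by
      intro k hk
      have h1 := Finset.mem_filter.1 (hx2 k hk)
      have h2 := Finset.mem_erase.1 h1.1
      refine ⟨h2.2, lt_of_le_of_ne (Finset.min'_le A _ h2.2) (Ne.symm h2.1), fun h => ?_⟩
      exact congrFun h1.2 h
    refine ⟨fun i => if i = 0 then a else x (i - 1), ?_, ?_, ?_, ?_⟩
    · intro k l hkl hl
      by_cases hk : k = 0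
      · simp only [if_pos hk, if_neg (show ¬ l = 0 by omega)]
        exact (hB (l - 1) (by omega)).2.1
      · simp only [if_neg hk, if_neg (show ¬ l = 0 by omega)]
        exact hx1 _ _ (by omega) (by omega)
    · intro k hk
      by_cases h0 : k = 0
      · simp only [if_pos h0]
        exact haA
      · simp only [if_neg h0]
        exact (hB (k - 1) (by omega)).1
    · intro h hh i j k hij hik hj hk
      simp only [if_neg (show ¬ j = 0 by omega), if_neg (show ¬ k = 0 by omega)]
      by_cases h0 : i = 0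
      · simp only [if_pos h0]
        rw [(hB (j - 1) (by omega)).2.2 ⟨h, hh⟩, (hB (k - 1) (by omega)).2.2 ⟨h, hh⟩]
      · simp only [if_neg h0]
        have h1 := hx3 h (by omega) (i - 1) (j - 1) (k - 1) (by omega) (by omega) (by omega)
          (by omega)
        simp only [if_pos hh] at h1
        exact h1
    · intro h i j k hhi hij hik hj hk
      simp only [if_neg (show ¬ i = 0 by omega), if_neg (show ¬ j = 0 by omega),
        if_neg (show ¬ k = 0 by omega)]
      by_cases h0 : h = 0
      · simp only [if_pos h0]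
        have h1 := hx3 p (by omega) (i - 1) (j - 1) (k - 1) (by omega) (by omega) (by omega)
          (by omega)
        simp only [if_neg (lt_irrefl p)] at h1
        exact h1
      · simp only [if_neg h0]
        exact hx4 _ _ _ _ (by omega) (by omega) (by omega) (by omega) (by omega)

theorem ram3 (hR : S_RamC) : S_Ram3 := by
  intro κ _ m
  obtain ⟨N, hN⟩ := hR κ m
  obtain ⟨R, hR⟩ := ram3_step κ (N + 1) 0
  refine ⟨R, fun χ => ?_⟩
  obtain ⟨x, hx1, hx2, _, hx4⟩ := hR χ (fun k => k) (Finset.range R) (by simp)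
  obtain ⟨s, c, hs1, hs2, hs3⟩ := hN fun i j => χ (x i) (x j) (x N)
  refine ⟨fun k => x (s k), c, ?_, ?_, ?_⟩
  · intro k l hkl hl
    exact hx1 _ _ (hs1 k l hkl hl) (by have := hs2 l hl; omega)
  · intro k hk
    exact Finset.mem_range.1 (hx2 _ (by have := hs2 k hk; omega))
  · intro i j k hij hjk hk
    have h1 := hs1 i j hij (by omega)
    have h2 := hs1 j k hjk hk
    have h3 := hs2 k hk
    rw [← hs3 i j hij (by omega)]
    exact hx4 _ _ _ _ h1 h2 (by omega) (by omega) (by omega)

end Pool.Agent.MPd439b2.X2
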