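import Pool.Agent.Lib.MP_d439b2_co.X2.SpecA

/-!
# MP_d439b2_co, X2: the skeleton is symmetric
-/

set_option autoImplicit false

namespace Pool.Agent.MPd439b2.X2

open Pool.Agent.MPd439b2 Pool.Agent.MPd439b2.W

namespace SymP

variable {V : Type} {n : ℕ} {S : St V n}

theorem sg_anti {x y : Pt S} (h : x ≤ y) : y.sg ≤ x.sg := (Pt.sg_le x y).2 h

theorem sg_lt {x y : Pt S} : y.sg < x.sg ↔ x < y := by
  rw [lt_iff_le_not_ge, lt_iff_le_not_ge, Pt.sg_le, Pt.sg_le]

theorem hc {x y : Pt S} (h : x.ch = y.ch) : x.sg.ch = y.sg.ch := (Pt.ch_sg x y).2 h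

theorem cons_dual [Fintype (Pt S)] {x y : Pt S}
    (h : Cons (Pt.ch (S := S)) Finset.univ x y) : Cons (Pt.ch (S := S)) Finset.univ y.sg x.sg := by
  obtain ⟨_, _, h1, h2, h3⟩ := h
  refine ⟨Finset.mem_univ _, Finset.mem_univ _, hc h1.symm, sg_lt.2 h2, ?_⟩
  intro z _ hz hlt
  have hz1 : z.sg.ch = x.ch := by
    have := hc hz
    rw [Pt.sg_sg] at this
    rw [this, h1]
  have hz2 : z.sg < y := by
    rw [← sg_lt, Pt.sg_sg]
    exact hlt
  have hle : z.sg ≤ x := by
    rcases Pt.chainP S z.sg x hz1 with h4 | h4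
    · exact h4
    · rcases eq_or_lt_of_le h4 with h5 | h5
      · exact le_of_eq h5.symm
      · exact absurd (h3 _ (Finset.mem_univ _) hz1 h5) (not_le_of_gt hz2)
  have := sg_anti hle
  rwa [Pt.sg_sg] at this

theorem ess_dual {x y : Pt S} (h : Ess (Pt.ch (S := S)) x y) :
    Ess (Pt.ch (S := S)) y.sg x.sg := by
  obtain ⟨h1, h2, h3, h4⟩ := h
  refine ⟨?_, sg_anti h2, ?_, ?_⟩
  · intro h5
    have := hc h5
    rw [Pt.sg_sg, Pt.sg_sg] at this
    exact h1 this.symm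
  · intro z hz hle
    have hz1 : z.sg.ch = y.ch := by
      have := hc hz
      rwa [Pt.sg_sg] at this
    have hz2 : x ≤ z.sg := by
      have := sg_anti hle
      rwa [Pt.sg_sg] at this
    have := sg_anti (h4 _ hz1 hz2)
    rwa [Pt.sg_sg] at this
  · intro z hz hle
    have hz1 : z.sg.ch = x.ch := by
      have := hc hz
      rwa [Pt.sg_sg] at this
    have hz2 : z.sg ≤ y := by
      have := sg_anti hle
      rwa [Pt.sg_sg] at this
    have := sg_anti (h3 _ hz1 hz2)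
    rwa [Pt.sg_sg] at this

theorem adj_dual [Fintype (Pt S)] {x y : Pt S}
    (h : (Gam (Pt.ch (S := S)) Finset.univ).Adj x y) :
    (Gam (Pt.ch (S := S)) Finset.univ).Adj x.sg y.sg := by
  rcases h with h | h | ⟨_, _, h | h⟩
  · exact Or.inr (Or.inl (cons_dual h))
  · exact Or.inl (cons_dual h)
  · exact Or.inr (Or.inr ⟨Finset.mem_univ _, Finset.mem_univ _, Or.inr (ess_dual h)⟩)
  · exact Or.inr (Or.inr ⟨Finset.mem_univ _, Finset.mem_univ _, Or.inl (ess_dual h)⟩)

end SymP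

theorem symP : S_SymP := by
  intro V n S _ x y
  refine ⟨fun h => ?_, SymP.adj_dual⟩
  have := SymP.adj_dual h
  rwa [Pt.sg_sg, Pt.sg_sg] at this

end Pool.Agent.MPd439b2.X2
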