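import Pool.Agent.Lib.MP_d439b2_co.X2.SpecA

/-!
# MP_d439b2_co, X2: few types (`S_TypesZ`)
-/

set_option autoImplicit false

namespace Pool.Agent.MPd439b2.X2

open Pool.Agent.MPd439b2 Pool.Agent.MPd439b2.W

namespace TypesZAux

variable {V : Type} {n : ℕ}

/-- the trace of a vertex, in terms of the data -/
def Phi (S : St V n) (A X : Set V) (p : Fin n × Set (Pt S) × Set (Pt S) × Set V) : Set V :=
  {u | u ∉ A ∧ ((u ∈ X ∧ u ∈ p.2.2.2) ∨ (u ∉ X ∧ S.c u = p.1 ∧ S.t p.1 = true) ∨
    (u ∉ X ∧ S.c u ≠ p.1 ∧ (S.s p.1 (S.c u) = true ∧ (⟨u, !S.s (S.c u) p.1, true⟩ : Pt S) ∈ p.2.1 ∨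
      S.s p.1 (S.c u) = false ∧ (⟨u, !S.s (S.c u) p.1, true⟩ : Pt S) ∈ p.2.2.1)))}

theorem le_iff (S : St V n) (v u : V) (hc : S.c v ≠ S.c u) :
    (⟨v, S.s (S.c v) (S.c u), false⟩ : Pt S) ≤ ⟨u, !S.s (S.c u) (S.c v), true⟩ ↔ S.G.Adj v u := by
  rw [Pt.le_def]
  constructor
  · rintro (⟨h, _⟩ | ⟨_, _, _, h, _⟩)
    · exact absurd h hc
    · exact h
  · intro h
    exact Or.inr ⟨hc, rfl, rfl, h, rfl, rfl⟩

end TypesZAux

open TypesZAux

theorem typesZ (h1 : S_Exc) (h2 : W.S_Trace) : S_TypesZ := by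
  intro V n _ S _ _ Y N hsg hwt
  have hX := h1 V n S Y N hwt
  have hT := h2 (4 * n) (Pt S) (Pt.ch (S := S)) Y N (Pt.chainP S) hwt
  have key : ∀ X : Set V, X = {v : V | ¬ ((⟨v, true, false⟩ : Pt S) ∈ Y ↔
      (⟨v, true, true⟩ : Pt S) ∈ Y)} → X.ncard ≤ N →
      ∀ TT : Set (Set (Pt S)), TT = {T : Set (Pt S) | ∃ a ∈ Y, T = {b | b ∉ Y ∧ a ≤ b}} →
      TT.ncard ≤ 4 * n * (N + 2) ^ (4 * n) →
      (Types S.G {v : V | (⟨v, true, false⟩ : Pt S) ∈ Y}).encard ≤ (TB n N : ℕ) := by
    intro X hXd hXc TT hTd hTc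
    have hsub : Types S.G {v : V | (⟨v, true, false⟩ : Pt S) ∈ Y} ⊆
        (Phi S {v : V | (⟨v, true, false⟩ : Pt S) ∈ Y} X) ''
          ((Set.univ : Set (Fin n)) ×ˢ (TT ×ˢ (TT ×ˢ (𝒫 X)))) ∪
        (fun v => S.G.neighborSet v \ {v : V | (⟨v, true, false⟩ : Pt S) ∈ Y}) '' X := by
      rintro T ⟨_, v, hv, rfl⟩
      by_cases hvX : v ∈ X
      · exact Or.inr ⟨v, hvX, rfl⟩
      · left
        have hv1 : (⟨v, true, false⟩ : Pt S) ∈ Y := hv
        have hv2 : (⟨v, true, true⟩ : Pt S) ∈ Y := by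
          by_contra h
          apply hvX
          rw [hXd]
          exact fun h' => h (h'.1 hv1)
        have hv3 : (⟨v, false, false⟩ : Pt S) ∈ Y := hsg _ hv2
        refine ⟨(S.c v, {b | b ∉ Y ∧ (⟨v, true, false⟩ : Pt S) ≤ b},
          {b | b ∉ Y ∧ (⟨v, false, false⟩ : Pt S) ≤ b}, S.G.neighborSet v ∩ X),
          ⟨Set.mem_univ _, ?_, ?_, ?_⟩, ?_⟩
        · show {b | b ∉ Y ∧ (⟨v, true, false⟩ : Pt S) ≤ b} ∈ TT
          rw [hTd]
          exact ⟨_, hv1, rfl⟩
        · show {b | b ∉ Y ∧ (⟨v, false, false⟩ : Pt S) ≤ b} ∈ TT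
          rw [hTd]
          exact ⟨_, hv3, rfl⟩
        · exact Set.inter_subset_right
        · ext u
          have hout : u ∉ {v : V | (⟨v, true, false⟩ : Pt S) ∈ Y} → u ∉ X →
              ∀ e : Bool, (⟨u, e, true⟩ : Pt S) ∉ Y := by
            intro hu huX e
            have hu1 : (⟨u, true, false⟩ : Pt S) ∉ Y := hu
            have hu2 : (⟨u, true, true⟩ : Pt S) ∉ Y := by
              intro h
              apply huX
              rw [hXd]
              exact fun h' => hu1 (h'.2 h)
            cases e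
            · intro h
              exact hu1 (hsg _ h)
            · exact hu2
          constructor
          · rintro ⟨hu, hh⟩
            refine ⟨?_, hu⟩
            rcases hh with ⟨_, h⟩ | ⟨huX, hc, ht⟩ | ⟨huX, hc, h⟩
            · exact h.1
            · have hne : v ≠ u := by
                rintro rfl
                exact hu hv
              exact (S.typ v u hne hc.symm).2 ht
            · have hc' : S.c v ≠ S.c u := fun h => hc h.symm
              rcases h with ⟨hs, h⟩ | ⟨hs, h⟩
              · have h3 := h.2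
                have h4 := (le_iff S v u hc').1
                rw [show S.s (S.c v) (S.c u) = true from hs] at h4
                exact h4 h3
              · have h3 := h.2
                have h4 := (le_iff S v u hc').1
                rw [show S.s (S.c v) (S.c u) = false from hs] at h4
                exact h4 h3
          · rintro ⟨hadj, hu⟩
            have hadj' : S.G.Adj v u := hadj
            refine ⟨hu, ?_⟩
            by_cases huX : u ∈ X
            · exact Or.inl ⟨huX, hadj', huX⟩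
            · right
              by_cases hc : S.c u = S.c v
              · exact Or.inl ⟨huX, hc, (S.typ v u hadj'.ne hc.symm).1 hadj'⟩
              · right
                refine ⟨huX, hc, ?_⟩
                have hc' : S.c v ≠ S.c u := fun h => hc h.symm
                have h4 := (le_iff S v u hc').2 hadj'
                cases hs : S.s (S.c v) (S.c u)
                · right
                  rw [hs] at h4
                  exact ⟨rfl, hout hu huX _, h4⟩
                · left
                  rw [hs] at h4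
                  exact ⟨rfl, hout hu huX _, h4⟩
    have hcard1 : ((Set.univ : Set (Fin n)) ×ˢ (TT ×ˢ (TT ×ˢ (𝒫 X)))).ncard =
        n * (TT.ncard * (TT.ncard * 2 ^ X.ncard)) := by
      rw [Set.ncard_prod, Set.ncard_prod, Set.ncard_prod, Set.ncard_powerset, Set.ncard_univ,
        Nat.card_eq_fintype_card, Fintype.card_fin]
    have hb : (Types S.G {v : V | (⟨v, true, false⟩ : Pt S) ∈ Y}).ncard ≤ TB n N := by
      refine (Set.ncard_le_ncard hsub (Set.toFinite _)).trans ?_
      refine (Set.ncard_union_le _ _).trans ?_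
      unfold TB
      refine Nat.add_le_add ?_ ((Set.ncard_image_le (Set.toFinite _)).trans hXc)
      refine (Set.ncard_image_le (Set.toFinite _)).trans ?_
      rw [hcard1]
      calc n * (TT.ncard * (TT.ncard * 2 ^ X.ncard))
          ≤ n * ((4 * n * (N + 2) ^ (4 * n)) * ((4 * n * (N + 2) ^ (4 * n)) * 2 ^ N)) := by
            refine Nat.mul_le_mul le_rfl (Nat.mul_le_mul hTc (Nat.mul_le_mul hTc ?_))
            exact Nat.pow_le_pow_right (by norm_num) hXc
        _ = n * (4 * n * (N + 2) ^ (4 * n)) ^ 2 * 2 ^ N := by ring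
    rw [← (Set.toFinite (Types S.G {v : V | (⟨v, true, false⟩ : Pt S) ∈ Y})).cast_ncard_eq]
    exact_mod_cast hb
  exact key _ rfl hX _ rfl hT

end Pool.Agent.MPd439b2.X2
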