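import Pool.Agent.Lib.MP_d439b2_co.X2.SpecA

/-!
# MP_d439b2_co, X2: B4, the bounded width theorem for graphs without large matchings, co-matchings and
opposite half graphs at a common centre

Proof of `S_Vic` from `S_Main` (A11), `S_Plus` (A14), `S_Anti` (B2) and `S_VicSt` (B3).
-/

set_option autoImplicit false

namespace Pool.Agent.MPd439b2.X2

open Pool.Agent.MPd439b2 Pool.Agent.MPd439b2.W

/-- the pattern of size `M` gives the pattern of every smaller size -/
theorem vic_PB_mono {V : Type} {G : SimpleGraph V} {M M' r : ℕ} {x : ℕ → ℕ → V} {E : ℕ → ℕ → Prop}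
    (h : PB G M' r x E) (hM : M ≤ M') : PB G M r x E where
  ev := h.ev
  four := h.four
  dis := fun i hi j hj k hk l hl => h.dis i hi j hj k (lt_of_lt_of_le hk hM) l (lt_of_lt_of_le hl hM)
  rel := fun i hi j hj k l hkl hl => h.rel i hi j hj k l hkl (lt_of_lt_of_le hl hM)
  su := h.su
  sd := h.sd
  non := h.non
  ends := h.ends
  clo := h.clo

/-- **B4.** -/
theorem vic (h1 : S_Main) (h2 : S_Plus) (h3 : S_Anti) (h4 : S_VicSt) : S_Vic := by
  intro m M
  obtain ⟨w, hw⟩ := h3 m
  obtain ⟨N, hN⟩ := h1 (2 * w) (M + 1)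
  refine ⟨N, ?_⟩
  intro V _ G
  by_cases hA : ∀ A : Finset V, (∀ x ∈ A, ∀ y ∈ A, x ≠ y →
      ¬ G.neighborSet x ⊆ insert y (G.neighborSet y)) → A.card ≤ w
  · obtain ⟨S, hSG, hSs⟩ := h4 V G w hA
    rcases hN V S with hL | ⟨r, x, κ, e, E, hHB, hr, hcut⟩
    · right; right; right; left
      rw [← hSG]
      exact hL
    · right; right; right; right
      obtain ⟨x', E', hPB⟩ := h2 V (2 * w) S (M + 1 + 2) r x κ e E (by omega) hHB hr hSs hcut
      refine ⟨r, x', E', ?_⟩
      rw [← hSG]
      exact vic_PB_mono hPB (by omega)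
  · push Not at hA
    obtain ⟨A, hAinc, hAw⟩ := hA
    have key : MatP G m ∨ ComP G m ∨ OppP G m := by
      haveI : Nonempty V := by
        have hpos : 0 < A.card := lt_of_le_of_lt (Nat.zero_le w) hAw
        obtain ⟨a, _⟩ := Finset.card_pos.mp hpos
        exact ⟨a⟩
      let f := A.equivFin.symm
      let v0 : V := Classical.arbitrary V
      let x : ℕ → V := fun k => if hk : k < A.card then (f ⟨k, hk⟩ : V) else v0
      have hx : ∀ k (hk : k < A.card), x k = (f ⟨k, hk⟩ : V) := by
        intro k hk
        simp only [x, dif_pos hk]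
      apply hw V G x
      intro k hk l hl hkl
      have hk' : k < A.card := lt_trans hk hAw
      have hl' : l < A.card := lt_trans hl hAw
      rw [hx k hk', hx l hl']
      apply hAinc
      · exact (f ⟨k, hk'⟩).2
      · exact (f ⟨l, hl'⟩).2
      · intro heq
        apply hkl
        have h5 : f ⟨k, hk'⟩ = f ⟨l, hl'⟩ := Subtype.ext heq
        have h6 := f.injective h5
        exact congrArg Fin.val h6
    rcases key with h | h | h
    · left; exact h
    · right; left; exact h
    · right; right; left; exact h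

end Pool.Agent.MPd439b2.X2
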