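import Pool.Agent.Lib.MP_d439b2_co.X2.Anti
import Pool.Agent.Lib.MP_d439b2_co.X2.CBOr
import Pool.Agent.Lib.MP_d439b2_co.X2.CarvL
import Pool.Agent.Lib.MP_d439b2_co.X2.Clo
import Pool.Agent.Lib.MP_d439b2_co.X2.Comp
import Pool.Agent.Lib.MP_d439b2_co.X2.Conv
import Pool.Agent.Lib.MP_d439b2_co.X2.Cut
import Pool.Agent.Lib.MP_d439b2_co.X2.Exc
import Pool.Agent.Lib.MP_d439b2_co.X2.HomB
import Pool.Agent.Lib.MP_d439b2_co.X2.Main
import Pool.Agent.Lib.MP_d439b2_co.X2.NoRung
import Pool.Agent.Lib.MP_d439b2_co.X2.Non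
import Pool.Agent.Lib.MP_d439b2_co.X2.Plus
import Pool.Agent.Lib.MP_d439b2_co.X2.Ram3
import Pool.Agent.Lib.MP_d439b2_co.X2.SymP
import Pool.Agent.Lib.MP_d439b2_co.X2.TypesZ
import Pool.Agent.Lib.MP_d439b2_co.X2.Vic
import Pool.Agent.Lib.MP_d439b2_co.X2.VicSt
import Pool.Agent.Lib.MP_d439b2_co.W.FinalW

/-!
# MP_d439b2_co, X2: the bounded width theorem for staircase structures, final form (helper85)
-/

set_option autoImplicit false

namespace Pool.Agent.MPd439b2.X2

open Pool.Agent.MPd439b2 Pool.Agent.MPd439b2.W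

theorem bundleSF : S_BundleS :=
  bundleS carve (reg cross) deg (badWL deg) (linkA deg GT.pMen) linkB (reroute runs) trackOf noncross

theorem carvLF : S_CarvL := carvL (typesZ exc trace) preW

theorem cBOrF : S_CBOr := cBOr symP conv bundleSF carve deg preW (bad2 preW)

theorem mainF : S_Main := mainX carvLF cBOrF (noRung comp) (homB ramC) cut

theorem plusF : S_Plus := plus nonX clo

theorem antiF : S_Anti := anti (ram3 ramC)

theorem vicF : S_Vic := vic mainF plusF antiF (vicSt dil)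

end Pool.Agent.MPd439b2.X2
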