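import Pool.Agent.Lib.MP_d439b2_co.X2.SpecA

/-!
# MP_d439b2_co, X2: large antichains of the vicinal preorder (B2)
-/

set_option autoImplicit false

namespace Pool.Agent.MPd439b2.X2

open Pool.Agent.MPd439b2 Pool.Agent.MPd439b2.W

/-- the homogeneous configuration: `U i j` sees `X i` and misses `X j` -/
private structure AHf {V : Type} (G : SimpleGraph V) (n : ℕ) (X : ℕ → V) (U : ℕ → ℕ → V)
    (c1 c2 c3 : Prop) : Prop where
  s : ∀ i j, i < j → j < n → G.Adj (U i j) (X i)
  m : ∀ i j, i < j → j < n → ¬ G.Adj (U i j) (X j)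
  ne : ∀ i j k, i < j → j < n → k < n → U i j ≠ X k
  inj : ∀ i j, i < j → j < n → X i ≠ X j
  a1 : ∀ i j k, i < j → j < k → k < n → (G.Adj (U j k) (X i) ↔ c1)
  a2 : ∀ i j k, i < j → j < k → k < n → (G.Adj (U i k) (X j) ↔ c2)
  a3 : ∀ i j k, i < j → j < k → k < n → (G.Adj (U i j) (X k) ↔ c3)

private theorem ant_ne {V : Type} {n : ℕ} {X : ℕ → V} {U : ℕ → ℕ → V} {e1 e2 e3 : Prop}
    (hn : 4 ≤ n) (inj : ∀ i j, i < j → j < n → X i ≠ X j)
    (b : ∀ i j, i < j → j < n → U i j ≠ X i ∧ U i j ≠ X j)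
    (b1 : ∀ i j k, i < j → j < k → k < n → (U j k = X i ↔ e1))
    (b2 : ∀ i j k, i < j → j < k → k < n → (U i k = X j ↔ e2))
    (b3 : ∀ i j k, i < j → j < k → k < n → (U i j = X k ↔ e3)) :
    ∀ i j k, i < j → j < n → k < n → U i j ≠ X k := by
  intro i j k hij hj hk h
  rcases lt_trichotomy k i with h1 | h1 | h1
  · have he := (b1 k i j h1 hij hj).1 h
    exact inj 0 1 (by omega) (by omega) (((b1 0 2 3 (by omega) (by omega) (by omega)).2 he).symm.trans
      ((b1 1 2 3 (by omega) (by omega) (by omega)).2 he))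
  · subst h1
    exact (b k j hij hj).1 h
  · rcases lt_trichotomy k j with h2 | h2 | h2
    · have he := (b2 i k j h1 h2 hj).1 h
      exact inj 1 2 (by omega) (by omega)
        (((b2 0 1 3 (by omega) (by omega) (by omega)).2 he).symm.trans
          ((b2 0 2 3 (by omega) (by omega) (by omega)).2 he))
    · subst h2
      exact (b i k hij hj).2 h
    · have he := (b3 i j k hij h2 hk).1 h
      exact inj 2 3 (by omega) (by omega)
        (((b3 0 1 2 (by omega) (by omega) (by omega)).2 he).symm.trans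
          ((b3 0 1 3 (by omega) (by omega) (by omega)).2 he))

private theorem ant_injX {V : Type} {G : SimpleGraph V} {n : ℕ} {X : ℕ → V} {U : ℕ → ℕ → V}
    {c1 c2 c3 : Prop} (h : AHf G n X U c1 c2 c3) {i j : ℕ} (hi : i < n) (hj : j < n)
    (hij : i ≠ j) : X i ≠ X j := by
  rcases lt_or_gt_of_ne hij with h' | h'
  · exact h.inj i j h' hj
  · exact (h.inj j i h' hi).symm

/-- a matching from the adjacencies alone -/
private theorem ant_mat {V : Type} {G : SimpleGraph V} {m : ℕ} (a b : ℕ → V)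
    (h1 : ∀ i < m, ∀ j < m, a i ≠ b j) (h2 : ∀ i < m, ∀ j < m, i ≠ j → a i ≠ a j)
    (h3 : ∀ i < m, ∀ j < m, (G.Adj (a i) (b j) ↔ i = j)) : MatP G m := by
  refine ⟨a, b, fun i hi j hj => ⟨h1 i hi j hj, fun hij => ⟨h2 i hi j hj hij, ?_⟩, h3 i hi j hj⟩⟩
  intro h
  apply hij
  rw [← h3 i hi j hj, ← h]
  exact (h3 i hi i hi).2 rfl

private theorem ant_com {V : Type} {G : SimpleGraph V} {m : ℕ} (a b : ℕ → V)
    (h1 : ∀ i < m, ∀ j < m, a i ≠ b j) (h2 : ∀ i < m, ∀ j < m, i ≠ j → a i ≠ a j)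
    (h3 : ∀ i < m, ∀ j < m, (G.Adj (a i) (b j) ↔ i ≠ j)) : ComP G m := by
  refine ⟨a, b, fun i hi j hj => ⟨h1 i hi j hj, fun hij => ⟨h2 i hi j hj hij, ?_⟩, h3 i hi j hj⟩⟩
  intro h
  have h4 := (h3 i hi j hj).2 hij
  rw [← h] at h4
  exact (h3 i hi i hi).1 h4 rfl

private theorem ant_half {V : Type} {G : SimpleGraph V} {n m : ℕ} {X : ℕ → V} {U : ℕ → ℕ → V}
    {c1 c2 c3 : Prop} (hn : 2 * m + 2 ≤ n) (h : AHf G n X U c1 c2 c3) :
    MatP G m ∨ ComP G m ∨ (c1 ∧ ¬ c3) := by
  by_cases h3 : c3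
  · by_cases h2 : c2
    · right
      left
      refine ant_com (fun i => X (i + 1)) (fun i => U 0 (i + 1)) ?_ ?_ ?_
      · intro i hi j hj
        exact (h.ne 0 (j + 1) (i + 1) (by omega) (by omega) (by omega)).symm
      · intro i hi j hj hij
        exact ant_injX h (by omega) (by omega) (by omega)
      · intro i hi j hj
        change G.Adj (X (i + 1)) (U 0 (j + 1)) ↔ i ≠ j
        rw [SimpleGraph.adj_comm]
        rcases lt_trichotomy i j with h' | h' | h'
        · rw [h.a2 0 (i + 1) (j + 1) (by omega) (by omega) (by omega)]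
          exact ⟨fun _ => by omega, fun _ => h2⟩
        · subst h'
          exact ⟨fun h'' => absurd h'' (h.m 0 (i + 1) (by omega) (by omega)), fun h'' => absurd rfl h''⟩
        · rw [h.a3 0 (j + 1) (i + 1) (by omega) (by omega) (by omega)]
          exact ⟨fun _ => by omega, fun _ => h3⟩
    · by_cases h1 : c1
      · right
        left
        refine ant_com (fun i => X (2 * i + 1)) (fun i => U (2 * i) (2 * i + 1)) ?_ ?_ ?_
        · intro i hi j hj
          exact (h.ne (2 * j) (2 * j + 1) (2 * i + 1) (by omega) (by omega) (by omega)).symm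
        · intro i hi j hj hij
          exact ant_injX h (by omega) (by omega) (by omega)
        · intro i hi j hj
          change G.Adj (X (2 * i + 1)) (U (2 * j) (2 * j + 1)) ↔ i ≠ j
          rw [SimpleGraph.adj_comm]
          rcases lt_trichotomy i j with h' | h' | h'
          · rw [h.a1 (2 * i + 1) (2 * j) (2 * j + 1) (by omega) (by omega) (by omega)]
            exact ⟨fun _ => by omega, fun _ => h1⟩
          · subst h'
            exact ⟨fun h'' => absurd h'' (h.m (2 * i) (2 * i + 1) (by omega) (by omega)),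
              fun h'' => absurd rfl h''⟩
          · rw [h.a3 (2 * j) (2 * j + 1) (2 * i + 1) (by omega) (by omega) (by omega)]
            exact ⟨fun _ => by omega, fun _ => h3⟩
      · left
        refine ant_mat (fun i => X i) (fun i => U i (n - 1)) ?_ ?_ ?_
        · intro i hi j hj
          exact (h.ne j (n - 1) i (by omega) (by omega) (by omega)).symm
        · intro i hi j hj hij
          exact ant_injX h (by omega) (by omega) hij
        · intro i hi j hj
          change G.Adj (X i) (U j (n - 1)) ↔ i = j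
          rw [SimpleGraph.adj_comm]
          rcases lt_trichotomy i j with h' | h' | h'
          · rw [h.a1 i j (n - 1) (by omega) (by omega) (by omega)]
            exact ⟨fun h'' => absurd h'' h1, fun h'' => by omega⟩
          · subst h'
            exact ⟨fun _ => rfl, fun _ => h.s i (n - 1) (by omega) (by omega)⟩
          · rw [h.a2 j i (n - 1) (by omega) (by omega) (by omega)]
            exact ⟨fun h'' => absurd h'' h2, fun h'' => by omega⟩
  · by_cases h1 : c1
    · exact Or.inr (Or.inr ⟨h1, h3⟩)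
    · left
      refine ant_mat (fun i => X (2 * i)) (fun i => U (2 * i) (2 * i + 1)) ?_ ?_ ?_
      · intro i hi j hj
        exact (h.ne (2 * j) (2 * j + 1) (2 * i) (by omega) (by omega) (by omega)).symm
      · intro i hi j hj hij
        exact ant_injX h (by omega) (by omega) (by omega)
      · intro i hi j hj
        change G.Adj (X (2 * i)) (U (2 * j) (2 * j + 1)) ↔ i = j
        rw [SimpleGraph.adj_comm]
        rcases lt_trichotomy i j with h' | h' | h'
        · rw [h.a1 (2 * i) (2 * j) (2 * j + 1) (by omega) (by omega) (by omega)]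
          exact ⟨fun h'' => absurd h'' h1, fun h'' => by omega⟩
        · subst h'
          exact ⟨fun _ => rfl, fun _ => h.s (2 * i) (2 * i + 1) (by omega) (by omega)⟩
        · rw [h.a3 (2 * j) (2 * j + 1) (2 * i) (by omega) (by omega) (by omega)]
          exact ⟨fun h'' => absurd h'' h3, fun h'' => by omega⟩

theorem anti (h1 : S_Ram3) : S_Anti := by
  intro m
  obtain ⟨M, hM⟩ := h1 ((Fin 6 → Prop) × (Fin 6 → Prop)) (6 * m + 9)
  refine ⟨M, fun V G x hx => ?_⟩
  have hy0 : ∀ k l, ∃ z, k < M → l < M → k ≠ l → G.Adj (x k) z ∧ z ≠ x l ∧ ¬ G.Adj (x l) z := by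
    intro k l
    by_cases hkl : k < M ∧ l < M ∧ k ≠ l
    · obtain ⟨z, hz1, hz2⟩ := Set.not_subset.1 (hx k hkl.1 l hkl.2.1 hkl.2.2)
      refine ⟨z, fun _ _ _ => ⟨hz1, fun h => hz2 (Or.inl h), fun h => hz2 (Or.inr h)⟩⟩
    · exact ⟨x 0, fun a b c => absurd ⟨a, b, c⟩ hkl⟩
  choose y hy using hy0
  obtain ⟨s, c, hs1, hs2, hc⟩ := hM (fun i j k =>
    (![G.Adj (y i j) (x k), G.Adj (y i k) (x j), G.Adj (y j k) (x i), y i j = x k, y i k = x j,
      y j k = x i],
    ![G.Adj (y j i) (x k), G.Adj (y k i) (x j), G.Adj (y k j) (x i), y j i = x k, y k i = x j,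
      y k j = x i]))
  set n : ℕ := 6 * m + 9 with hn
  have hxinj : ∀ k < M, ∀ l < M, k ≠ l → x k ≠ x l := by
    intro k hk l hl hkl h
    apply hx k hk l hl hkl
    rw [h]
    exact Set.subset_insert _ _
  have hsne : ∀ i j, i < j → j < n → s i ≠ s j := fun i j hij hj => ne_of_lt (hs1 i j hij hj)
  have hinj : ∀ i j, i < j → j < n → x (s i) ≠ x (s j) := fun i j hij hj =>
    hxinj (s i) (hs2 i (by omega)) (s j) (hs2 j hj) (hsne i j hij hj)
  have hU : ∀ i j, i < j → j < n → G.Adj (x (s i)) (y (s i) (s j)) ∧ y (s i) (s j) ≠ x (s j) ∧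
      ¬ G.Adj (x (s j)) (y (s i) (s j)) := fun i j hij hj =>
    hy (s i) (s j) (hs2 i (by omega)) (hs2 j hj) (hsne i j hij hj)
  have hW : ∀ i j, i < j → j < n → G.Adj (x (s j)) (y (s j) (s i)) ∧ y (s j) (s i) ≠ x (s i) ∧
      ¬ G.Adj (x (s i)) (y (s j) (s i)) := fun i j hij hj =>
    hy (s j) (s i) (hs2 j hj) (hs2 i (by omega)) (hsne i j hij hj).symm
  have hcol : ∀ i j k, i < j → j < k → k < n →
      ((G.Adj (y (s i) (s j)) (x (s k)) ↔ c.1 0) ∧ (G.Adj (y (s i) (s k)) (x (s j)) ↔ c.1 1) ∧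
      (G.Adj (y (s j) (s k)) (x (s i)) ↔ c.1 2) ∧ (y (s i) (s j) = x (s k) ↔ c.1 3) ∧
      (y (s i) (s k) = x (s j) ↔ c.1 4) ∧ (y (s j) (s k) = x (s i) ↔ c.1 5)) ∧
      ((G.Adj (y (s j) (s i)) (x (s k)) ↔ c.2 0) ∧ (G.Adj (y (s k) (s i)) (x (s j)) ↔ c.2 1) ∧
      (G.Adj (y (s k) (s j)) (x (s i)) ↔ c.2 2) ∧ (y (s j) (s i) = x (s k) ↔ c.2 3) ∧
      (y (s k) (s i) = x (s j) ↔ c.2 4) ∧ (y (s k) (s j) = x (s i) ↔ c.2 5)) := by
    intro i j k hij hjk hk
    have h := hc i j k hij hjk hk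
    rw [← h]
    exact ⟨⟨Iff.rfl, Iff.rfl, Iff.rfl, Iff.rfl, Iff.rfl, Iff.rfl⟩,
      ⟨Iff.rfl, Iff.rfl, Iff.rfl, Iff.rfl, Iff.rfl, Iff.rfl⟩⟩
  have hUne := ant_ne (X := fun i => x (s i)) (U := fun i j => y (s i) (s j)) (by omega) hinj
    (fun i j hij hj => ⟨(hU i j hij hj).1.ne', (hU i j hij hj).2.1⟩)
    (fun i j k a b c => (hcol i j k a b c).1.2.2.2.2.2)
    (fun i j k a b c => (hcol i j k a b c).1.2.2.2.2.1)
    (fun i j k a b c => (hcol i j k a b c).1.2.2.2.1)
  have hWne := ant_ne (X := fun i => x (s i)) (U := fun i j => y (s j) (s i)) (by omega) hinj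
    (fun i j hij hj => ⟨(hW i j hij hj).2.1, (hW i j hij hj).1.ne'⟩)
    (fun i j k a b c => (hcol i j k a b c).2.2.2.2.2.2)
    (fun i j k a b c => (hcol i j k a b c).2.2.2.2.2.1)
    (fun i j k a b c => (hcol i j k a b c).2.2.2.2.1)
  have HU : AHf G n (fun i => x (s i)) (fun i j => y (s i) (s j)) (c.1 2) (c.1 1) (c.1 0) :=
    ⟨fun i j hij hj => (hU i j hij hj).1.symm, fun i j hij hj h => (hU i j hij hj).2.2 h.symm,
      hUne, hinj, fun i j k a b c => (hcol i j k a b c).1.2.2.1,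
      fun i j k a b c => (hcol i j k a b c).1.2.1, fun i j k a b c => (hcol i j k a b c).1.1⟩
  have HW : AHf G n (fun i => x (s (n - 1 - i))) (fun i j => y (s (n - 1 - i)) (s (n - 1 - j)))
      (c.2 0) (c.2 1) (c.2 2) := by
    refine ⟨?_, ?_, ?_, ?_, ?_, ?_, ?_⟩
    · intro i j hij hj
      exact (hW (n - 1 - j) (n - 1 - i) (by omega) (by omega)).1.symm
    · intro i j hij hj h
      exact (hW (n - 1 - j) (n - 1 - i) (by omega) (by omega)).2.2 h.symm
    · intro i j k hij hj hk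
      exact hWne (n - 1 - j) (n - 1 - i) (n - 1 - k) (by omega) (by omega) (by omega)
    · intro i j hij hj
      exact (hinj (n - 1 - j) (n - 1 - i) (by omega) (by omega)).symm
    · intro i j k hij hjk hk
      exact (hcol (n - 1 - k) (n - 1 - j) (n - 1 - i) (by omega) (by omega) (by omega)).2.1
    · intro i j k hij hjk hk
      exact (hcol (n - 1 - k) (n - 1 - j) (n - 1 - i) (by omega) (by omega) (by omega)).2.2.1
    · intro i j k hij hjk hk
      exact (hcol (n - 1 - k) (n - 1 - j) (n - 1 - i) (by omega) (by omega) (by omega)).2.2.2.1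
  rcases ant_half (m := m) (by omega) HU with h | h | ⟨c1, c3⟩
  · exact Or.inl h
  · exact Or.inr (Or.inl h)
  rcases ant_half (m := m) (by omega) HW with h | h | ⟨d3, d1⟩
  · exact Or.inl h
  · exact Or.inr (Or.inl h)
  right
  right
  have hu : ∀ i < m, ∀ j < m, (G.Adj (y (s (3 * i + 4)) (s (3 * i + 5))) (x (s (3 * j + 4))) ↔
      j ≤ i) := by
    intro i hi j hj
    rcases lt_trichotomy j i with h' | h' | h'
    · rw [(hcol (3 * j + 4) (3 * i + 4) (3 * i + 5) (by omega) (by omega) (by omega)).1.2.2.1]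
      exact ⟨fun _ => by omega, fun _ => c1⟩
    · subst h'
      exact ⟨fun _ => le_rfl, fun _ => (hU (3 * j + 4) (3 * j + 5) (by omega) (by omega)).1.symm⟩
    · rw [(hcol (3 * i + 4) (3 * i + 5) (3 * j + 4) (by omega) (by omega) (by omega)).1.1]
      exact ⟨fun h => absurd h c3, fun h => by omega⟩
  have hw : ∀ i < m, ∀ j < m, (G.Adj (y (s (3 * i + 4)) (s (3 * i + 3))) (x (s (3 * j + 4))) ↔
      i ≤ j) := by
    intro i hi j hj
    rcases lt_trichotomy j i with h' | h' | h'
    · rw [(hcol (3 * j + 4) (3 * i + 3) (3 * i + 4) (by omega) (by omega) (by omega)).2.2.2.1]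
      exact ⟨fun h => absurd h d1, fun h => by omega⟩
    · subst h'
      exact ⟨fun _ => le_rfl, fun _ => (hW (3 * j + 3) (3 * j + 4) (by omega) (by omega)).1.symm⟩
    · rw [(hcol (3 * i + 3) (3 * i + 4) (3 * j + 4) (by omega) (by omega) (by omega)).2.1]
      exact ⟨fun _ => by omega, fun _ => d3⟩
  refine ⟨fun i => x (s (3 * i + 4)), fun i => y (s (3 * i + 4)) (s (3 * i + 5)),
    fun i => y (s (3 * i + 4)) (s (3 * i + 3)), fun i hi j hj => ⟨?_, ?_, ?_, ?_, hu i hi j hj,
      hw i hi j hj⟩⟩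
  · exact (hUne (3 * j + 4) (3 * j + 5) (3 * i + 4) (by omega) (by omega) (by omega)).symm
  · exact (hWne (3 * j + 3) (3 * j + 4) (3 * i + 4) (by omega) (by omega) (by omega)).symm
  · intro h
    change y (s (3 * i + 4)) (s (3 * i + 5)) = y (s (3 * j + 4)) (s (3 * j + 3)) at h
    have h2 := (hcol 0 (3 * i + 4) (3 * i + 5) (by omega) (by omega) (by omega)).1.2.2.1.2 c1
    rw [h, (hcol 0 (3 * j + 3) (3 * j + 4) (by omega) (by omega) (by omega)).2.2.2.1] at h2
    exact d1 h2
  · intro hij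
    refine ⟨ant_injX HU (by omega) (by omega) (by omega), ?_, ?_⟩
    · intro h
      change y (s (3 * i + 4)) (s (3 * i + 5)) = y (s (3 * j + 4)) (s (3 * j + 5)) at h
      have e1 := hu i hi j hj
      have e2 := hu j hj i hi
      rw [h] at e1
      rw [← h] at e2
      have e3 := e1.1 ((hu j hj j hj).2 le_rfl)
      have e4 := e2.1 ((hu i hi i hi).2 le_rfl)
      omega
    · intro h
      change y (s (3 * i + 4)) (s (3 * i + 3)) = y (s (3 * j + 4)) (s (3 * j + 3)) at h
      have e1 := hw i hi j hj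
      have e2 := hw j hj i hi
      rw [h] at e1
      rw [← h] at e2
      have e3 := e1.1 ((hw j hj j hj).2 le_rfl)
      have e4 := e2.1 ((hw i hi i hi).2 le_rfl)
      omega

end Pool.Agent.MPd439b2.X2
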