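import Pool.Agent.Lib.MP_d439b2_co.W.SpecD

/-!
# MP_d439b2_co, X2: the bounded width theorem for staircase structures, definitions (helper85)

A staircase structure on a graph: boundedly many linearly ordered classes, each one a clique or a stable
set, such that the edges between any two classes form a monotone staircase (in any of the four orientations).
The ordered set `Pt S` has four copies of every vertex; it has an antitone involution, and its skeleton
(`W.Gam`) describes the graph.
-/

set_option autoImplicit false

namespace Pool.Agent.MPd439b2.X2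

open Pool.Agent.MPd439b2 Pool.Agent.MPd439b2.W

/-- **A staircase structure** with `n` classes: `c` is the partition into classes, `ρ` orders every class,
`t i = true` if the class `i` is a clique, `t i = false` if it is stable; for `i ≠ j`, if `s i j = true` then
the vertices of the class `i` with smaller `ρ` see more of the class `j`, and if `s i j = false` then those
with larger `ρ` see more of the class `j` -/
structure St (V : Type) (n : ℕ) where
  G : SimpleGraph V
  c : V → Fin n
  ρ : V → ℕ
  s : Fin n → Fin n → Bool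
  t : Fin n → Bool
  inj : ∀ x y, c x = c y → ρ x = ρ y → x = y
  typ : ∀ x y, x ≠ y → c x = c y → (G.Adj x y ↔ t (c x) = true)
  dn : ∀ x x' y, c x = c x' → ρ x < ρ x' → c y ≠ c x → s (c x) (c y) = true → G.Adj x' y → G.Adj x y
  up : ∀ x x' y, c x = c x' → ρ x < ρ x' → c y ≠ c x → s (c x) (c y) = false → G.Adj x y → G.Adj x' y

section

variable {V : Type} {n : ℕ}

/-- `x` comes before `y` in the order `e` (or `x = y`, for vertices of one class): the order of `ρ` if
`e = true`, the reversed one if `e = false` -/
def St.le (S : St V n) (e : Bool) (x y : V) : Prop := if e = true then S.ρ x ≤ S.ρ y else S.ρ y ≤ S.ρ x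

/-- `x` comes strictly before `y` in the order `e` -/
def St.lt (S : St V n) (e : Bool) (x y : V) : Prop := if e = true then S.ρ x < S.ρ y else S.ρ y < S.ρ x

theorem St.le_refl (S : St V n) (e : Bool) (x : V) : S.le e x x := by
  unfold St.le
  split_ifs <;> exact le_rfl

theorem St.le_trans (S : St V n) {e : Bool} {x y z : V} (h : S.le e x y) (h' : S.le e y z) :
    S.le e x z := by
  unfold St.le at *
  split_ifs at * <;> omega

theorem St.le_total (S : St V n) (e : Bool) (x y : V) : S.le e x y ∨ S.le e y x := by
  unfold St.le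
  split_ifs <;> omega

theorem St.lt_iff (S : St V n) (e : Bool) (x y : V) : S.lt e x y ↔ ¬ S.le e y x := by
  unfold St.le St.lt
  split_ifs <;> omega

theorem St.lt_trans (S : St V n) {e : Bool} {x y z : V} (h : S.lt e x y) (h' : S.lt e y z) :
    S.lt e x z := by
  unfold St.lt at *
  split_ifs at * <;> omega

theorem St.lt_of_le_of_lt (S : St V n) {e : Bool} {x y z : V} (h : S.le e x y) (h' : S.lt e y z) :
    S.lt e x z := by
  unfold St.lt St.le at *
  split_ifs at * <;> omega

theorem St.lt_of_lt_of_le (S : St V n) {e : Bool} {x y z : V} (h : S.lt e x y) (h' : S.le e y z) :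
    S.lt e x z := by
  unfold St.lt St.le at *
  split_ifs at * <;> omega

theorem St.le_of_lt (S : St V n) {e : Bool} {x y : V} (h : S.lt e x y) : S.le e x y := by
  unfold St.lt St.le at *
  split_ifs at * <;> omega

theorem St.ne_of_lt (S : St V n) {e : Bool} {x y : V} (h : S.lt e x y) : x ≠ y := by
  rintro rfl
  unfold St.lt at h
  split_ifs at h <;> omega

theorem St.le_not (S : St V n) (e : Bool) (x y : V) : S.le (!e) x y ↔ S.le e y x := by
  unfold St.le
  cases e <;> simp

theorem St.lt_not (S : St V n) (e : Bool) (x y : V) : S.lt (!e) x y ↔ S.lt e y x := by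
  unfold St.lt
  cases e <;> simp

theorem St.eq_of_le (S : St V n) {e : Bool} {x y : V} (hc : S.c x = S.c y) (h : S.le e x y)
    (h' : S.le e y x) : x = y := by
  unfold St.le at *
  refine S.inj x y hc ?_
  split_ifs at * <;> omega

/-- **monotonicity**: a vertex which comes before another one of its class in the order `s` sees more -/
theorem St.see (S : St V n) {x x' y : V} (hc : S.c x = S.c x') (hy : S.c y ≠ S.c x)
    (h : S.le (S.s (S.c x) (S.c y)) x x') (ha : S.G.Adj x' y) : S.G.Adj x y := by
  by_cases he : x = x'
  · rw [he]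
    exact ha
  · have hρ : S.ρ x ≠ S.ρ x' := fun h' => he (S.inj x x' hc h')
    unfold St.le at h
    cases hs : S.s (S.c x) (S.c y)
    · rw [hs] at h
      rw [if_neg (by decide)] at h
      refine S.up x' x y hc.symm (by omega) (by rw [← hc]; exact hy) ?_ ha
      rw [← hc]
      exact hs
    · rw [hs] at h
      rw [if_pos rfl] at h
      exact S.dn x x' y hc (by omega) hy hs ha

/-- the four copies of the vertices -/
@[ext] structure Pt (S : St V n) where
  v : V
  e : Bool
  o : Bool

/-- the order of the four copies: `o = false` for the lower and `o = true` for the upper copies -/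
def Pt.Le {S : St V n} (a b : Pt S) : Prop :=
  (S.c a.v = S.c b.v ∧ a.e = b.e ∧ S.le a.e a.v b.v ∧ (a.o = false ∨ b.o = true)) ∨
  (S.c a.v ≠ S.c b.v ∧ a.o = false ∧ b.o = true ∧ S.G.Adj a.v b.v ∧ a.e = S.s (S.c a.v) (S.c b.v) ∧
    b.e = !S.s (S.c b.v) (S.c a.v))

instance instPt (S : St V n) : PartialOrder (Pt S) where
  le := Pt.Le
  le_refl a := by
    left
    refine ⟨rfl, rfl, S.le_refl _ _, ?_⟩
    cases a.o <;> simp
  le_trans a b d h h' := by
    rcases h with ⟨h1, h2, h3, h4⟩ | ⟨h1, h2, h3, h4, h5, h6⟩
    · rcases h' with ⟨g1, g2, g3, g4⟩ | ⟨g1, g2, g3, g4, g5, g6⟩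
      · left
        refine ⟨h1.trans g1, h2.trans g2, S.le_trans h3 (by rw [h2]; exact g3), ?_⟩
        rcases h4 with h4 | h4
        · exact Or.inl h4
        · rcases g4 with g4 | g4
          · rw [h4] at g4
            exact absurd g4 (by decide)
          · exact Or.inr g4
      · right
        have ho : a.o = false := by
          rcases h4 with h4 | h4
          · exact h4
          · rw [h4] at g2
            exact absurd g2 (by decide)
        have hcd : S.c d.v ≠ S.c a.v := by
          rw [h1]
          exact fun h => g1 h.symm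
        have he : a.e = S.s (S.c a.v) (S.c d.v) := by rw [h2, g5, h1]
        refine ⟨fun h => hcd h.symm, ho, g3, ?_, he, by rw [g6, h1]⟩
        refine S.see (x := a.v) (x' := b.v) h1 hcd ?_ g4
        rw [← he]
        exact h3
    · rcases h' with ⟨g1, g2, g3, g4⟩ | ⟨g1, g2, g3, g4, g5, g6⟩
      · right
        have ho : d.o = true := by
          rcases g4 with g4 | g4
          · rw [h3] at g4
            exact absurd g4 (by decide)
          · exact g4
        have hca : S.c a.v ≠ S.c d.v := by
          rw [← g1]
          exact h1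
        have he : d.e = !S.s (S.c d.v) (S.c a.v) := by rw [← g2, h6, g1]
        refine ⟨hca, h2, ho, ?_, by rw [h5, g1], he⟩
        refine (S.see (x := d.v) (x' := b.v) g1.symm (by rw [← g1]; exact h1) ?_ h4.symm).symm
        have e1 : S.s (S.c d.v) (S.c a.v) = !d.e := by rw [he]; simp
        rw [e1, S.le_not, ← g2]
        exact g3
      · rw [h3] at g2
        exact absurd g2 (by decide)
  le_antisymm a b h h' := by
    rcases h with ⟨h1, h2, h3, h4⟩ | ⟨h1, h2, h3, h4, h5, h6⟩
    · rcases h' with ⟨g1, g2, g3, g4⟩ | ⟨g1, g2, g3, g4, g5, g6⟩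
      · have hv : a.v = b.v := S.eq_of_le h1 h3 (by rw [h2]; exact g3)
        have ho : a.o = b.o := by
          rcases h4 with h4 | h4 <;> rcases g4 with g4 | g4
          · rw [h4, g4]
          · rw [h4] at g4
            exact absurd g4 (by decide)
          · rw [h4] at g4
            exact absurd g4 (by decide)
          · rw [h4, g4]
        exact Pt.ext hv h2 ho
      · exact absurd h1.symm g1
    · rcases h' with ⟨g1, g2, g3, g4⟩ | ⟨g1, g2, g3, g4, g5, g6⟩
      · exact absurd g1.symm h1
      · rw [h2] at g3
        exact absurd g3 (by decide)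

theorem Pt.le_def {S : St V n} (a b : Pt S) : a ≤ b ↔
    (S.c a.v = S.c b.v ∧ a.e = b.e ∧ S.le a.e a.v b.v ∧ (a.o = false ∨ b.o = true)) ∨
    (S.c a.v ≠ S.c b.v ∧ a.o = false ∧ b.o = true ∧ S.G.Adj a.v b.v ∧ a.e = S.s (S.c a.v) (S.c b.v) ∧
      b.e = !S.s (S.c b.v) (S.c a.v)) := Iff.rfl

/-- the chains of `Pt S` -/
def Pt.ch {S : St V n} (a : Pt S) : Fin (4 * n) :=
  ⟨4 * (S.c a.v).val + (if a.e = true then 2 else 0) + (if a.o = true then 1 else 0), by
    have := (S.c a.v).isLt
    split_ifs <;> omega⟩

theorem Pt.ch_eq {S : St V n} (a b : Pt S) :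
    a.ch = b.ch ↔ S.c a.v = S.c b.v ∧ a.e = b.e ∧ a.o = b.o := by
  constructor
  · intro h
    have h' : 4 * (S.c a.v).val + (if a.e = true then 2 else 0) + (if a.o = true then 1 else 0) =
        4 * (S.c b.v).val + (if b.e = true then 2 else 0) + (if b.o = true then 1 else 0) :=
      congrArg Fin.val h
    refine ⟨Fin.ext ?_, ?_, ?_⟩
    · split_ifs at h' <;> omega
    · cases ha : a.e <;> cases hb : b.e <;> simp only [ha, hb] at h' <;>
        first
        | rfl
        | (exfalso; revert h'; split_ifs <;> intro h' <;> first | omega | contradiction)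
    · cases ha : a.o <;> cases hb : b.o <;> simp only [ha, hb] at h' <;>
        first
        | rfl
        | (exfalso; revert h'; split_ifs <;> intro h' <;> first | omega | contradiction)
  · rintro ⟨h1, h2, h3⟩
    refine Fin.ext ?_
    show 4 * (S.c a.v).val + (if a.e = true then 2 else 0) + (if a.o = true then 1 else 0) =
        4 * (S.c b.v).val + (if b.e = true then 2 else 0) + (if b.o = true then 1 else 0)
    rw [h1, h2, h3]

theorem Pt.chainP (S : St V n) : ChainP (Pt.ch (S := S)) := by
  intro a b h
  obtain ⟨h1, h2, h3⟩ := (Pt.ch_eq a b).1 h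
  have ho : a.o = false ∨ b.o = true := by
    rw [h3]
    cases b.o <;> simp
  have ho' : b.o = false ∨ a.o = true := by
    rw [h3]
    cases b.o <;> simp
  rcases S.le_total a.e a.v b.v with h' | h'
  · exact Or.inl (Or.inl ⟨h1, h2, h', ho⟩)
  · exact Or.inr (Or.inl ⟨h1.symm, h2.symm, by rw [← h2]; exact h', ho'⟩)

/-- the antitone involution -/
def Pt.sg {S : St V n} (a : Pt S) : Pt S := ⟨a.v, !a.e, !a.o⟩

theorem Pt.sg_sg {S : St V n} (a : Pt S) : a.sg.sg = a := by
  unfold Pt.sg
  simp

theorem Pt.sg_le {S : St V n} (a b : Pt S) : b.sg ≤ a.sg ↔ a ≤ b := by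
  rw [Pt.le_def, Pt.le_def]
  unfold Pt.sg
  simp only [S.le_not]
  constructor
  · rintro (⟨h1, h2, h3, h4⟩ | ⟨h1, h2, h3, h4, h5, h6⟩)
    · left
      have h2' : a.e = b.e := by
        cases ha : a.e <;> cases hb : b.e <;> simp [ha, hb] at h2 <;> rfl
      refine ⟨h1.symm, h2', by rw [h2']; exact h3, ?_⟩
      rcases h4 with h4 | h4
      · right
        simpa using h4
      · left
        simpa using h4
    · right
      refine ⟨fun h => h1 h.symm, by simpa using h3, by simpa using h2, h4.symm, ?_, ?_⟩
      · have := congrArg (fun x => !x) h6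
        simpa using this
      · have := congrArg (fun x => !x) h5
        simpa using this
  · rintro (⟨h1, h2, h3, h4⟩ | ⟨h1, h2, h3, h4, h5, h6⟩)
    · left
      refine ⟨h1.symm, by rw [h2], by rw [← h2]; exact h3, ?_⟩
      rcases h4 with h4 | h4
      · right
        simp [h4]
      · left
        simp [h4]
    · right
      refine ⟨fun h => h1 h.symm, by simp [h3], by simp [h2], h4.symm, ?_, ?_⟩
      · rw [h6]
        simp
      · rw [h5]

theorem Pt.ch_sg {S : St V n} (a b : Pt S) : a.sg.ch = b.sg.ch ↔ a.ch = b.ch := by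
  rw [Pt.ch_eq, Pt.ch_eq]
  unfold Pt.sg
  constructor
  · rintro ⟨h1, h2, h3⟩
    refine ⟨h1, ?_, ?_⟩
    · have := congrArg (fun x => !x) h2
      simpa using this
    · have := congrArg (fun x => !x) h3
      simpa using this
  · rintro ⟨h1, h2, h3⟩
    refine ⟨h1, by simp [h2], by simp [h3]⟩

instance (S : St V n) [Finite V] : Finite (Pt S) :=
  Finite.of_injective (fun a : Pt S => (a.v, a.e, a.o)) fun a b h => by
    simp only [Prod.mk.injEq] at h
    exact Pt.ext h.1 h.2.1 h.2.2

end

end Pool.Agent.MPd439b2.X2
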