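import Pool.Agent.Lib.MP_d439b2_co.X2.SpecA

/-!
# MP_d439b2_co, X2: without shortcuts all other pairs of rails are homogeneous
-/

set_option autoImplicit false

namespace Pool.Agent.MPd439b2.X2

open Pool.Agent.MPd439b2 Pool.Agent.MPd439b2.W

private theorem non_dn {V : Type} {n : ℕ} {S : St V n} {M r : ℕ} {x : ℕ → ℕ → V} {κ : ℕ → Fin n}
    {e : ℕ → Bool} (h : CB S M r x κ e) {i : ℕ} (hi : i ≤ r) {y : V} (hy : S.c y ≠ κ i)
    (hs : e i = S.s (κ i) (S.c y)) {k k' : ℕ} (hk : k < k') (hk' : k' < M)
    (ha : S.G.Adj (x i k') y) : S.G.Adj (x i k) y := by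
  have h1 := h.cls i hi k (by omega)
  have h2 := h.cls i hi k' hk'
  refine S.see (x := x i k) (x' := x i k') (h1.trans h2.symm) (by rw [h1]; exact hy) ?_ ha
  rw [h1, ← hs]
  exact S.le_of_lt (h.mono i hi k k' hk hk')

private theorem non_up {V : Type} {n : ℕ} {S : St V n} {M r : ℕ} {x : ℕ → ℕ → V} {κ : ℕ → Fin n}
    {e : ℕ → Bool} (h : CB S M r x κ e) {i : ℕ} (hi : i ≤ r) {y : V} (hy : S.c y ≠ κ i)
    (hs : e i ≠ S.s (κ i) (S.c y)) {k k' : ℕ} (hk : k < k') (hk' : k' < M)
    (ha : S.G.Adj (x i k) y) : S.G.Adj (x i k') y := by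
  have h1 := h.cls i hi k (by omega)
  have h2 := h.cls i hi k' hk'
  refine S.see (x := x i k') (x' := x i k) (h2.trans h1.symm) (by rw [h2]; exact hy) ?_ ha
  have h3 : S.s (κ i) (S.c y) = !e i := by
    cases hh : e i <;> cases hh' : S.s (κ i) (S.c y) <;> rw [hh, hh'] at hs <;>
      first | rfl | exact absurd rfl hs
  rw [h2, h3, S.le_not]
  exact S.le_of_lt (h.mono i hi k k' hk hk')

theorem nonX : S_Non := by
  intro V n S M r x κ e E i j hM hHB hi hj hij hno
  have hcb := hHB.cb
  have ci : ∀ k < M, S.c (x i k) = κ i := fun k hk => hcb.cls i hi k hk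
  have cj : ∀ k < M, S.c (x j k) = κ j := fun k hk => hcb.cls j hj k hk
  have eij : ∀ k l, k < l → l < M → (S.G.Adj (x i k) (x j l) ↔ E i j) :=
    fun k l => hHB.rel i hi j hj k l
  have eji : ∀ k l, k < l → l < M → (S.G.Adj (x j k) (x i l) ↔ E j i) :=
    fun k l => hHB.rel j hj i hi k l
  by_cases hκ : κ i = κ j
  · rw [← eij 0 1 (by omega) (by omega), ← eji 0 1 (by omega) (by omega)]
    have c1 := ci 0 (by omega)
    have c2 := ci 1 (by omega)
    have c3 := cj 0 (by omega)
    have c4 := cj 1 (by omega)
    rw [S.typ _ _ (hHB.dis i hi j hj 0 (by omega) 1 (by omega) (by omega)) (by rw [c1, c4, hκ]),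
      S.typ _ _ (hHB.dis j hj i hi 0 (by omega) 1 (by omega) (by omega)) (by rw [c3, c2, hκ]),
      c1, c3, hκ]
  · have hκ' : κ j ≠ κ i := fun h => hκ h.symm
    have jdn : e j = S.s (κ j) (κ i) → ∀ l < M, ∀ k k', k < k' → k' < M →
        S.G.Adj (x j k') (x i l) → S.G.Adj (x j k) (x i l) := by
      intro hs l hl k k' hk hk' ha
      exact non_dn hcb hj (by rw [ci l hl]; exact hκ) (by rw [ci l hl]; exact hs) hk hk' ha
    have jup : e j ≠ S.s (κ j) (κ i) → ∀ l < M, ∀ k k', k < k' → k' < M →
        S.G.Adj (x j k) (x i l) → S.G.Adj (x j k') (x i l) := by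
      intro hs l hl k k' hk hk' ha
      exact non_up hcb hj (by rw [ci l hl]; exact hκ) (by rw [ci l hl]; exact hs) hk hk' ha
    have idn : e i = S.s (κ i) (κ j) → ∀ l < M, ∀ k k', k < k' → k' < M →
        S.G.Adj (x i k') (x j l) → S.G.Adj (x i k) (x j l) := by
      intro hs l hl k k' hk hk' ha
      exact non_dn hcb hi (by rw [cj l hl]; exact hκ') (by rw [cj l hl]; exact hs) hk hk' ha
    have iup : e i ≠ S.s (κ i) (κ j) → ∀ l < M, ∀ k k', k < k' → k' < M →
        S.G.Adj (x i k) (x j l) → S.G.Adj (x i k') (x j l) := by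
      intro hs l hl k k' hk hk' ha
      exact non_up hcb hi (by rw [cj l hl]; exact hκ') (by rw [cj l hl]; exact hs) hk hk' ha
    by_cases hei : e i = S.s (κ i) (κ j)
    · by_cases hej : e j = S.s (κ j) (κ i)
      · constructor
        · intro h
          have h1 := (eij 1 2 (by omega) (by omega)).2 h
          have h2 := jdn hej 1 (by omega) 0 2 (by omega) (by omega) h1.symm
          exact (eji 0 1 (by omega) (by omega)).1 h2
        · intro h
          have h1 := (eji 1 2 (by omega) (by omega)).2 h
          have h2 := idn hei 1 (by omega) 0 2 (by omega) (by omega) h1.symm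
          exact (eij 0 1 (by omega) (by omega)).1 h2
      · constructor
        · intro h
          by_contra hn
          apply hno
          refine ⟨hκ, ⟨fun _ => hej, fun _ => hei⟩, ?_⟩
          intro k hk l hl hkl
          rcases Nat.lt_or_gt_of_ne hkl with h1 | h1
          · exact ⟨fun _ => ⟨fun _ => hei, fun _ => h1⟩, fun _ => (eij k l h1 hl).2 h⟩
          · constructor
            · intro h2
              exact absurd ((eji l k h1 hk).1 h2.symm) hn
            · intro h2
              have := h2.2 hei
              omega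
        · intro h
          have h1 := (eji 0 1 (by omega) (by omega)).2 h
          have h2 := jup hej 1 (by omega) 0 2 (by omega) (by omega) h1
          have h3 := idn hei 2 (by omega) 0 1 (by omega) (by omega) h2.symm
          exact (eij 0 2 (by omega) (by omega)).1 h3
    · by_cases hej : e j = S.s (κ j) (κ i)
      · constructor
        · intro h
          have h1 := (eij 0 1 (by omega) (by omega)).2 h
          have h2 := iup hei 1 (by omega) 0 2 (by omega) (by omega) h1
          exact (eji 1 2 (by omega) (by omega)).1 h2.symm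
        · intro h
          by_contra hn
          apply hno
          refine ⟨hκ, ⟨fun h' => absurd h' hei, fun h' => absurd hej h'⟩, ?_⟩
          intro k hk l hl hkl
          rcases Nat.lt_or_gt_of_ne hkl with h1 | h1
          · constructor
            · intro h2
              exact absurd ((eij k l h1 hl).1 h2) hn
            · intro h2
              exact absurd (h2.1 h1) hei
          · constructor
            · intro _
              exact ⟨fun h3 => by omega, fun h3 => absurd h3 hei⟩
            · intro _
              exact ((eji l k h1 hk).2 h).symm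
      · constructor
        · intro h
          have h1 := (eij 0 1 (by omega) (by omega)).2 h
          have h2 := iup hei 1 (by omega) 0 2 (by omega) (by omega) h1
          exact (eji 1 2 (by omega) (by omega)).1 h2.symm
        · intro h
          have h1 := (eji 0 1 (by omega) (by omega)).2 h
          have h2 := jup hej 1 (by omega) 0 2 (by omega) (by omega) h1
          exact (eij 1 2 (by omega) (by omega)).1 h2.symm

end Pool.Agent.MPd439b2.X2
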